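import Pool.Agent.MP_f5ca18_al.H67.Q2.Full

set_option autoImplicit false

namespace Pool.Agent.MP_f5ca18_al.H67.Q2

open Filter Topology Pool.Agent.MP_755d6b_an.H98 Pool.Agent.MP_82452b_an.H8
  Pool.Agent.MP_82452b_an.H78
open scoped ComplexOrder InnerProductSpace

variable {H : Type} [NormedAddCommGroup H] [InnerProductSpace ℂ H] [CompleteSpace H]
  {P M B : VonNeumannAlgebra H} {Ω : H} {tr : (H →L[ℂ] H) → ℂ}
  {R : (H →L[ℂ] H) → (H →L[ℂ] H)}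

theorem tr_mul (h : IsSF M Ω) (ht : IsTrace B tr) (hMB : ∀ x ∈ M, x ∈ B)
    {Q : VonNeumannAlgebra H} (hQ : ∀ x ∈ Q, x ∈ M)
    (hf : ∀ z ∈ Q, (∀ x ∈ Q, z * x = x * z) → ∃ c : ℂ, z = c • (1 : H →L[ℂ] H))
    {f : H →L[ℂ] H} (hf1 : f ∈ B) (hf2 : ∀ u ∈ Q, f * u = u * f)
    {y : H →L[ℂ] H} (hy : y ∈ Q) : tr (y * f) = ⟪Ω, y Ω⟫_ℂ * tr f := by
  obtain ⟨ν, hν, hlim⟩ := dixmier h hQ hf hy
  have um : ∀ u : unitary Q.toStarSubalgebra, (u.1 : H →L[ℂ] H) ∈ Q := fun u => u.1.2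
  have u1 : ∀ u : unitary Q.toStarSubalgebra,
      star (u.1 : H →L[ℂ] H) * (u.1 : H →L[ℂ] H) = 1 := fun u => congrArg Subtype.val u.2.1
  set w : unitary Q.toStarSubalgebra → H →L[ℂ] H :=
    fun u => (u.1 : H →L[ℂ] H) * y * star (u.1 : H →L[ℂ] H) with hw
  have wm : ∀ u, w u ∈ Q := fun u => mul_mem (mul_mem (um u) hy) (star_mem (um u))
  have wn : ∀ u, ‖w u‖ ≤ ‖y‖ := fun u => by
    have a0 : ‖star (u.1 : H →L[ℂ] H) * (u.1 : H →L[ℂ] H)‖ = _ := CStarRing.norm_star_mul_self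
    rw [u1] at a0
    have a00 : ‖(1 : H →L[ℂ] H)‖ ≤ 1 := ContinuousLinearMap.norm_id_le
    have un : ‖(u.1 : H →L[ℂ] H)‖ ≤ 1 := by nlinarith [norm_nonneg (u.1 : H →L[ℂ] H)]
    have a1 := norm_mul_le ((u.1 : H →L[ℂ] H) * y) (star (u.1 : H →L[ℂ] H))
    have a2 := norm_mul_le (u.1 : H →L[ℂ] H) y
    rw [norm_star] at a1
    have a3 := mul_le_of_le_one_right (norm_nonneg ((u.1 : H →L[ℂ] H) * y)) un
    have a4 := mul_le_of_le_one_left (norm_nonneg y) un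
    exact a1.trans (a3.trans (a2.trans a4))
  have am : ∀ n, avg (ν n) w ∈ Q := fun n => avg_mem (V := Q.toStarSubalgebra) (ν n) wm
  have an : ∀ n, ‖avg (ν n) w‖ ≤ ‖y‖ := fun n => (hν n).norm_avg_le wn
  have qb : ∀ x ∈ Q, x ∈ B := fun x hx => hMB x (hQ x hx)
  have h1 : ∀ u, tr (w u * f) = tr (y * f) := fun u => by
    have a1 := qb _ (um u)
    simp only [hw]
    rw [mul_assoc, ← hf2 _ (star_mem (um u)), ← mul_assoc,
      ht.tracial _ (mul_mem (mul_mem a1 (qb _ hy)) hf1) _ (star_mem a1), ← mul_assoc, ← mul_assoc,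
      u1, one_mul]
  have h2 : ∀ n, tr (avg (ν n) w * f) = tr (y * f) := fun n => by
    have a1 : avg (ν n) w * f = avg (ν n) fun a => w a * f :=
      map_avg (LinearMap.mulRight ℂ f) _ _
    rw [a1, tr_avg ht _ fun a => mul_mem (qb _ (wm a)) hf1]
    simp only [h1]
    exact (hν n).avg_const _
  obtain ⟨z, hz, -, hzΩ, h3⟩ := h.cb hQ am an hlim
  have hz1 : z = ⟪Ω, y Ω⟫_ℂ • 1 := sub_eq_zero.1 (h.tv.sep _
    (sub_mem (hQ z hz) (smul_mem_vN _ (one_mem M))) (by simp [hzΩ]))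
  have h4 := tr_tendsto ht (T := fun n => avg (ν n) w * f) (T₀ := z * f)
    (C := ‖y‖ * ‖f‖) (fun n => mul_mem (qb _ (am n)) hf1)
    (fun n => (norm_mul_le _ _).trans (mul_le_mul_of_nonneg_right (an n) (norm_nonneg _)))
    (mul_mem (qb z hz) hf1) fun η => h3 (f η)
  simp only [h2] at h4
  rw [tendsto_nhds_unique tendsto_const_nhds h4, hz1, smul_mul_assoc, one_mul, ht.smul _ _ hf1]

theorem compress (h : IsR M Ω R) (hP : ∀ x ∈ P, x ∈ M) {z n : H →L[ℂ] H}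
    (hz : ∀ p ∈ P, R p * z = z * R p) (hn : n ∈ M) (e : n Ω = z Ω) :
    z * cycProj P Ω = n * cycProj P Ω := cyc_ext fun p hp => by
  have h1 : R p Ω = p Ω := h.app p (hP p hp) 1 (one_mem M)
  rw [← h1, ← mul_apply_eq_comp z, ← hz p hp, mul_apply_eq_comp, ← e, h.app p (hP p hp) n hn, h1]

theorem cond (h : IsR M Ω R) (hP : ∀ x ∈ P, x ∈ M) {x : H →L[ℂ] H} (hx : x ∈ M) :
    ∃ y ∈ P, y Ω = cycProj P Ω (x Ω) ∧ cycProj P Ω * x * cycProj P Ω = y * cycProj P Ω := by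
  obtain ⟨y, hy, e⟩ := exists_cond h.sf hP hx
  refine ⟨y, hy, e, compress h hP (fun p hp => ?_) (hP y hy) e⟩
  rw [← mul_assoc, ← h.cyc_comm hP hp, mul_assoc, mul_assoc,
    VonNeumannAlgebra.mem_commutant_iff.1 (h.mem p (hP p hp)) x hx]

theorem cond_nonneg (h : IsSF M Ω) (hP : ∀ x ∈ P, x ∈ M) {y n : H →L[ℂ] H} (hn : n ∈ P)
    (e : cycProj P Ω * (y * star y) * cycProj P Ω = n * cycProj P Ω) : 0 ≤ n := by
  have h1 : IsSelfAdjoint n := by
    have h2 := congrArg star e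
    rw [star_mul, star_mul, star_mul, star_mul, star_star, cyc_star, ← mul_assoc, e,
      cyc_comm_mem (star_mem hn)] at h2
    have h3 := congrArg (fun t : H →L[ℂ] H => t Ω) h2
    simp only [mul_apply_eq_comp, cyc_one] at h3
    exact sub_eq_zero.1 (h.tv.sep _ (sub_mem (star_mem (hP n hn)) (hP n hn)) (by simp [h3]))
  have hq : n⁻ ∈ P := mem_vN_of_commute hn fun _ hy => by
    rw [CFC.negPart_def]; exact hy.cfcₙ_real _
  have h2 : n * n⁻ = -(n⁻ * n⁻) := by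
    conv_lhs => enter [1]; rw [← CFC.posPart_sub_negPart n h1]
    rw [sub_mul, CFC.posPart_mul_negPart, zero_sub]
  have h3 : 0 ≤ ⟪n⁻ Ω, n (n⁻ Ω)⟫_ℂ := by
    conv_rhs => enter [3]; rw [← cyc_apply hq, ← mul_apply_eq_comp n, ← e]
    simp only [mul_apply_eq_comp]
    rw [← inner_star_apply, cyc_star, cyc_apply hq, ← inner_star_apply]
    rw [inner_self_eq_norm_sq_to_K]
    exact pow_nonneg (Complex.zero_le_real.2 (norm_nonneg ((star y) (n⁻ Ω)))) 2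
  have h4 : 0 ≤ ⟪n⁻ Ω, n⁻ (n⁻ Ω)⟫_ℂ :=
    ((ContinuousLinearMap.nonneg_iff_isPositive _).1 (CFC.negPart_nonneg n)).inner_nonneg_right _
  rw [← mul_apply_eq_comp n, h2, neg_apply, inner_neg_right, mul_apply_eq_comp, neg_nonneg] at h3
  have h5 := apply_eq_zero_of_nonneg (CFC.negPart_nonneg n) (le_antisymm h3 h4)
  have h6 : n⁻ * n⁻ = 0 := h.tv.sep _ (mul_mem (hP _ hq) (hP _ hq)) h5
  rw [← CFC.negPart_eq_zero_iff n h1, ← CStarRing.star_mul_self_eq_zero_iff,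
    (CFC.negPart_nonneg n).isSelfAdjoint.star_eq, h6]

theorem cond2 (h : IsR M Ω R) (hP : ∀ x ∈ P, x ∈ M) {z : H →L[ℂ] H}
    (hz : ∀ p ∈ P, R p * z = z * R p) :
    ∃ n ∈ P, n Ω = cycProj P Ω (z Ω) ∧ cycProj P Ω * z * cycProj P Ω = n * cycProj P Ω := by
  set ξ := cycProj P Ω (z Ω) with hξ
  have hξe : cycProj P Ω ξ = ξ := by rw [hξ, ← mul_apply_eq_comp, cyc_mul]
  have hz' : ∀ p ∈ P, R p * (cycProj P Ω * z) = cycProj P Ω * z * R p := fun p hp => by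
    rw [← mul_assoc, ← h.cyc_comm hP hp, mul_assoc, hz p hp, mul_assoc]
  let f : M.toStarSubalgebra →ₗ[ℂ] H :=
    { toFun := fun y => R y.1 ξ
      map_add' := fun x y => by
        rw [← add_apply, ← h.add x.2 y.2]; rfl
      map_smul' := fun c x => by
        have : R (c • x.1) = c • R x.1 := h.sf.op_ext fun w hw => by
          rw [h.app _ (smul_mem_vN c x.2) w hw, smul_apply, smul_apply, h.app _ x.2 w hw, map_smul]
        exact congrArg (fun t : H →L[ℂ] H => t ξ) this }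
  have hb : ∀ y : M.toStarSubalgebra, ‖f y‖ ≤ ‖z‖ * ‖evalAt M Ω y‖ := by
    rintro ⟨y, hy⟩
    change ‖R y ξ‖ ≤ ‖z‖ * ‖y Ω‖
    obtain ⟨n, hn, e1, e2⟩ := cond h hP (mul_mem hy (star_mem hy))
    have h0 := cond_nonneg h.sf hP hn e2
    have hs : CFC.sqrt n ∈ P := mem_vN_of_commute hn fun _ hy => by
      rw [CFC.sqrt_eq_cfc]; exact hy.cfc_nnreal _
    have s1 : CFC.sqrt n * CFC.sqrt n = n := CFC.sqrt_mul_sqrt_self n
    have s2 : star (CFC.sqrt n) = CFC.sqrt n := (CFC.sqrt_nonneg n).isSelfAdjoint.star_eq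
    set s := CFC.sqrt n
    have a1 : ⟪R y ξ, R y ξ⟫_ℂ = ⟪R s ξ, R s ξ⟫_ℂ := by
      rw [← inner_apply_star, ← inner_apply_star (R s), h.star y hy, h.star s (hP s hs), s2,
        ← mul_apply_eq_comp (R (star y)), ← mul_apply_eq_comp (R s) (R s),
        ← h.mul hy (star_mem hy), ← h.mul (hP s hs) (hP s hs), s1]
      have b1 := congrArg (fun t : H →L[ℂ] H => ⟪ξ, t ξ⟫_ℂ)
        (h.compress hP (mul_mem hy (star_mem hy)) hn e1)
      simp only [mul_apply_eq_comp, hξe] at b1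
      rw [← b1, ← inner_star_apply (cycProj P Ω), cyc_star, hξe]
    have a2 : ⟪s Ω, s Ω⟫_ℂ = ⟪(star y) Ω, (star y) Ω⟫_ℂ := by
      rw [← inner_apply_star, s2, ← mul_apply_eq_comp, s1, e1, ← inner_star_apply, cyc_star,
        cyc_one, inner_star_apply]
      rfl
    have a3 : ‖R y ξ‖ = ‖R s ξ‖ := by
      rw [norm_eq_sqrt_re_inner (𝕜 := ℂ), a1, ← norm_eq_sqrt_re_inner]
    have a4 : ‖s Ω‖ = ‖y Ω‖ := by
      rw [norm_eq_sqrt_re_inner (𝕜 := ℂ), a2, ← norm_eq_sqrt_re_inner, h.sf.tv.norm_star hy]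
    rw [a3, ← a4, hξ, ← mul_apply_eq_comp (cycProj P Ω), ← mul_apply_eq_comp, hz' s hs,
      mul_apply_eq_comp, show R s Ω = s Ω from h.app s (hP s hs) 1 (one_mem M)]
    refine (ContinuousLinearMap.le_opNorm _ _).trans (mul_le_mul_of_nonneg_right ?_ (norm_nonneg _))
    exact (norm_mul_le _ _).trans (mul_le_of_le_one_left (norm_nonneg _) cyc_norm)
  let T : H →L[ℂ] H := f.extendOfNorm (evalAt M Ω)
  have hT : ∀ y ∈ M, T (y Ω) = R y ξ := fun y hy =>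
    LinearMap.extendOfNorm_eq h.sf.denseRange ⟨_, hb⟩ ⟨y, hy⟩
  have hTM : T ∈ M := h.bicomm T fun x hx => h.sf.op_ext fun y hy => by
    rw [mul_apply_eq_comp, mul_apply_eq_comp, hT y hy, h.app x hx y hy, ← mul_apply_eq_comp y,
      hT _ (mul_mem hy hx), h.mul hy hx, mul_apply_eq_comp]
  obtain ⟨n, hn, e⟩ := exists_cond h.sf hP hTM
  have h1 := hT 1 (one_mem M)
  rw [one_apply_eq_self, h.one, one_apply_eq_self] at h1
  rw [h1, hξe] at e
  exact ⟨n, hn, e, compress h hP hz' (hP n hn) e⟩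

/-- the trace of the basic construction against the Jones projection. -/
theorem tr_mul_e (h : IsR M Ω R) (hP : ∀ x ∈ P, x ∈ M) (ht : IsTrace B tr) (hMB : ∀ x ∈ M, x ∈ B)
    (he : cycProj P Ω ∈ B)
    (hf : ∀ z ∈ P, (∀ x ∈ P, z * x = x * z) → ∃ c : ℂ, z = c • (1 : H →L[ℂ] H))
    {z : H →L[ℂ] H} (hzB : z ∈ B) (hz : ∀ p ∈ P, R p * z = z * R p) :
    tr (z * cycProj P Ω) = tr (cycProj P Ω) * ⟪Ω, z Ω⟫_ℂ := by
  obtain ⟨n, hn, e1, e2⟩ := cond2 h hP hz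
  rw [← cyc_mul, ← mul_assoc, ht.tracial _ (mul_mem hzB he) _ he, ← mul_assoc, e2, cyc_mul,
    tr_mul h.sf ht hMB hP hf he (fun u hu => cyc_comm_mem hu) hn, e1, ← inner_star_apply, cyc_star,
    cyc_one, mul_comm]

end Pool.Agent.MP_f5ca18_al.H67.Q2
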