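import Mathlib

/-!
# Jones towers of subfactors, index and depth

Each II₁ factor of the tower is taken in its standard form: it acts on its `L²` space, with the
cyclic trace vector `Ω` (the image of `1`).
-/

set_option autoImplicit false

namespace Pool.Agent.MP_f5ca18_al.Sub

open Filter Topology
open scoped ComplexOrder InnerProductSpace

/-- The bounded operators on `H`. -/
abbrev Op (H : Type) [NormedAddCommGroup H] [InnerProductSpace ℂ H] : Type := H →L[ℂ] H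

variable {H : Type} [NormedAddCommGroup H] [InnerProductSpace ℂ H] [CompleteSpace H]

/-- The restriction of `τ` to `N` is a faithful normal tracial state. Normality is continuity on
the unit ball of `N` for the weak operator topology. -/
structure IsTrace (N : VonNeumannAlgebra H) (τ : (H →L[ℂ] H) → ℂ) : Prop where
  add : ∀ x ∈ N, ∀ y ∈ N, τ (x + y) = τ x + τ y
  smul : ∀ c : ℂ, ∀ x ∈ N, τ (c • x) = c * τ x
  unital : τ 1 = 1
  positive : ∀ x ∈ N, x.IsPositive → 0 ≤ τ x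
  tracial : ∀ x ∈ N, ∀ y ∈ N, τ (x * y) = τ (y * x)
  faithful : ∀ x ∈ N, τ (star x * x) = 0 → x = 0
  normal : ∀ (l : Filter (H →L[ℂ] H)), ∀ x ∈ N, (∀ᶠ y in l, y ∈ N ∧ ‖y‖ ≤ 1) →
    (∀ ξ η : H, Tendsto (fun y : H →L[ℂ] H => ⟪ξ, y η⟫_ℂ) l (𝓝 ⟪ξ, x η⟫_ℂ)) →
    Tendsto τ l (𝓝 (τ x))

/-- `N` has trivial centre. -/
def IsFactor (N : VonNeumannAlgebra H) : Prop :=
  ∀ z ∈ N, (∀ x ∈ N, z * x = x * z) → ∃ c : ℂ, z = c • (1 : H →L[ℂ] H)

/-- `M` is a II₁ factor acting on `H = L²(M, τ)`: an infinite-dimensional factor on which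
`τ = ⟪Ω, · Ω⟫` is a faithful normal tracial state, with `MΩ` dense in `H`. -/
structure IsStdII1 (M : VonNeumannAlgebra H) (Ω : H) : Prop where
  trace : IsTrace M (fun x => ⟪Ω, x Ω⟫_ℂ)
  factor : IsFactor M
  infinite : ¬ FiniteDimensional ℂ M.toStarSubalgebra
  cyclic : Dense {ξ | ∃ x ∈ M, x Ω = ξ}

/-- `N ⊆ M` is an infinite-dimensional factor. -/
structure IsSubfactor (N M : VonNeumannAlgebra H) : Prop where
  le : ∀ x ∈ N, x ∈ M
  factor : IsFactor N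
  infinite : ¬ FiniteDimensional ℂ N.toStarSubalgebra

/-- The real number `⟪Ω, xΩ⟫⁻¹`. -/
noncomputable def invTrace (Ω : H) (x : H →L[ℂ] H) : ℝ := (⟪Ω, x Ω⟫_ℂ).re⁻¹

/-- The elements of `M` that commute with `f x` for all `x ∈ S`. -/
def commIn {α : Type} (M : VonNeumannAlgebra H) (f : α → (H →L[ℂ] H)) (S : Set α) :
    Set (H →L[ℂ] H) :=
  (M : Set (H →L[ℂ] H)) ∩ Set.centralizer (f '' S)

/-- The Jones projection `e_P` of `L²(M)` onto `L²(P)`, the closure of `PΩ`. -/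
noncomputable def jones (P : VonNeumannAlgebra H) (Ω : H) : H →L[ℂ] H :=
  (Submodule.span ℂ {η | ∃ x ∈ P, x Ω = η}).topologicalClosure.starProjection

/-- The centre of the algebra `S` has dimension at most `D`. -/
def CentreDimLE (S : Set (H →L[ℂ] H)) (D : ℕ) : Prop :=
  ∀ (r : ℕ) (z : Fin r → (H →L[ℂ] H)), (∀ i, z i ∈ S ∩ Set.centralizer S) →
    LinearIndependent ℂ z → r ≤ D

variable {K : Type} [NormedAddCommGroup K] [InnerProductSpace ℂ K] [CompleteSpace K]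

/-- One step of the Jones tower. `B = ⟨M, e_P⟩` is the basic construction of `P ⊆ M` on
`H = L²(M)`, it carries a faithful normal tracial state `⟪Ψ, θ(·) Ψ⟫`, and `θ` is a
⋆-homomorphism (injective, as the trace is faithful) that carries `M ⊆ B` onto `P' ⊆ M'`. -/
structure IsStep (P M B : VonNeumannAlgebra H) (Ω : H) (P' M' : VonNeumannAlgebra K) (Ψ : K)
    (θ : (H →L[ℂ] H) → (K →L[ℂ] K)) : Prop where
  gen : (B : Set (H →L[ℂ] H)) =
    Set.centralizer (Set.centralizer (insert (jones P Ω) (M : Set (H →L[ℂ] H))))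
  add : ∀ x ∈ B, ∀ y ∈ B, θ (x + y) = θ x + θ y
  mul : ∀ x ∈ B, ∀ y ∈ B, θ (x * y) = θ x * θ y
  smul : ∀ c : ℂ, ∀ x ∈ B, θ (c • x) = c • θ x
  star : ∀ x ∈ B, θ (star x) = star (θ x)
  trace : IsTrace B (fun x => ⟪Ψ, θ x Ψ⟫_ℂ)
  onto : ∀ y, y ∈ M' ↔ ∃ x ∈ B, θ x = y
  sub : ∀ y, y ∈ P' ↔ ∃ x ∈ M, θ x = y

/-- A finite index subfactor `N = P 0 ⊆ M = M 0` with its Jones tower `N ⊆ M ⊆ M₁ ⊆ M₂ ⊆ ⋯`:
`M k` is the factor `M_k` acting on `H k = L²(M_k)`, `P k` is the copy of `M_{k-1}` in it,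
and `θ k` identifies `B k = ⟨M_k, e⟩` with `M_{k+1}`. -/
structure Tower where
  H : ℕ → Type
  [normed : ∀ k, NormedAddCommGroup (H k)]
  [inner : ∀ k, InnerProductSpace ℂ (H k)]
  [complete : ∀ k, CompleteSpace (H k)]
  P : ∀ k, VonNeumannAlgebra (H k)
  M : ∀ k, VonNeumannAlgebra (H k)
  B : ∀ k, VonNeumannAlgebra (H k)
  Ω : ∀ k, H k
  θ : ∀ k, Op (H k) → Op (H (k + 1))
  sub : IsSubfactor (P 0) (M 0)
  std : ∀ k, IsStdII1 (M k) (Ω k)
  step : ∀ k, IsStep (P k) (M k) (B k) (Ω k) (P (k + 1)) (M (k + 1)) (Ω (k + 1)) (θ k)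

attribute [instance] Tower.normed Tower.inner Tower.complete

/-- The Jones index `[M : N] = tr(e_N)⁻¹`, with `tr` the trace of `M₁ = ⟨M, e_N⟩`. -/
noncomputable def Tower.index (T : Tower) : ℝ :=
  invTrace (T.Ω 1) (T.θ 0 (jones (T.P 0) (T.Ω 0)))

/-- The inclusion of `M` into `M_k`. -/
def Tower.up (T : Tower) (k : ℕ) (x : Op (T.H 0)) : Op (T.H k) :=
  Nat.rec (motive := fun k => Op (T.H k)) x (fun k y => T.θ k y) k

/-- The higher relative commutant `N' ∩ M_k`. -/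
def Tower.relComm (T : Tower) (k : ℕ) : Set (Op (T.H k)) :=
  commIn (T.M k) (T.up k) {x | x ∈ T.P 0}

/-- Finite depth: `sup_k dim Z(N' ∩ M_k) < ∞`. -/
def Tower.FiniteDepth (T : Tower) : Prop := ∃ D : ℕ, ∀ k, CentreDimLE (T.relComm k) D

end Pool.Agent.MP_f5ca18_al.Sub
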