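import Pool.Agent.MP_f5ca18_al.H67.Q2.Tube

set_option autoImplicit false

open CategoryTheory CategoryTheory.Limits MonoidalCategory Module
open scoped ComplexOrder

namespace Pool.Agent.MP_f5ca18_al.H67.Q2

universe u

section Free

open FreeMonoidalCategory

variable {C : Type u} [Category.{0} C] [MonoidalCategory C]

/-- powers of an object. -/
def pw (X : C) (n : ℕ) : C := projectObj (fun _ : Unit => X) (pwF n)

/-- rotation. -/
def rot (X : C) (n : ℕ) : X ⊗ pw X n ⟶ pw X n ⊗ X := projectMapAux (fun _ : Unit => X) (rotF n)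

/-- iterated rotation. -/
def com (X : C) (n k : ℕ) : pw X k ⊗ pw X n ⟶ pw X n ⊗ pw X k :=
  projectMapAux (fun _ : Unit => X) (comF n k)

lemma com_self (X : C) (n : ℕ) : com X n n = 𝟙 _ := by
  have h : (⟦comF n n⟧ : FreeMonoidalCategory.tensor (pwF n) (pwF n) ⟶
      FreeMonoidalCategory.tensor (pwF n) (pwF n)) = ⟦Hom.id _⟧ :=
    (FreeMonoidalCategory.subsingleton_hom _ _).elim _ _
  exact congrArg (projectMap (fun _ : Unit => X) _ _) h

end Free

variable {C : Type u} [Category.{0} C] [Preadditive C] [Linear ℂ C] [MonoidalCategory C]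
  [MonoidalPreadditive C] [MonoidalLinear ℂ C]

lemma tw_pow (X : C) (n : ℕ) (φ : V X) :
    ((tw X ^ n) φ).1 (𝟙_ C) ((ρ_ X).hom ≫ (λ_ X).inv) = φ.1 (pw X n) (rot X n) := by
  induction n generalizing φ with
  | zero => rfl
  | succ n ih =>
    rw [pow_succ, Module.End.mul_apply, ih, tw_apply]
    rfl

namespace Fus

variable (F : Fus C)

lemma act_rot_pow (X : C) (n k : ℕ) :
    (F.act (rot X n) : Module.End ℂ (F.E (pw X n))) ^ k = F.act (com X n k) := by
  induction k with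
  | zero => exact (F.act_unit (pw X n)).symm
  | succ k ih =>
    rw [pow_succ', ih]
    exact F.act_comp (rot X n) (com X n k)

/-- the basic element of `E 1`. -/
noncomputable def e0 : F.E (𝟙_ C) :=
  ⟨fun Y => F.tr Y ∘ₗ Linear.rightComp ℂ Y (λ_ Y).hom, by
    refine ⟨fun Y Y' h w => ?_, fun Y Z u => ?_⟩
    · simp only [LinearMap.comp_apply, Linear.rightComp_apply]
      rw [Category.assoc, F.tr_cyc]
      simp
    · simp only [LinearMap.comp_apply, Linear.rightComp_apply]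
      rw [← F.tr_whiskerRight]
      congr 1
      monoidal⟩

lemma e0_apply (Y : C) (u : Y ⟶ 𝟙_ C ⊗ Y) : F.e0.1 Y u = F.tr Y (u ≫ (λ_ Y).hom) := rfl

lemma eq_smul_e0 (φ : F.E (𝟙_ C)) : φ = φ.1 (𝟙_ C) (λ_ (𝟙_ C)).inv • F.e0 := by
  set c := φ.1 (𝟙_ C) (λ_ (𝟙_ C)).inv with hc
  have h := F.cyc_zero (fun Y => φ.1 Y ∘ₗ Linear.rightComp ℂ Y (λ_ Y).inv - c • F.tr Y)
    (by
      intro Y Y' f g
      simp only [LinearMap.sub_apply, LinearMap.comp_apply, LinearMap.smul_apply,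
        Linear.rightComp_apply]
      rw [F.tr_cyc, Category.assoc, φ.2.1]
      simp)
    (by
      intro i
      simp only [LinearMap.sub_apply, LinearMap.comp_apply, LinearMap.smul_apply,
        Linear.rightComp_apply, tr_id, smul_eq_mul]
      rw [hc, ← φ.2.2, E_iso φ (λ_ (F.S i)), sub_eq_zero]
      congr 1
      monoidal)
  apply Subtype.ext
  funext Y
  ext u
  have h2 := LinearMap.congr_fun (h Y) (u ≫ (λ_ Y).hom)
  simp only [LinearMap.sub_apply, LinearMap.comp_apply, LinearMap.smul_apply,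
    Linear.rightComp_apply, Category.assoc, Iso.hom_inv_id, Category.comp_id,
    LinearMap.zero_apply] at h2
  exact sub_eq_zero.1 h2

lemma e0_ne_zero : F.e0 ≠ 0 := by
  intro h
  have h2 : F.e0.1 (F.S F.i0) (λ_ _).inv = 0 := by rw [h]; rfl
  rw [e0_apply, Iso.inv_hom_id] at h2
  exact (F.pos F.i0).ne' h2

lemma act_zero (X : C) :
    F.act ((ρ_ X).hom ≫ (λ_ X).inv) = F.dim X • LinearMap.id := by
  have h : F.act ((ρ_ X).hom ≫ (λ_ X).inv) F.e0 = F.dim X • F.e0 := by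
    apply Subtype.ext
    funext Y
    ext u
    rw [act_apply, e0_apply]
    change _ = F.dim X * F.tr Y (u ≫ (λ_ Y).hom)
    rw [← F.tr_whiskerLeft]
    congr 1
    monoidal
  ext1 φ
  rw [F.eq_smul_e0 φ, map_smul, h, LinearMap.smul_apply, LinearMap.id_apply, smul_comm]

/-- Dimensions are cyclotomic. -/
theorem dim_mem_Kinf (X Y : C) (η : 𝟙_ C ⟶ Y ⊗ X) (ε : X ⊗ Y ⟶ 𝟙_ C)
    (hz : X ◁ η ≫ (α_ X Y X).inv ≫ ε ▷ X = (ρ_ X).hom ≫ (λ_ X).inv) : F.dim X ∈ Kinf := by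
  have := F.V_fd X
  let ev : V X →ₗ[ℂ] ℂ :=
    { toFun := fun φ => φ.1 (𝟙_ C) ((ρ_ X).hom ≫ (λ_ X).inv)
      map_add' := fun _ _ => rfl
      map_smul' := fun _ _ => rfl }
  have h := lrs_zero_mem Kinf (tw X) (tw_injective X Y η ε hz) ev
    ⟨_, F.lam_mem X⟩ (by
      intro n hn
      change ((tw X ^ n) _).1 (𝟙_ C) ((ρ_ X).hom ≫ (λ_ X).inv) ∈ Kinf
      rw [tw_pow]
      have := F.E_fd (pw X n)
      refine trace_mem_Kinf _ n hn ?_
      rw [act_rot_pow, com_self, act_id]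
      rfl)
  have hfd := F.E_fd (𝟙_ C)
  change LinearMap.trace ℂ _ (F.act ((ρ_ X).hom ≫ (λ_ X).inv)) ∈ Kinf at h
  rw [act_zero, map_smul, LinearMap.trace_id, smul_eq_mul] at h
  have hpos : 0 < finrank ℂ (F.E (𝟙_ C)) :=
    finrank_pos_iff_exists_ne_zero.2 ⟨_, F.e0_ne_zero⟩
  have hne : ((finrank ℂ (F.E (𝟙_ C)) : ℕ) : ℂ) ≠ 0 := by exact_mod_cast hpos.ne'
  have h2 := div_mem h (natCast_mem Kinf (finrank ℂ (F.E (𝟙_ C))))
  rwa [mul_div_cancel_right₀ _ hne] at h2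

end Fus

open Finset in
theorem good_of_bound (B : ℝ) : ∃ L : ℕ, ∀ (n : ℕ) (_ : Fin n) (d : Fin n → ℝ), (∀ i, 0 < d i) →
    ∀ (x : ℝ), (x : ℂ) ∈ Kinf →
    ∀ m : Fin n → Fin n → ℕ, (∀ j, x * d j = ∑ k, m j k * d k) → x ≤ B →
    ∃ L' ≤ L, Good L' x := by
  classical
  obtain ⟨k, hk⟩ := exists_nat_ge (2 * B ^ 2)
  obtain ⟨L, hL0, hL⟩ := loxton k
  refine ⟨⌊L⌋₊, fun n i0 d hd x hK m hm hB => ?_⟩
  obtain ⟨Nn, hNn, hlev⟩ := exists_level hK
  set N := 2 * Nn with hN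
  have hN0 : 0 < N := Nat.mul_pos two_pos hNn
  have : NeZero N := ⟨hN0.ne'⟩
  obtain ⟨K, _, _, _⟩ := exists_cyc N
  obtain ⟨ι⟩ : Nonempty (K →+* ℂ) := inferInstance
  obtain ⟨ξ, hιξ⟩ := hlev N (Dvd.intro_left _ rfl) K ι
  replace hιξ : ι ξ = x := hιξ
  let mz : Matrix (Fin n) (Fin n) ℤ := Matrix.of fun j k => (m j k : ℤ)
  have hev : ∀ (R : Type) [CommRing R] (y : R), Polynomial.aeval y mz.charpoly =
      (Matrix.scalar (Fin n) y - Matrix.of fun j k => (m j k : R)).det := by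
    intro R _ y
    rw [Polynomial.aeval_def, Polynomial.eval₂_eq_eval_map, ← Matrix.charpoly_map,
      Matrix.eval_charpoly]
    congr 2
    ext j k
    simp [mz]
  have hx0 : Polynomial.aeval (x : ℂ) mz.charpoly = 0 := by
    rw [hev, ← Matrix.exists_mulVec_eq_zero_iff]
    refine ⟨fun j => (d j : ℂ), fun h => (hd i0).ne' (Complex.ofReal_eq_zero.1 (congrFun h i0)), ?_⟩
    funext j
    have := congrArg (fun r : ℝ => (r : ℂ)) (hm j)
    push_cast at this
    rw [Matrix.sub_mulVec, Pi.sub_apply, Matrix.scalar_apply, Matrix.mulVec_diagonal, this]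
    simp [Matrix.mulVec, dotProduct]
  have hξ0 : Polynomial.aeval ξ mz.charpoly = 0 := by
    apply ι.injective
    rw [map_zero, ← hx0, ← hιξ]
    exact (Polynomial.aeval_algHom_apply ι.toIntAlgHom ξ _).symm
  have hhouse : ∀ τ : K →+* ℂ, ‖τ ξ‖ ≤ x := fun τ => by
    have h1 : Polynomial.aeval (τ ξ) mz.charpoly = 0 := by
      have := Polynomial.aeval_algHom_apply τ.toIntAlgHom ξ mz.charpoly
      rw [hξ0, map_zero] at this
      exact this
    rw [hev, ← Matrix.exists_mulVec_eq_zero_iff] at h1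
    obtain ⟨v, hv0, hv⟩ := h1
    obtain ⟨i1, hi1⟩ := Function.ne_iff.1 hv0
    refine house_le i1 d hd x m hm v hi1 (τ ξ) fun j => ?_
    have := congrFun hv j
    rw [Matrix.sub_mulVec, Pi.sub_apply, Matrix.scalar_apply, Matrix.mulVec_diagonal,
      Pi.zero_apply, sub_eq_zero] at this
    rw [this]
    simp [Matrix.mulVec, dotProduct]
  have hint : IsIntegral ℤ ξ := ⟨mz.charpoly, mz.charpoly_monic, hξ0⟩
  set S := cycSys N (Dvd.intro _ rfl) K ι with hS
  have hx0 : 0 ≤ x := (norm_nonneg _).trans (hhouse ι)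
  have hM : S.M ξ ≤ k / 2 := by
    rw [Sys.M, div_le_iff₀ Sys.card_pos]
    have : ∀ a, ‖S.σ a ξ‖ ^ 2 ≤ k / 2 := fun a => by
      have h1 : ‖S.σ a ξ‖ ^ 2 ≤ B ^ 2 :=
        pow_le_pow_left₀ (norm_nonneg _) ((hhouse _).trans hB) 2
      linarith
    refine (sum_le_sum fun a _ => this a).trans ?_
    simp [mul_comm]
  obtain ⟨s, hs1, hs2, hs3⟩ := hL N K S N dvd_rfl ξ (mem_Lam_of_integral N K hint) hM
  obtain ⟨l, rfl⟩ := Quotient.exists_rep s
  have hsum : ∀ τ : K →+* ℂ, τ ξ = ∑ i : Fin l.length, τ (l.get i) := by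
    intro τ
    rw [← map_sum, ← hs3]
    simp
  have hl : ∀ i : Fin l.length, l.get i ^ N = 1 := fun i => hs2 _ (by simp)
  have h1 : S.σ 1 = ι := by
    ext w
    change ι ((IsCyclotomicExtension.Rat.galEquivZMod N K).symm 1 w) = ι w
    rw [map_one, AlgEquiv.one_apply]
  refine ⟨l.length, Nat.le_floor (by simpa using hs1), N, hN0, fun i => ι (l.get i),
    fun i => by rw [← map_pow, hl, map_one], by rw [← hιξ, hsum], fun c hc => ?_⟩
  obtain ⟨a, ha⟩ := exists_ex (N := N) dvd_rfl c hc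
  refine le_trans (le_of_eq ?_) (hhouse (S.σ a))
  rw [hsum]
  congr 1
  refine sum_congr rfl fun i _ => ?_
  have := S.mul 1 a _ (hl i)
  rw [one_mul, h1] at this
  rw [this]
  exact (pow_eq_pow_of_modEq ha (by rw [← map_pow, hl, map_one])).symm

open Finset in
theorem no_acc_dim (a : ℝ) : ∃ ε : ℝ, 0 < ε ∧ ∀ (C : Type u) [Category.{0} C] [Preadditive C]
    [Linear ℂ C] [MonoidalCategory C] [MonoidalPreadditive C] [MonoidalLinear ℂ C]
    (F : Fus C) (X Y : C) (η : 𝟙_ C ⟶ Y ⊗ X) (ε' : X ⊗ Y ⟶ 𝟙_ C)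
    (_ : X ◁ η ≫ (α_ X Y X).inv ≫ ε' ▷ X = (ρ_ X).hom ≫ (λ_ X).inv) (x : ℝ),
    F.dim X = x → a < x → a + ε ≤ x := by
  obtain ⟨L, hL⟩ := good_of_bound (a + 1)
  have h := fun L' => no_acc L' a
  push Not at h
  choose e he0 he using h
  refine ⟨min 1 ((range (L + 1)).inf' ⟨0, by simp⟩ e), lt_min one_pos ?_, ?_⟩
  · rw [lt_inf'_iff]
    exact fun L' _ => he0 L'
  · intro C _ _ _ _ _ _ F X Y η ε' hz x hx hX
    by_contra hc
    push Not at hc
    have hd : ∀ i, ((F.dim (F.S i)).re : ℂ) = F.dim (F.S i) := fun i =>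
      Complex.ext rfl (Complex.pos_iff.1 (F.pos i)).2
    obtain ⟨L', hL', hg⟩ := hL F.n F.i0 (fun i => (F.dim (F.S i)).re)
      (fun i => (Complex.pos_iff.1 (F.pos i)).1) x (hx ▸ F.dim_mem_Kinf X Y η ε' hz)
      (fun j k => Module.finrank ℂ (F.S k ⟶ X ⊗ F.S j))
      (fun j => by
        apply Complex.ofReal_injective
        push_cast
        simp only [hd]
        rw [← hx, ← F.dim_eq]
        exact (F.mul X (F.S j)).symm)
      (by linarith [min_le_left 1 ((range (L + 1)).inf' ⟨0, by simp⟩ e)])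
    refine he L' _ hX (hc.trans_le ?_) hg
    have := inf'_le e (mem_range.2 (Nat.lt_succ_of_le hL'))
    linarith [min_le_right 1 ((range (L + 1)).inf' ⟨0, by simp⟩ e)]

end Pool.Agent.MP_f5ca18_al.H67.Q2
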