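import Pool.Agent.MP_f5ca18_al.H67.Q2.Tube

set_option autoImplicit false

open CategoryTheory CategoryTheory.Limits MonoidalCategory Module
open scoped ComplexOrder

namespace Pool.Agent.MP_f5ca18_al.H67.Q2

universe u

variable {C : Type u} [Category.{0} C] [Preadditive C] [Linear ℂ C]

/-- conjugation map on endomorphisms. -/
def conjL {W Y : C} (f : W ⟶ Y) (g : Y ⟶ W) : (W ⟶ W) →ₗ[ℂ] (Y ⟶ Y) where
  toFun u := g ≫ u ≫ f
  map_add' u v := by simp [Preadditive.add_comp, Preadditive.comp_add]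
  map_smul' c u := by simp

lemma finrank_lt_of_retract {W Y : C} [FiniteDimensional ℂ (Y ⟶ Y)] (f : W ⟶ Y) (g : Y ⟶ W)
    (hfg : f ≫ g = 𝟙 W) (hne : g ≫ f ≠ 𝟙 Y) :
    finrank ℂ (W ⟶ W) < finrank ℂ (Y ⟶ Y) := by
  have hinj : Function.Injective (conjL f g) := by
    intro u v huv
    have h : g ≫ u ≫ f = g ≫ v ≫ f := huv
    have h2 : f ≫ (g ≫ u ≫ f) ≫ g = f ≫ (g ≫ v ≫ f) ≫ g := by rw [h]
    simpa [hfg, reassoc_of% hfg] using h2
  rw [← LinearMap.finrank_range_of_inj hinj]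
  apply Submodule.finrank_lt
  intro htop
  have : 𝟙 Y ∈ LinearMap.range (conjL f g) := by rw [htop]; trivial
  obtain ⟨u, hu⟩ := this
  replace hu : g ≫ u ≫ f = 𝟙 Y := hu
  apply hne
  calc g ≫ f = (g ≫ u ≫ f) ≫ g ≫ f := by rw [hu, Category.id_comp]
    _ = 𝟙 Y := by rw [Category.assoc, Category.assoc, reassoc_of% hfg, hu]

/-- simple objects. -/
def Sim (S : C) : Prop := 𝟙 S ≠ 0 ∧ ∀ f : S ⟶ S, ∃ c : ℂ, f = c • 𝟙 S

lemma conj_mem_span {J : Type*} (S : J → C) {W Y : C} (f : W ⟶ Y) (g : Y ⟶ W) (u : W ⟶ W)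
    (hu : u ∈ Submodule.span ℂ (fac S W)) : g ≫ u ≫ f ∈ Submodule.span ℂ (fac S Y) := by
  have : (Submodule.span ℂ (fac S W)).map (conjL f g) ≤ Submodule.span ℂ (fac S Y) := by
    rw [Submodule.map_span, Submodule.span_le]
    rintro _ ⟨_, ⟨i, p, q, rfl⟩, rfl⟩
    exact Submodule.subset_span ⟨i, g ≫ p, q ≫ f, by simp [conjL]⟩
  exact this ⟨u, hu, rfl⟩

/-- von Neumann regular, idempotent complete categories with finite-dimensional Hom spaces. -/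
structure Reg (C : Type u) [Category.{0} C] [Preadditive C] [Linear ℂ C] : Prop where
  fd : ∀ X Y : C, FiniteDimensional ℂ (X ⟶ Y)
  reg : ∀ {X Y : C} (f : X ⟶ Y), ∃ g : Y ⟶ X, f ≫ g ≫ f = f
  split : ∀ (Y : C) (q : Y ⟶ Y), q ≫ q = q →
    ∃ (W : C) (i : W ⟶ Y) (p : Y ⟶ W), i ≫ p = 𝟙 W ∧ p ≫ i = q

namespace Reg

lemma id_mem_span (h : Reg C) (Y : C) :
    𝟙 Y ∈ Submodule.span ℂ (fac (Subtype.val : {S : C // Sim S} → C) Y) := by
  induction hm : finrank ℂ (Y ⟶ Y) using Nat.strong_induction_on generalizing Y with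
  | _ m ih =>
  have := h.fd
  by_cases h0 : 𝟙 Y = 0
  · rw [h0]; exact Submodule.zero_mem _
  by_cases hs : Sim Y
  · exact Submodule.subset_span ⟨⟨Y, hs⟩, 𝟙 Y, 𝟙 Y, by simp⟩
  have : ∃ f : Y ⟶ Y, ∀ c : ℂ, f ≠ c • 𝟙 Y := by
    by_contra hc
    push Not at hc
    exact hs ⟨h0, hc⟩
  obtain ⟨f, hf⟩ := this
  have : Nontrivial (Y ⟶ Y) := ⟨_, _, h0⟩
  obtain ⟨μ, hμ⟩ := Module.End.exists_eigenvalue (Linear.rightComp ℂ Y f)
  obtain ⟨v, hv⟩ := hμ.exists_hasEigenvector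
  have hv1 : v ≫ f = μ • v := hv.apply_eq_smul
  obtain ⟨g, hg⟩ := h.reg (f - μ • 𝟙 Y)
  set z := f - μ • 𝟙 Y with hz
  have hq : (z ≫ g) ≫ z ≫ g = z ≫ g := by rw [Category.assoc, reassoc_of% hg]
  obtain ⟨W, i, p, h1, h2⟩ := h.split Y _ hq
  obtain ⟨W', i', p', h1', h2'⟩ := h.split Y (𝟙 Y - z ≫ g) (by
    rw [Preadditive.sub_comp, Preadditive.comp_sub, Preadditive.comp_sub, hq]
    simp)
  have h3 : finrank ℂ (W ⟶ W) < m := by
    rw [← hm]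
    refine finrank_lt_of_retract i p h1 fun h4 => hv.2 ?_
    rw [← Category.comp_id v, ← h4, h2, ← Category.assoc, hz, Preadditive.comp_sub, hv1]
    simp
  have h4 : finrank ℂ (W' ⟶ W') < m := by
    rw [← hm]
    refine finrank_lt_of_retract i' p' h1' fun h4 => hf μ ?_
    rw [h2', sub_eq_self] at h4
    rw [← sub_eq_zero, ← hz, ← hg, ← Category.assoc, h4, zero_comp]
  have e : 𝟙 Y = p ≫ 𝟙 W ≫ i + p' ≫ 𝟙 W' ≫ i' := by simp [h2, h2']
  rw [e]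
  exact Submodule.add_mem _ (conj_mem_span _ i p _ (ih _ h3 W rfl))
    (conj_mem_span _ i' p' _ (ih _ h4 _ rfl))

lemma schur (h : Reg C) {S S' : C} (hS : Sim S) (hS' : Sim S') (f : S ⟶ S') (hf : f ≠ 0) :
    Nonempty (S ≅ S') := by
  obtain ⟨g, hg⟩ := h.reg f
  obtain ⟨c, hc⟩ := hS.2 (f ≫ g)
  obtain ⟨c', hc'⟩ := hS'.2 (g ≫ f)
  have h1 : (c - 1) • f = 0 := by
    rw [sub_smul, one_smul, sub_eq_zero]
    conv_rhs => rw [← hg, ← Category.assoc, hc]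
    simp
  have h2 : (c' - 1) • f = 0 := by
    rw [sub_smul, one_smul, sub_eq_zero]
    conv_rhs => rw [← hg, hc']
    simp
  rw [sub_eq_zero.1 ((smul_eq_zero.1 h1).resolve_right hf), one_smul] at hc
  rw [sub_eq_zero.1 ((smul_eq_zero.1 h2).resolve_right hf), one_smul] at hc'
  exact ⟨⟨f, g, hc, hc'⟩⟩

/-- isomorphism of simple objects. -/
def simSetoid (C : Type u) [Category.{0} C] [Preadditive C] [Linear ℂ C] :
    Setoid {S : C // Sim S} where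
  r S S' := Nonempty (S.1 ≅ S'.1)
  iseqv := ⟨fun _ => ⟨Iso.refl _⟩, fun ⟨e⟩ => ⟨e.symm⟩, fun ⟨e⟩ ⟨e'⟩ => ⟨e.trans e'⟩⟩

lemma out_zero (h : Reg C) {q q' : Quotient (simSetoid C)} (hq : q ≠ q')
    (f : q.out.1 ⟶ q'.out.1) : f = 0 := by
  by_contra hf
  exact hq (Quotient.out_equiv_out.1 (h.schur q.out.2 q'.out.2 f hf))

lemma id_mem_span' (h : Reg C) (Y : C) :
    𝟙 Y ∈ Submodule.span ℂ (fac (fun q : Quotient (simSetoid C) => q.out.1) Y) := by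
  refine Submodule.span_mono ?_ (h.id_mem_span Y)
  rintro _ ⟨S, p, r, rfl⟩
  obtain ⟨e⟩ : Nonempty ((⟦S⟧ : Quotient (simSetoid C)).out.1 ≅ S.1) :=
    Quotient.mk_out (s := simSetoid C) S
  exact ⟨⟦S⟧, p ≫ e.inv, e.hom ≫ r, by simp⟩

lemma exists_central (h : Reg C) (Y : C) : ∃ z : Quotient (simSetoid C) → (Y ⟶ Y),
    (∀ q u, z q ≫ u = u ≫ z q) ∧ (∀ q q', q ≠ q' → z q ≫ z q' = 0) ∧
    ∀ q (i : q.out.1 ⟶ Y), i ≫ z q = i := by
  classical
  let I : Quotient (simSetoid C) → Submodule ℂ (Y ⟶ Y) := fun q =>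
    Submodule.span ℂ (fac (fun _ : Unit => q.out.1) Y)
  have h1 : 𝟙 Y ∈ ⨆ q, I q := by
    refine (Submodule.span_le.2 ?_ : _ ≤ ⨆ q, I q) (h.id_mem_span' Y)
    rintro _ ⟨q, p, r, rfl⟩
    exact Submodule.mem_iSup_of_mem q (Submodule.subset_span ⟨(), p, r, rfl⟩)
  obtain ⟨z, hz, hs⟩ := (Submodule.mem_iSup_iff_exists_finsupp _ _).1 h1
  have k1 : ∀ q q', q ≠ q' → ∀ x ∈ I q', ∀ f : q.out.1 ⟶ Y, f ≫ x = 0 := by
    intro q q' hq x hx f
    induction hx using Submodule.span_induction with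
    | mem x hx =>
      obtain ⟨_, p, r, rfl⟩ := hx
      rw [← Category.assoc, h.out_zero hq (f ≫ p), zero_comp]
    | zero => simp
    | add x y _ _ hx hy => rw [Preadditive.comp_add, hx, hy, add_zero]
    | smul c x _ hx => rw [Linear.comp_smul, hx, smul_zero]
  have k2 : ∀ q q', q ≠ q' → ∀ x ∈ I q, ∀ u : Y ⟶ Y, x ≫ u ≫ z q' = 0 := by
    intro q q' hq x hx u
    induction hx using Submodule.span_induction with
    | mem x hx =>
      obtain ⟨_, p, r, rfl⟩ := hx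
      rw [Category.assoc, ← Category.assoc r, k1 q q' hq _ (hz q'), comp_zero]
    | zero => simp
    | add x y _ _ hx hy => rw [Preadditive.add_comp, hx, hy, add_zero]
    | smul c x _ hx => rw [Linear.smul_comp, hx, smul_zero]
  have k3 : ∀ {W : C} (q) (f : W ⟶ Y), (∀ q', q' ≠ q → f ≫ z q' = 0) → f ≫ z q = f := by
    intro W q f hf
    conv_rhs => rw [← Category.comp_id f, ← hs, Finsupp.sum, Preadditive.comp_sum]
    rw [Finset.sum_eq_single q (fun q' _ hq => hf q' hq)]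
    intro hq
    rw [Finsupp.notMem_support_iff.1 hq, comp_zero]
  have k4 : ∀ (q) (f : Y ⟶ Y), (∀ q', q' ≠ q → z q' ≫ f = 0) → z q ≫ f = f := by
    intro q f hf
    conv_rhs => rw [← Category.id_comp f, ← hs, Finsupp.sum, Preadditive.sum_comp]
    rw [Finset.sum_eq_single q (fun q' _ hq => hf q' hq)]
    intro hq
    rw [Finsupp.notMem_support_iff.1 hq, zero_comp]
  refine ⟨z, fun q u => ?_, fun q q' hq => ?_, fun q i => k3 q i fun q' hq => ?_⟩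
  · rw [← k3 q (z q ≫ u) fun q' hq => by rw [Category.assoc, k2 q q' hq.symm _ (hz q)],
      Category.assoc, k4 q (u ≫ z q) fun q' hq => k2 q' q hq _ (hz q') u]
  · simpa using k2 q q' hq _ (hz q) (𝟙 Y)
  · exact k1 q q' hq.symm _ (hz q') i

lemma finite (h : Reg C) (D : ℕ) (hD : ∀ (r : ℕ) (S : Fin r → C), ∃ Y : C,
    (∀ j, ∃ (i : S j ⟶ Y) (p : Y ⟶ S j), i ≫ p = 𝟙 _) ∧ ∀ z : Fin r → (Y ⟶ Y),
      (∀ j u, z j ≫ u = u ≫ z j) → LinearIndependent ℂ z → r ≤ D) :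
    Finite (Quotient (simSetoid C)) := by
  by_contra hf
  rw [not_finite_iff_infinite] at hf
  let s : Fin (D + 1) ↪ Quotient (simSetoid C) :=
    Fin.valEmbedding.trans (Infinite.natEmbedding _)
  obtain ⟨Y, h1, h2⟩ := hD (D + 1) fun j => (s j).out.1
  obtain ⟨z, z1, z2, z3⟩ := h.exists_central Y
  refine absurd (h2 (fun j => z (s j)) (fun j u => z1 _ u) ?_) (by omega)
  rw [Fintype.linearIndependent_iff]
  intro c hc j
  obtain ⟨i, p, hip⟩ := h1 j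
  have h3 := congrArg (fun u => i ≫ z (s j) ≫ u ≫ p) hc
  simp only [Preadditive.sum_comp, Preadditive.comp_sum, zero_comp, comp_zero, Linear.smul_comp,
    Linear.comp_smul] at h3
  rw [Finset.sum_eq_single j] at h3
  · rw [reassoc_of% (z3 _ i), reassoc_of% (z3 _ i), hip] at h3
    exact (smul_eq_zero.1 h3).resolve_right (s j).out.2.1
  · intro k _ hk
    rw [reassoc_of% (z2 _ _ fun h4 => hk (s.injective h4).symm)]
    simp
  · simp

lemma exists_fus [MonoidalCategory C] (h : Reg C) [Finite (Quotient (simSetoid C))]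
    (tr : ∀ Y : C, (Y ⟶ Y) →ₗ[ℂ] ℂ)
    (cyc : ∀ (Y Y' : C) (f : Y ⟶ Y') (g : Y' ⟶ Y), tr Y (f ≫ g) = tr Y' (g ≫ f))
    (mul : ∀ Y Z : C, tr (Y ⊗ Z) (𝟙 _) = tr Y (𝟙 _) * tr Z (𝟙 _))
    (pos : ∀ Y : C, 𝟙 Y ≠ 0 → 0 < tr Y (𝟙 Y)) (S0 : C) (h0 : Sim S0) :
    ∃ F : Fus C, F.tr = tr := by
  obtain ⟨n, ⟨σ⟩⟩ := Finite.exists_equiv_fin (Quotient (simSetoid C))
  refine ⟨⟨n, fun i => (σ.symm i).out.1, σ ⟦⟨S0, h0⟩⟧, h.fd, fun i => (σ.symm i).out.2.2,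
    fun i j hij => h.out_zero fun h1 => hij (σ.symm.injective h1), fun Y => ?_, tr, cyc, mul,
    fun i => pos _ (σ.symm i).out.2.1⟩, rfl⟩
  refine Submodule.span_mono ?_ (h.id_mem_span' Y)
  rintro _ ⟨q, p, r, rfl⟩
  obtain ⟨i, rfl⟩ := σ.symm.surjective q
  exact ⟨i, p, r, rfl⟩

end Reg

end Pool.Agent.MP_f5ca18_al.H67.Q2
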