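import Pool.Agent.MP_f5ca18_al.H67.Q2.Tower
import Pool.Agent.MP_f5ca18_al.H67.Q2.Semi
import Pool.Agent.MP_f5ca18_al.H67.Q2.Cyclo

set_option autoImplicit false

open CategoryTheory MonoidalCategory
open scoped ComplexOrder

namespace Pool.Agent.MP_f5ca18_al.H67.Q2

universe u

section Ret

variable {C : Type u} [Category.{0} C]

/-- retracts. -/
def Ret (Y Z : C) : Prop := ∃ (i : Y ⟶ Z) (p : Z ⟶ Y), i ≫ p = 𝟙 Y

lemma Ret.trans {X Y Z : C} (h : Ret X Y) (h' : Ret Y Z) : Ret X Z := by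
  obtain ⟨i, p, h⟩ := h
  obtain ⟨i', p', h'⟩ := h'
  exact ⟨i ≫ i', p' ≫ p, by simp [reassoc_of% h', h]⟩

lemma Ret.of_iso {X Y : C} (e : X ≅ Y) : Ret X Y := ⟨e.hom, e.inv, e.hom_inv_id⟩

lemma Ret.tensor [MonoidalCategory C] {X Y Z W : C} (h : Ret X Y) (h' : Ret Z W) :
    Ret (X ⊗ Z) (Y ⊗ W) := by
  obtain ⟨i, p, h⟩ := h
  obtain ⟨i', p', h'⟩ := h'
  exact ⟨i ⊗ₘ i', p ⊗ₘ p', by rw [tensorHom_comp_tensorHom, h, h', id_tensorHom_id]⟩

lemma Ret.fd [Preadditive C] [Linear ℂ C] {X Y Z W : C} (h : Ret X Y) (h' : Ret Z W)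
    [FiniteDimensional ℂ (Y ⟶ W)] : FiniteDimensional ℂ (X ⟶ Z) := by
  obtain ⟨i, p, h⟩ := h
  obtain ⟨i', p', h'⟩ := h'
  refine FiniteDimensional.of_injective (Linear.leftComp ℂ W p ∘ₗ Linear.rightComp ℂ X i') ?_
  intro f g hfg
  have := congrArg (fun t => i ≫ t ≫ p') hfg
  simpa [reassoc_of% h, h'] using this

lemma fd_of_zigzag [Preadditive C] [Linear ℂ C] [MonoidalCategory C] [MonoidalPreadditive C]
    [MonoidalLinear ℂ C] {X : C} (η : 𝟙_ C ⟶ X ⊗ X) (ε : X ⊗ X ⟶ 𝟙_ C)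
    (hz : X ◁ η ≫ (α_ X X X).inv ≫ ε ▷ X = (ρ_ X).hom ≫ (λ_ X).inv) (Y Z : C)
    [FiniteDimensional ℂ (Y ⟶ X ⊗ Z)] : FiniteDimensional ℂ (X ⊗ Y ⟶ Z) := by
  have hz' : X ◁ η ⊗≫ ε ▷ X = ⊗𝟙.hom := by
    calc X ◁ η ⊗≫ ε ▷ X = X ◁ η ≫ (α_ X X X).inv ≫ ε ▷ X := by monoidal
      _ = _ := by rw [hz]; monoidal
  refine FiniteDimensional.of_injective
    (Linear.leftComp ℂ _ ((λ_ Y).inv ≫ η ▷ Y ≫ (α_ X X Y).hom) ∘ₗ Fus.wL X (X ⊗ Y) Z) ?_
  have key : ∀ f : X ⊗ Y ⟶ Z, X ◁ (((λ_ Y).inv ≫ η ▷ Y ≫ (α_ X X Y).hom) ≫ X ◁ f) ≫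
      (α_ X X Z).inv ≫ ε ▷ Z ≫ (λ_ Z).hom = f := by
    intro f
    calc _ = 𝟙 _ ⊗≫ (X ◁ η) ▷ Y ⊗≫ ((X ⊗ X) ◁ f ≫ ε ▷ Z) ⊗≫ 𝟙 _ := by monoidal
      _ = 𝟙 _ ⊗≫ (X ◁ η ⊗≫ ε ▷ X) ▷ Y ⊗≫ f := by
          rw [whisker_exchange]
          monoidal
      _ = f := by
          rw [hz']
          monoidal
  intro f g hfg
  rw [← key f, ← key g]
  exact congrArg (fun t => X ◁ t ≫ _) hfg

end Ret

namespace Tw

open Obj

variable {A : ℕ → Type} [∀ j, Ring (A j)] [∀ j, Algebra ℂ (A j)] [∀ j, StarRing (A j)] (T : Tw A)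

/-- the matrix representation of the generating bimodule. -/
noncomputable def ρX : A 0 →ₗ[ℂ] Matrix (Fin T.n) (Fin T.n) (A 0) :=
  T.Ψ 0 ∘ₗ (T.up 2).toAlgHom.toLinearMap

lemma X_ρ (x : A 0) (i l : Fin T.n) : T.ρX x i l = T.E 0 (T.b i * T.ι 0 x * T.a l) :=
  T.Ψ_up 0 x i l

/-- the generating bimodule. -/
@[reducible] noncomputable def X : Obj (A 0) where
  ι := Fin T.n
  ρ := T.ρX
  mul x y := by
    change T.Ψ 0 (T.up 2 (x * y)) = _
    rw [map_mul, Ψ_mul]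
    rfl

lemma sumE (v w : A 1) : ∑ m, T.E 0 (v * T.a m) * T.E 0 (T.b m * w) = T.E 0 (v * w) := by
  conv_rhs => rw [← T.sum_a w, Finset.mul_sum, map_sum]
  simp only [← E_right, mul_assoc]

lemma ret_X : Ret (𝟙_ (Obj (A 0))) T.X := by
  refine ⟨mk' (X := unit) (Y := T.X) (Matrix.of fun i _ => T.E 0 (T.b i)) (fun x => ?_) ?_,
    mk' (X := T.X) (Y := unit) (Matrix.of fun _ l => T.E 0 (T.a l)) (fun x => ?_) ?_, hom_ext ?_⟩
  · ext i u
    have := T.sumE (T.b i * T.ι 0 x) 1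
    simp only [mul_one] at this
    simp [Matrix.mul_apply, X_ρ, this, E_right]
  · ext i u
    simp [Matrix.mul_apply]
  · ext u l
    have := T.sumE 1 (T.ι 0 x * T.a l)
    simp only [one_mul, ← mul_assoc] at this
    simp [Matrix.mul_apply, X_ρ, this, E_left]
  · ext u l
    have := T.sumE 1 (T.a l)
    simp only [one_mul] at this
    simp [Matrix.mul_apply, X_ρ, this]
  · ext u u'
    have := T.sumE 1 1
    simp only [one_mul, mul_one, E_one] at this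
    exact this

lemma η_aux (x : A 0) (i k : Fin T.n) :
    ∑ p : Fin T.n × Fin T.n, T.ρX (T.ρX x i p.1) k p.2 * T.E 0 (T.b p.2 * T.b p.1) =
      T.E 0 (T.b k * T.b i) * x := by
  simp only [Fintype.sum_prod_type, X_ρ, sumE]
  rw [← map_sum]
  simp only [mul_assoc (T.b k)]
  rw [← Finset.mul_sum, sum_b, ← E_right, mul_assoc]

/-- coevaluation. -/
noncomputable def η : 𝟙_ (Obj (A 0)) ⟶ T.X ⊗ T.X :=
  mk' (X := unit) (Y := tens T.X T.X) (Matrix.of fun p _ => T.E 0 (T.b p.2 * T.b p.1))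
    (fun x => by
      ext ⟨i, k⟩ u
      exact Eq.trans (by simp [Matrix.mul_apply]) (T.η_aux x i k).symm)
    (by ext; simp [Matrix.mul_apply])

lemma ε_aux (x : A 0) (l m : Fin T.n) :
    ∑ p : Fin T.n × Fin T.n, T.E 0 (T.a p.1 * T.a p.2) * T.ρX (T.ρX x p.1 l) p.2 m =
      x * T.E 0 (T.a l * T.a m) := by
  simp only [Fintype.sum_prod_type, X_ρ, mul_assoc (T.b _), sumE]
  rw [← map_sum]
  simp only [← mul_assoc (T.a _)]
  rw [← Finset.sum_mul, sum_a, ← E_left, mul_assoc]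

/-- evaluation. -/
noncomputable def ε : T.X ⊗ T.X ⟶ 𝟙_ (Obj (A 0)) :=
  mk' (X := tens T.X T.X) (Y := unit) (Matrix.of fun _ p => T.E 0 (T.a p.1 * T.a p.2))
    (fun x => by
      ext u ⟨l, m⟩
      exact (T.ε_aux x l m).trans (by simp [Matrix.mul_apply]))
    (by
      ext u ⟨l, m⟩
      exact (T.ε_aux 1 l m).trans (by simp))

lemma zigzag : T.X ◁ T.η ≫ (α_ T.X T.X T.X).inv ≫ T.ε ▷ T.X = (ρ_ T.X).hom ≫ (λ_ T.X).inv := by
  apply hom_ext
  rw [← Category.assoc, comp_val, whiskerRight_val]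
  have h1 : mat (T.X ◁ T.η ≫ (α_ T.X T.X T.X).inv) =
      (mat (T.X ◁ T.η)).submatrix (Equiv.prodAssoc _ _ _) id := comp_eqv _ (fun _ => rfl) _
  have h2 : mat ((ρ_ T.X).hom ≫ (λ_ T.X).inv) =
      (mat (λ_ T.X).inv).submatrix id (Equiv.prodPUnit _) := eqv_comp _ (fun _ => rfl) _
  rw [h1, h2, whiskerLeft_val]
  simp only [← Obj.comm T.η]
  ext ⟨u, r⟩ ⟨s, u'⟩
  change ∑ p : (Fin T.n × Fin T.n) × Fin T.n, T.ρX (T.E 0 (T.a p.1.1 * T.a p.1.2)) r p.2 *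
    ∑ _ : Unit, T.E 0 (T.b p.2 * T.b p.1.2) * T.ρX 1 p.1.1 s = T.ρX 1 r s
  simp only [Fintype.sum_prod_type, X_ρ, Finset.univ_unique, Finset.sum_singleton, ← mul_assoc,
    ← Finset.sum_mul, sumE, map_one, mul_one]
  simp only [← map_sum, mul_assoc (T.b r), ← Finset.mul_sum, sum_b, sumE]

/-- matrix models of the levels of the tower. -/
structure Model (j : ℕ) (Y : Obj (A 0)) where
  G : A j →ₗ[ℂ] Matrix Y.ι Y.ι (A 0)
  mul : ∀ y z, G (y * z) = G y * G z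
  up : ∀ x, G (T.up j x) = Y.ρ x
  inj : ∀ y, G y = 0 → y = 0
  surj : ∀ S, ∃ y, G y = Y.ρ 1 * S * Y.ρ 1
  c : ℂ
  c_pos : 0 < c
  tr : ∀ y, ∑ i, T.τ 0 (G y i i) = c * T.τ j y

variable {T}

lemma Model.one {j : ℕ} {Y : Obj (A 0)} (m : T.Model j Y) : m.G 1 = Y.ρ 1 := by
  rw [← m.up, map_one (T.up j)]

/-- the next model. -/
noncomputable def Model.step {j : ℕ} {Y : Obj (A 0)} (m : T.Model j Y) :
    T.Model (j + 2) (tens T.X Y) where
  G :=
    { toFun := fun y => blk fun i l => m.G (T.Ψ j y i l)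
      map_add' := fun x y => by ext; simp [blk]
      map_smul' := fun c x => by ext; simp [blk] }
  mul y z := by
    simp only [LinearMap.coe_mk, AddHom.coe_mk, blk_mul, Ψ_mul, Matrix.mul_apply, map_sum, m.mul]
  up x := by
    simp only [LinearMap.coe_mk, AddHom.coe_mk, Ψ_up, m.up, X_ρ]
  inj y hy := T.Ψ_inj j y (by
    ext i l
    refine m.inj _ ?_
    ext k k'
    exact congrFun (congrFun hy (i, k)) (l, k'))
  surj S := by
    choose t ht using fun i l => m.surj (Matrix.of fun k k' => S (i, k) (l, k'))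
    obtain ⟨y, hy⟩ := T.Ψ_surj j (Matrix.of t)
    refine ⟨y, ?_⟩
    have h1 : (tens T.X Y).ρ 1 = blk fun i l => m.G (T.Ψ j 1 i l) := by
      rw [← map_one (T.up (j + 2))]
      simp only [LinearMap.coe_mk, AddHom.coe_mk, Ψ_up, m.up, X_ρ]
    have h2 : S = blk fun i l => Matrix.of fun k k' => S (i, k) (l, k') := rfl
    rw [h1, h2, blk_mul, blk_mul]
    simp only [LinearMap.coe_mk, AddHom.coe_mk, hy, Matrix.mul_apply, map_sum, m.mul,
      Matrix.of_apply, ht, ← m.one, Matrix.sum_mul, Matrix.mul_assoc]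
    simp only [← Matrix.mul_assoc (m.G _) (m.G 1), ← m.mul, mul_one, one_mul]
  c := m.c * (T.lam j)⁻¹
  c_pos := mul_pos m.c_pos (inv_pos.2 (T.lam_pos j))
  tr y := by
    simp only [LinearMap.coe_mk, AddHom.coe_mk, blk, Matrix.of_apply, Fintype.sum_prod_type, m.tr]
    rw [← Finset.mul_sum, Ψ_tr, mul_assoc]

variable (T)

/-- powers of the generating bimodule. -/
noncomputable def xp : ℕ → Obj (A 0)
  | 0 => 𝟙_ _
  | k + 1 => T.X ⊗ xp k

/-- the models of the even levels. -/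
noncomputable def model : ∀ k, T.Model (2 * k) (T.xp k)
  | 0 =>
    { G := (unit : Obj (A 0)).ρ
      mul := unit.mul
      up := fun _ => rfl
      inj := fun _ h => congrFun (congrFun h ()) ()
      surj := fun S => ⟨S () (), by
        ext
        change S () () = ∑ _ : Unit, (∑ _ : Unit, 1 * S () ()) * 1
        simp⟩
      c := 1
      c_pos := one_pos
      tr := fun y => by
        change ∑ _ : Unit, T.τ 0 y = _
        simp }
  | k + 1 => (model k).step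

lemma ret_succ (k : ℕ) : Ret (T.xp k) (T.xp (k + 1)) :=
  (Ret.of_iso (λ_ _).symm).trans (T.ret_X.tensor (Ret.of_iso (Iso.refl _)))

lemma ret_le {k l : ℕ} (h : k ≤ l) : Ret (T.xp k) (T.xp l) := by
  induction h with
  | refl => exact Ret.of_iso (Iso.refl _)
  | step _ ih => exact ih.trans (T.ret_succ _)

lemma ret_tensor (k l : ℕ) : ∃ m, Ret (T.xp k ⊗ T.xp l) (T.xp m) := by
  induction k with
  | zero => exact ⟨l, Ret.of_iso (λ_ _)⟩
  | succ k ih =>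
    obtain ⟨m, hm⟩ := ih
    exact ⟨m + 1, (Ret.of_iso (α_ _ _ _)).trans ((Ret.of_iso (Iso.refl _)).tensor hm)⟩

include T in
lemma end_unit (f : 𝟙_ (Obj (A 0)) ⟶ 𝟙_ (Obj (A 0))) : ∃ c : ℂ, f = c • 𝟙 _ := by
  obtain ⟨c, hc⟩ := T.centre (mat f () ()) fun x => by
    have := congrFun (congrFun (Obj.comm f x) ()) ()
    change ∑ _ : Unit, mat f () () * x = ∑ _ : Unit, x * mat f () () at this
    simpa using this
  exact ⟨c, hom_ext (by ext; exact hc)⟩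

variable [∀ j, StarModule ℂ (A j)]

/-- the relative commutants. -/
def RC (j : ℕ) : StarSubalgebra ℂ (A j) := StarSubalgebra.centralizer ℂ (Set.range (T.up j))

lemma mem_RC {j : ℕ} {y : A j} : y ∈ T.RC j ↔ ∀ x, T.up j x * y = y * T.up j x := by
  rw [RC, StarSubalgebra.mem_centralizer_iff]
  refine ⟨fun h x => (h _ ⟨x, rfl⟩).1, ?_⟩
  rintro h _ ⟨x, rfl⟩
  exact ⟨h x, by rw [← map_star, h]⟩

/-- the trace on the relative commutants. -/
def τR (j : ℕ) : T.RC j →ₗ[ℂ] ℂ := T.τ j ∘ₗ (T.RC j).subtype.toAlgHom.toLinearMap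

lemma posTr (j : ℕ) : PosTr (T.τR j) :=
  ⟨fun x y => (T.tr j).comm x.1 y.1, (T.tr j).one,
    fun x hx => (T.tr j).pos x.1 fun h => hx (Subtype.ext h)⟩

variable {T}

/-- the relative commutant as an endomorphism algebra. -/
noncomputable def Model.Φ {j : ℕ} {Y : Obj (A 0)} (m : T.Model j Y) : T.RC j ≃ₗ[ℂ] (Y ⟶ Y) :=
  LinearEquiv.ofBijective
    { toFun := fun y => mk' (m.G y.1)
        (fun x => by rw [← m.up, ← m.mul, ← m.mul, T.mem_RC.1 y.2])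
        (by rw [← m.one, ← m.mul, mul_one])
      map_add' := fun x y => hom_ext (map_add m.G _ _)
      map_smul' := fun c x => hom_ext (map_smul m.G _ _) }
    ⟨(injective_iff_map_eq_zero _).2 fun y hy => Subtype.ext (m.inj y.1 (by
      have := congrArg mat hy
      exact this)), fun f => by
      obtain ⟨y, hy⟩ := m.surj (mat f)
      rw [one_mul', mul_one'] at hy
      refine ⟨⟨y, T.mem_RC.2 fun x => ?_⟩, hom_ext hy⟩
      rw [← sub_eq_zero]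
      apply m.inj
      rw [map_sub, m.mul, m.mul, m.up, hy, Obj.comm, sub_self]⟩

namespace Model

variable {j : ℕ} {Y : Obj (A 0)} (m : T.Model j Y)

lemma mat_Φ (y : T.RC j) : mat (m.Φ y) = m.G y.1 := rfl

lemma Φ_mul (y z : T.RC j) : m.Φ (y * z) = m.Φ z ≫ m.Φ y := hom_ext (m.mul _ _)

lemma tr_Φ (y : T.RC j) : trM (T.τ 0) Y (m.Φ y) = m.c * T.τR j y := m.tr _

include m in
lemma fd_unit (h : Ret (𝟙_ _) Y) : FiniteDimensional ℂ (𝟙_ _ ⟶ Y) := by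
  obtain ⟨i, p, h⟩ := h
  let L : (𝟙_ _ ⟶ Y) →ₗ[ℂ] T.RC j := m.Φ.symm.toLinearMap ∘ₗ Linear.leftComp ℂ Y p
  have hL : ∀ f, m.Φ (L f) = p ≫ f := fun f => m.Φ.apply_symm_apply _
  have hi : Function.Injective L := fun f g hfg => by
    have := congrArg (fun t => i ≫ m.Φ t) hfg
    simpa only [hL, reassoc_of% h] using this
  have := (T.posTr j).fd_corner (q := L i)
    (m.Φ.injective (by rw [Φ_mul, hL, Category.assoc, reassoc_of% h]))
    (fun v => by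
      obtain ⟨s, hs⟩ := T.end_unit (i ≫ m.Φ v ≫ p)
      refine ⟨s, m.Φ.injective ?_⟩
      rw [Φ_mul, Φ_mul, map_smul, hL]
      simp [reassoc_of% hs]) (LinearMap.range L) (by
      rintro _ ⟨f, rfl⟩
      apply m.Φ.injective
      rw [Φ_mul, hL, hL, Category.assoc, reassoc_of% h])
  exact (LinearEquiv.ofInjective L hi).symm.finiteDimensional

include m in
lemma card_le {r D : ℕ} (hD : ∀ z : Fin r → T.RC j, (∀ i y, z i * y = y * z i) →
    LinearIndependent ℂ z → r ≤ D) (z : Fin r → (Y ⟶ Y)) (h1 : ∀ i u, z i ≫ u = u ≫ z i)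
    (h2 : LinearIndependent ℂ z) : r ≤ D := by
  refine hD (fun i => m.Φ.symm (z i)) (fun i y => m.Φ.injective ?_)
    (h2.map' m.Φ.symm.toLinearMap m.Φ.symm.ker)
  rw [m.Φ_mul, m.Φ_mul, LinearEquiv.apply_symm_apply, h1]

end Model

variable (T)

lemma fd_xp (k l : ℕ) : FiniteDimensional ℂ (T.xp k ⟶ T.xp l) := by
  induction k generalizing l with
  | zero => exact (T.model l).fd_unit (T.ret_le (Nat.zero_le l))
  | succ k ih =>
    have : FiniteDimensional ℂ (T.xp k ⟶ T.X ⊗ T.xp l) := ih (l + 1)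
    exact fd_of_zigzag T.η T.ε T.zigzag _ _

lemma fd_RC (k : ℕ) : FiniteDimensional ℂ (T.RC (2 * k)) :=
  have := T.fd_xp k k
  (T.model k).Φ.symm.finiteDimensional

/-- the objects generated by the basic bimodule. -/
def P : ObjectProperty (Obj (A 0)) := fun Y => ∃ k, Ret Y (T.xp k)

instance : T.P.IsMonoidal where
  prop_unit := ⟨0, Ret.of_iso (Iso.refl _)⟩
  prop_tensor _ _ := fun ⟨k, hk⟩ ⟨l, hl⟩ =>
    (T.ret_tensor k l).imp fun _ hm => (hk.tensor hl).trans hm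

lemma reg : Reg T.P.FullSubcategory where
  fd := fun ⟨Y, k, hk⟩ ⟨Z, l, hl⟩ => by
    have := T.fd_xp k l
    have : FiniteDimensional ℂ (T.P.ι.obj ⟨Y, k, hk⟩ ⟶ T.P.ι.obj ⟨Z, l, hl⟩) := hk.fd hl
    exact FiniteDimensional.of_injective (T.P.ι.mapLinearMap ℂ) T.P.ι.map_injective
  reg := fun {Y Z} f => by
    obtain ⟨k, hk⟩ := Y.2
    obtain ⟨l, hl⟩ := Z.2
    obtain ⟨i, p, h⟩ := hk.trans (T.ret_le (le_max_left k l))
    obtain ⟨i', p', h'⟩ := hl.trans (T.ret_le (le_max_right k l))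
    have := T.fd_RC (max k l)
    set m := T.model (max k l)
    obtain ⟨y, hy⟩ := m.Φ.surjective (p ≫ f.hom ≫ i')
    obtain ⟨g, hg, -⟩ := (T.posTr _).exists_proj y
    have h1 := congrArg (fun t => i ≫ m.Φ t ≫ p') hg
    simp only [Model.Φ_mul, hy, Category.assoc, reassoc_of% h, h', Category.comp_id] at h1
    exact ⟨ObjectProperty.homMk (i' ≫ m.Φ g ≫ p), ObjectProperty.hom_ext _ (by simpa using h1)⟩
  split := fun Y q hq => by
    obtain ⟨W, i, p, h1, h2⟩ := Obj.split q.hom (congrArg (fun t => t.hom) hq)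
    exact ⟨⟨W, Y.2.imp fun _ hk => Ret.trans ⟨i, p, h1⟩ hk⟩, ObjectProperty.homMk i,
      ObjectProperty.homMk p, ObjectProperty.hom_ext _ h1, ObjectProperty.hom_ext _ h2⟩

lemma tr_pos {Y : Obj (A 0)} (hY : T.P Y) (h0 : 𝟙 Y ≠ 0) : 0 < trM (T.τ 0) Y (𝟙 Y) := by
  obtain ⟨k, i, p, h⟩ := hY
  have := T.fd_RC k
  set m := T.model k
  obtain ⟨y, hy⟩ := m.Φ.surjective (p ≫ i)
  rw [← h, trM_cyc _ (T.tr 0).comm, ← hy, m.tr_Φ]
  refine mul_pos m.c_pos ((T.posTr _).pos_idem (m.Φ.injective ?_) fun h1 => h0 ?_)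
  · rw [m.Φ_mul, hy, Category.assoc, reassoc_of% h]
  · rw [h1, map_zero] at hy
    rw [← Category.comp_id (𝟙 Y)]
    conv_lhs => rw [← h, Category.assoc, ← Category.assoc p, ← hy]
    simp

lemma tr_ρ {Z : Obj (A 0)} (hZ : T.P Z) (x : A 0) :
    ∑ k, T.τ 0 (Z.ρ x k k) = T.τ 0 x * trM (T.τ 0) Z (𝟙 Z) := by
  obtain ⟨k, i, p, h⟩ := hZ
  set m := T.model k
  obtain ⟨y, hy⟩ := m.Φ.surjective (p ≫ i)
  have h1 : Z.ρ x = mat p * ((T.xp k).ρ x * mat i) := by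
    rw [← Obj.comm, ← Matrix.mul_assoc, ← comp_val, h, id_val, one_mul_ρ]
  rw [h1, tr_mul_comm _ (T.tr 0).comm, Matrix.mul_assoc, ← comp_val, ← h,
    trM_cyc _ (T.tr 0).comm, ← hy, m.tr_Φ, m.mat_Φ, ← m.up, ← m.mul, m.tr,
    T.τ_up_mul _ _ (T.mem_RC.1 y.2), mul_left_comm]
  rfl

universe v

theorem main (a : ℝ) : ∃ ε : ℝ, 0 < ε ∧ ∀ (A : ℕ → Type) [∀ j, Ring (A j)] [∀ j, Algebra ℂ (A j)]
    [∀ j, StarRing (A j)] [∀ j, StarModule ℂ (A j)] (T : Tw A) (D : ℕ),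
    (∀ (j r : ℕ) (z : Fin r → T.RC (j + 1)), (∀ i y, z i * y = y * z i) →
      LinearIndependent ℂ z → r ≤ D) → ∀ x : ℝ, (T.lam 0)⁻¹ = x → a < x → a + ε ≤ x := by
  obtain ⟨ε, hε, h⟩ := no_acc_dim.{1} a
  refine ⟨ε, hε, fun A _ _ _ _ T D hD x hx => ?_⟩
  have := T.reg.finite D fun r S => by
    choose k hk using fun j => (S j).2
    let K := Finset.univ.sup k + 1
    refine ⟨⟨T.xp K, K, Ret.of_iso (Iso.refl _)⟩, fun j => ?_, fun z h1 h2 => ?_⟩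
    · obtain ⟨i, p, h⟩ := (hk j).trans (T.ret_le (l := K)
        (Nat.le_succ_of_le (Finset.le_sup (Finset.mem_univ j))))
      exact ⟨ObjectProperty.homMk i, ObjectProperty.homMk p, ObjectProperty.hom_ext _ h⟩
    · exact (T.model K).card_le (hD (2 * Finset.univ.sup k + 1) r) (fun j => (z j).hom)
        (fun j u => congrArg (fun t => t.hom) (h1 j (ObjectProperty.homMk u)))
        (h2.map' (T.P.ι.mapLinearMap ℂ) (LinearMap.ker_eq_bot.2 T.P.ι.map_injective))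
  obtain ⟨F, hF⟩ := T.reg.exists_fus (fun Y => trM (T.τ 0) Y.1 ∘ₗ T.P.ι.mapLinearMap ℂ)
    (fun Y Y' f g => trM_cyc _ (T.tr 0).comm f.hom g.hom)
    (fun Y Z => by
      change ∑ p : Y.1.ι × Z.1.ι, T.τ 0 (Z.1.ρ (Y.1.ρ 1 p.1 p.1) p.2 p.2) =
        (∑ i, T.τ 0 (Y.1.ρ 1 i i)) * trM (T.τ 0) Z.1 (𝟙 _)
      simp only [Fintype.sum_prod_type, T.tr_ρ Z.2, Finset.sum_mul])
    (fun Y h0 => T.tr_pos Y.2 fun h1 => h0 (ObjectProperty.hom_ext _ h1)) (𝟙_ _)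
    ⟨fun h0 => by
      have h1 : (1 : A 0) = 0 :=
        congrArg (fun t : 𝟙_ T.P.FullSubcategory ⟶ 𝟙_ _ => mat t.hom () ()) h0
      have h2 := (T.tr 0).one
      rw [h1, map_zero] at h2
      exact zero_ne_one h2,
    fun f => (T.end_unit f.hom).imp fun c hc => ObjectProperty.hom_ext _ hc⟩
  let X : T.P.FullSubcategory := ⟨T.X, 1, Ret.of_iso (ρ_ _).symm⟩
  refine h _ F X X (ObjectProperty.homMk T.η) (ObjectProperty.homMk T.ε)
    (ObjectProperty.hom_ext _ T.zigzag) x ?_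
  rw [Fus.dim, hF, ← hx]
  change ∑ i, T.τ 0 (T.Ψ 0 (T.up 2 1) i i) = _
  rw [Ψ_tr, map_one, (T.tr _).one, mul_one]

end Tw

end Pool.Agent.MP_f5ca18_al.H67.Q2
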