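import Pool.Agent.MP_f5ca18_al.H67.Q2.Basic
import Pool.Agent.MP_f5ca18_al.H67.Q2.Model
import Pool.Agent.MP_f5ca18_al.H67.Q2.Defs

set_option autoImplicit false

namespace Pool.Agent.MP_f5ca18_al.H67.Q2

open Filter Topology Pool.Agent.MP_755d6b_an.H98 Pool.Agent.MP_82452b_an.H8
  Pool.Agent.MP_82452b_an.H78
open scoped ComplexOrder InnerProductSpace

section Step

variable {H : Type} [NormedAddCommGroup H] [InnerProductSpace ℂ H] [CompleteSpace H]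
  {K : Type} [NormedAddCommGroup K] [InnerProductSpace ℂ K] [CompleteSpace K]
  {P M B : VonNeumannAlgebra H} {Ω : H} {P' M' : VonNeumannAlgebra K} {Ψ : K}
  {θ : (H →L[ℂ] H) → (K →L[ℂ] K)}

theorem toTrace {τ : (H →L[ℂ] H) → ℂ} (h : Sub.IsTrace M τ) : IsTrace M τ :=
  ⟨h.add, h.smul, h.unital, h.positive, h.tracial, h.faithful, h.normal⟩

theorem toSF (h : Sub.IsStdII1 M Ω) : IsSF M Ω :=
  IsStdII1.isSF ⟨⟨toTrace h.trace, h.factor, h.infinite⟩, h.cyclic⟩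

variable (h : Sub.IsStep P M B Ω P' M' Ψ θ)
include h

theorem mem_B {z : H →L[ℂ] H} :
    z ∈ B ↔ z ∈ Set.centralizer (Set.centralizer (insert (cycProj P Ω) (M : Set (H →L[ℂ] H)))) :=
  Set.ext_iff.1 h.gen z

theorem le_B (x : H →L[ℂ] H) (hx : x ∈ M) : x ∈ B :=
  (mem_B h).2 (Set.subset_centralizer_centralizer (Set.mem_insert_of_mem _ hx))

theorem e_B : cycProj P Ω ∈ B :=
  (mem_B h).2 (Set.subset_centralizer_centralizer (Set.mem_insert _ _))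

theorem R_comm {R : (H →L[ℂ] H) → (H →L[ℂ] H)} (hR : IsR M Ω R) (hP : ∀ x ∈ P, x ∈ M)
    {z : H →L[ℂ] H} (hz : z ∈ B) : ∀ p ∈ P, R p * z = z * R p := fun p hp =>
  (mem_B h).1 hz _ (by
    rintro m (rfl | hm)
    · exact hR.cyc_comm hP hp
    · exact VonNeumannAlgebra.mem_commutant_iff.1 (hR.mem p (hP p hp)) m hm)

theorem θ_M {z : H →L[ℂ] H} (hz : z ∈ B) : θ z ∈ M' := (h.onto _).2 ⟨z, hz, rfl⟩

theorem θ_P {z : H →L[ℂ] H} (hz : z ∈ M) : θ z ∈ P' := (h.sub _).2 ⟨z, hz, rfl⟩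

theorem le' (y : K →L[ℂ] K) (hy : y ∈ P') : y ∈ M' := by
  obtain ⟨x, hx, rfl⟩ := (h.sub y).1 hy
  exact θ_M h (le_B h x hx)

theorem θ_one : θ 1 = 1 := by
  obtain ⟨x, hx, h1⟩ := (h.onto 1).1 (one_mem M')
  have := h.mul 1 (one_mem B) x hx
  rwa [one_mul, h1, mul_one, eq_comm] at this

theorem θ_zero : θ 0 = 0 := by simpa using h.smul 0 0 (zero_mem B)

theorem θ_inj {x y : H →L[ℂ] H} (hx : x ∈ B) (hy : y ∈ B) (e : θ x = θ y) : x = y := by
  have h1 := h.add _ (sub_mem hx hy) y hy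
  rw [sub_add_cancel, e, right_eq_add] at h1
  refine sub_eq_zero.1 (h.trace.faithful _ (sub_mem hx hy) ?_)
  simp [h.mul _ (star_mem (sub_mem hx hy)) _ (sub_mem hx hy), h1, -star_sub]

theorem factor' (hf : Sub.IsFactor M) : Sub.IsFactor P' := by
  intro z hz hc
  obtain ⟨x, hx, rfl⟩ := (h.sub z).1 hz
  obtain ⟨c, rfl⟩ := hf x hx fun y hy => θ_inj h (le_B h _ (mul_mem hx hy)) (le_B h _ (mul_mem hy hx))
    (by rw [h.mul _ (le_B h _ hx) _ (le_B h _ hy), h.mul _ (le_B h _ hy) _ (le_B h _ hx),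
      hc _ (θ_P h hy)])
  exact ⟨c, by rw [h.smul c 1 (one_mem B), θ_one h]⟩

theorem tr_θ (hM : Sub.IsStdII1 M Ω) {x : H →L[ℂ] H} (hx : x ∈ M) : ⟪Ψ, θ x Ψ⟫_ℂ = ⟪Ω, x Ω⟫_ℂ := by
  have := tr_mul (toSF hM) (toTrace h.trace) (le_B h) (fun _ hx => hx) hM.factor (one_mem B)
    (fun u _ => by simp) hx
  rw [mul_one] at this
  rw [this, h.trace.unital, mul_one]

theorem tr_e (hM : Sub.IsStdII1 M Ω) (hP : ∀ x ∈ P, x ∈ M) (hf : Sub.IsFactor P)
    {z : H →L[ℂ] H} (hz : z ∈ B) :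
    ⟪Ψ, θ (z * cycProj P Ω) Ψ⟫_ℂ = ⟪Ψ, θ (cycProj P Ω) Ψ⟫_ℂ * ⟪Ω, z Ω⟫_ℂ := by
  obtain ⟨R, r1, r2, r3, r4, r5⟩ := (toSF hM).exists_R
  have hR : IsR M Ω R := ⟨toSF hM, r1, r2, r3, r4, r5⟩
  exact tr_mul_e hR hP (toTrace h.trace) (le_B h) (e_B h) hf hz (R_comm h hR hP hz)

theorem e_ne (hM : Sub.IsStdII1 M Ω) : θ (cycProj P Ω) ≠ 0 := fun h0 => by
  have h1 := θ_inj h (e_B h) (zero_mem B) (by rw [h0, θ_zero h])
  have h2 : cycProj P Ω Ω = Ω := cyc_one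
  have h3 := (toSF hM).tv.norm_one
  rw [h1, zero_apply] at h2
  rw [← h2, norm_zero] at h3
  exact zero_ne_one h3

theorem θ_e_star : star (θ (cycProj P Ω)) = θ (cycProj P Ω) := by
  rw [← h.star _ (e_B h), cyc_star]

theorem θ_e_mul : θ (cycProj P Ω) * θ (cycProj P Ω) = θ (cycProj P Ω) := by
  rw [← h.mul _ (e_B h) _ (e_B h), cyc_mul]

theorem lam_pos (hM : Sub.IsStdII1 M Ω) (hM' : Sub.IsStdII1 M' Ψ) :
    0 < ⟪Ψ, θ (cycProj P Ω) Ψ⟫_ℂ := by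
  have := vecState_star_mul Ψ (θ (cycProj P Ω)) (θ (cycProj P Ω))
  rw [θ_e_star h, θ_e_mul h, vecState_apply] at this
  rw [this, inner_self_eq_norm_sq_to_K]
  exact pow_pos (Complex.zero_lt_real.2 (norm_pos_iff.2 fun h0 =>
    e_ne h hM ((toSF hM').tv.sep _ (θ_M h (e_B h)) h0))) 2

theorem pull (hM : Sub.IsStdII1 M Ω) (hM' : Sub.IsStdII1 M' Ψ) (hP : ∀ x ∈ P, x ∈ M)
    (hf : Sub.IsFactor P) {z : H →L[ℂ] H} (hz : z ∈ B) :
    ∃ m ∈ M, z * cycProj P Ω = m * cycProj P Ω := by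
  obtain ⟨R, r1, r2, r3, r4, r5⟩ := (toSF hM).exists_R
  have hR : IsR M Ω R := ⟨toSF hM, r1, r2, r3, r4, r5⟩
  have hze := mul_mem hz (e_B h)
  obtain ⟨y', hy', e⟩ := exists_cond (toSF hM') (le' h) (θ_M h hze)
  obtain ⟨m, hm, rfl⟩ := (h.sub y').1 hy'
  have hl := (lam_pos h hM hM').ne'
  refine ⟨_, smul_mem_vN (⟪Ψ, θ (cycProj P Ω) Ψ⟫_ℂ)⁻¹ hm,
    compress hR hP (R_comm h hR hP hz) (smul_mem_vN _ hm) ?_⟩
  refine ext_inner_left ℂ fun ζ => (toSF hM).induction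
    (p := fun ζ => ⟪ζ, ((⟪Ψ, θ (cycProj P Ω) Ψ⟫_ℂ)⁻¹ • m) Ω⟫_ℂ = ⟪ζ, z Ω⟫_ℂ)
    (isClosed_eq (by fun_prop) (by fun_prop)) (fun y hy => ?_) ζ
  have hyB := star_mem (le_B h y hy)
  have h1 := tr_e h hM hP hf (mul_mem hyB hz)
  rw [mul_assoc, h.mul _ hyB _ hze, h.star _ (le_B h y hy), mul_apply_eq_comp, inner_apply_star,
    ← cyc_apply (θ_P h hy), ← cyc_star, inner_star_apply, ← e, ← inner_apply_star,
    ← mul_apply_eq_comp, ← h.star _ (le_B h y hy), ← h.mul _ hyB _ (le_B h m hm),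
    tr_θ h hM (mul_mem (star_mem hy) hm), mul_apply_eq_comp, mul_apply_eq_comp, inner_apply_star,
    inner_apply_star] at h1
  rw [smul_apply, inner_smul_right, h1, inv_mul_cancel_left₀ hl]

/-- the inclusion as a homomorphism. -/
noncomputable def hom {Q : VonNeumannAlgebra H} (hP : ∀ x ∈ Q, x ∈ M) :
    Q.toStarSubalgebra →⋆ₐ[ℂ] P'.toStarSubalgebra where
  toFun x := ⟨θ x.1, θ_P h (hP _ x.2)⟩
  map_one' := Subtype.ext (θ_one h)
  map_mul' x y := Subtype.ext (h.mul _ (le_B h _ (hP _ x.2)) _ (le_B h _ (hP _ y.2)))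
  map_zero' := Subtype.ext (θ_zero h)
  map_add' x y := Subtype.ext (h.add _ (le_B h _ (hP _ x.2)) _ (le_B h _ (hP _ y.2)))
  commutes' c := Subtype.ext (by
    change θ (algebraMap ℂ _ c) = algebraMap ℂ _ c
    rw [Algebra.algebraMap_eq_smul_one, Algebra.algebraMap_eq_smul_one, h.smul c 1 (one_mem B),
      θ_one h])
  map_star' x := Subtype.ext (h.star _ (le_B h _ (hP _ x.2)))

end Step

variable (T : Sub.Tower)

theorem le (k : ℕ) : ∀ x ∈ T.P k, x ∈ T.M k := by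
  cases k with
  | zero => exact T.sub.le
  | succ k => exact le' (T.step k)

theorem factor (k : ℕ) : Sub.IsFactor (T.P k) := by
  cases k with
  | zero => exact T.sub.factor
  | succ k => exact factor' (T.step k) (T.std k).factor

theorem lift2 (j : ℕ) (z : (T.P (j + 2)).toStarSubalgebra) :
    ∃ w ∈ T.B j, T.θ (j + 1) (T.θ j w) = z.1 := by
  obtain ⟨y, hy, e⟩ := ((T.step (j + 1)).sub z.1).1 z.2
  obtain ⟨w, hw, rfl⟩ := ((T.step j).onto y).1 hy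
  exact ⟨w, hw, e⟩

theorem mul2 (j : ℕ) {x y : T.H j →L[ℂ] T.H j} (hx : x ∈ T.B j) (hy : y ∈ T.B j) :
    T.θ (j + 1) (T.θ j x) * T.θ (j + 1) (T.θ j y) = T.θ (j + 1) (T.θ j (x * y)) := by
  rw [(T.step j).mul _ hx _ hy, (T.step (j + 1)).mul _ (le_B (T.step _) _ (θ_M (T.step j) hx)) _
    (le_B (T.step _) _ (θ_M (T.step j) hy))]

/-- the algebraic tower. -/
noncomputable def toTw : Tw fun j => (T.P j).toStarSubalgebra where
  ι j := hom (T.step j) (le T j)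
  τ j := vecState (T.Ω j) ∘ₗ (T.P j).toStarSubalgebra.subtype.toAlgHom.toLinearMap
  tr j := ⟨fun x y => (T.std j).trace.tracial _ (le T j _ x.2) _ (le T j _ y.2),
    (T.std j).trace.unital, fun x hx => by
      change 0 < vecState (T.Ω j) (star x.1 * x.1)
      rw [vecState_star_mul, inner_self_eq_norm_sq_to_K]
      exact pow_pos (Complex.zero_lt_real.2 (norm_pos_iff.2 fun h0 =>
        hx (Subtype.ext ((toSF (T.std j)).tv.sep _ (le T j _ x.2) h0)))) 2⟩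
  τ_ι j x := tr_θ (T.step j) (T.std j) (le T j _ x.2)
  e j := ⟨T.θ (j + 1) (T.θ j (cycProj (T.P j) (T.Ω j))),
    θ_P (T.step _) (θ_M (T.step j) (e_B (T.step j)))⟩
  e_star j := Subtype.ext (by
    change star (T.θ (j + 1) _) = T.θ (j + 1) _
    rw [← (T.step (j + 1)).star _ (le_B (T.step _) _ (θ_M (T.step j) (e_B (T.step j)))),
      θ_e_star (T.step j)])
  e_mul j := Subtype.ext ((mul2 T j (e_B (T.step j)) (e_B (T.step j))).trans (by rw [cyc_mul]))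
  e_comm j x := Subtype.ext (by
    have hx := le_B (T.step j) _ (le T j _ x.2)
    refine (mul2 T j (e_B (T.step j)) hx).trans (Eq.trans ?_ (mul2 T j hx (e_B (T.step j))).symm)
    rw [cyc_comm_mem x.2])
  cond j := fun ⟨y, hy⟩ => by
    obtain ⟨m, hm, rfl⟩ := ((T.step j).sub y).1 hy
    obtain ⟨R, r1, r2, r3, r4, r5⟩ := (toSF (T.std j)).exists_R
    obtain ⟨n, hn, -, e⟩ := cond ⟨toSF (T.std j), r1, r2, r3, r4, r5⟩ (le T j) hm
    have he := e_B (T.step j)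
    have hmB := le_B (T.step j) _ hm
    refine ⟨⟨n, hn⟩, Subtype.ext ?_⟩
    change T.θ _ (T.θ _ _) * T.θ _ (T.θ _ m) * T.θ _ (T.θ _ _) = T.θ _ (T.θ _ n) * T.θ _ (T.θ _ _)
    rw [mul2 T j he hmB, mul2 T j (mul_mem he hmB) he, e,
      mul2 T j (le_B (T.step j) _ (le T j _ hn)) he]
  pull j z := by
    obtain ⟨w, hw, e⟩ := lift2 T j z
    obtain ⟨m, hm, e2⟩ := pull (T.step j) (T.std j) (T.std _) (le T j) (factor T j) hw
    have he := e_B (T.step j)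
    refine ⟨⟨_, θ_P (T.step j) hm⟩, Subtype.ext ?_⟩
    change z.1 * T.θ _ (T.θ _ _) = T.θ _ (T.θ _ m) * T.θ _ (T.θ _ _)
    rw [← e, mul2 T j hw he, e2, mul2 T j (le_B (T.step j) _ hm) he]
  lam j := ⟪T.Ω (j + 1), T.θ j (cycProj (T.P j) (T.Ω j)) (T.Ω (j + 1))⟫_ℂ
  lam_pos j := lam_pos (T.step j) (T.std j) (T.std _)
  markov j := fun ⟨y, hy⟩ => by
    obtain ⟨m, hm, rfl⟩ := ((T.step j).sub y).1 hy
    have he := e_B (T.step j)
    have hmB := le_B (T.step j) _ hm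
    change ⟪T.Ω (j + 2), (T.θ (j + 1) (T.θ j m) * T.θ (j + 1) (T.θ j (cycProj (T.P j) (T.Ω j))))
      (T.Ω (j + 2))⟫_ℂ = _ * ⟪T.Ω (j + 1), T.θ j m (T.Ω (j + 1))⟫_ℂ
    rw [mul2 T j hmB he, tr_θ (T.step _) (T.std _) (θ_M (T.step j) (mul_mem hmB he)),
      tr_e (T.step j) (T.std j) (le T j) (factor T j) hmB, tr_θ (T.step j) (T.std j) hm]
  full j := by
    have he := θ_M (T.step j) (e_B (T.step j))
    obtain ⟨n, α, β, h1, h2, h3⟩ := full (toSF (T.std (j + 1))) (T.std _).factor he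
      (θ_e_star (T.step j)) (θ_e_mul (T.step j)) (e_ne (T.step j) (T.std j))
    refine ⟨n, fun i => ⟨_, θ_P (T.step _) (h1 i)⟩, fun i => ⟨_, θ_P (T.step _) (h2 i)⟩, ?_⟩
    have h4 := congrArg (hom (T.step (j + 1)) (Q := T.M (j + 1)) fun _ hx => hx)
      (show ∑ i, (⟨α i, h1 i⟩ * ⟨_, he⟩ * ⟨β i, h2 i⟩ : (T.M (j + 1)).toStarSubalgebra) = 1 from
        Subtype.ext (by simpa using h3))
    rw [map_sum, map_one] at h4
    simp only [map_mul] at h4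
    exact h4
  centre z hz := by
    obtain ⟨c, hc⟩ := T.sub.factor z.1 z.2 fun x hx => congrArg Subtype.val (hz ⟨x, hx⟩)
    exact ⟨c, Subtype.ext hc⟩

theorem up_val (j : ℕ) (x : (T.P 0).toStarSubalgebra) : ((toTw T).up j x).1 = T.up j x.1 := by
  induction j with
  | zero => rfl
  | succ j ih => exact congrArg (T.θ j) ih

theorem bound (D : ℕ) (hD : ∀ k, Sub.CentreDimLE (T.relComm k) D) (j r : ℕ)
    (z : Fin r → (toTw T).RC (j + 1)) (h1 : ∀ i y, z i * y = y * z i)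
    (h2 : LinearIndependent ℂ z) : r ≤ D := by
  let φ := hom (T.step j) (Q := T.M j) fun _ hx => hx
  have hi : Function.Injective φ := fun x y e => Subtype.ext
    (θ_inj (T.step j) (le_B (T.step j) _ x.2) (le_B (T.step j) _ y.2) (congrArg Subtype.val e))
  have hs : Function.Surjective φ := fun y => by
    obtain ⟨x, hx, e⟩ := ((T.step j).sub y.1).1 y.2
    exact ⟨⟨x, hx⟩, Subtype.ext e⟩
  have key : ∀ m : (T.M j).toStarSubalgebra, m.1 ∈ T.relComm j ↔ φ m ∈ (toTw T).RC (j + 1) := by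
    intro m
    have k1 : ∀ x : (T.P 0).toStarSubalgebra,
        (toTw T).up (j + 1) x = φ ⟨_, le T j _ ((toTw T).up j x).2⟩ := fun x => rfl
    rw [Tw.mem_RC]
    simp only [k1, ← map_mul, hi.eq_iff]
    refine ⟨fun hm x => Subtype.ext (hm.2 _ ⟨x.1, x.2, (up_val T j x).symm⟩), fun hm => ⟨m.2, ?_⟩⟩
    rintro _ ⟨x, hx, rfl⟩
    rw [← up_val T j ⟨x, hx⟩]
    exact congrArg Subtype.val (hm ⟨x, hx⟩)
  choose m hm using fun i => hs (z i).1
  refine hD j r (fun i => (m i).1) (fun i => ⟨(key _).2 (hm i ▸ (z i).2), fun y hy => ?_⟩) ?_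
  · have h3 := congrArg Subtype.val (h1 i ⟨φ ⟨y, hy.1⟩, (key _).1 hy⟩)
    simp only [MulMemClass.coe_mul, ← hm, ← map_mul, hi.eq_iff] at h3
    exact (congrArg Subtype.val h3).symm
  · have h3 : LinearIndependent ℂ (φ.toAlgHom.toLinearMap ∘ m) := by
      have : φ.toAlgHom.toLinearMap ∘ m =
          ((toTw T).RC (j + 1)).subtype.toAlgHom.toLinearMap ∘ z := funext hm
      rw [this]
      exact h2.map' _ (LinearMap.ker_eq_bot.2 Subtype.val_injective)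
    exact (LinearIndependent.of_comp _ h3).map'
      (T.M j).toStarSubalgebra.subtype.toAlgHom.toLinearMap
      (LinearMap.ker_eq_bot.2 Subtype.val_injective)

theorem final (a : ℝ) : ∃ ε : ℝ, 0 < ε ∧
    ∀ T : Sub.Tower, T.FiniteDepth → T.index ∉ Set.Ioo a (a + ε) := by
  obtain ⟨ε, hε, h⟩ := Tw.main a
  refine ⟨ε, hε, fun T ⟨D, hD⟩ hT => ?_⟩
  refine absurd (h _ (toTw T) D (bound T D hD) T.index ?_ hT.1) (not_le.2 hT.2)
  have h1 := Complex.pos_iff.1 ((toTw T).lam_pos 0)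
  rw [Sub.Tower.index, Sub.invTrace, Complex.ofReal_inv]
  congr 1
  exact Complex.ext rfl h1.2.symm

end Pool.Agent.MP_f5ca18_al.H67.Q2
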