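import Pool.Agent.MP_82452b_an.H78.Goldman

set_option autoImplicit false

namespace Pool.Agent.MP_f5ca18_al.H67.Q2

open Filter Topology Pool.Agent.MP_755d6b_an.H98 Pool.Agent.MP_82452b_an.H8
  Pool.Agent.MP_82452b_an.H78
open scoped ComplexOrder InnerProductSpace

variable {H : Type} [NormedAddCommGroup H] [InnerProductSpace ℂ H] [CompleteSpace H]
  {M : VonNeumannAlgebra H} {Ω : H}

theorem prime (h : IsSF M Ω)
    (hf : ∀ z ∈ M, (∀ x ∈ M, z * x = x * z) → ∃ c : ℂ, z = c • (1 : H →L[ℂ] H))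
    {a c : H →L[ℂ] H} (ha : a ∈ M) (hc : c ∈ M) (h0 : ∀ b ∈ M, a * b * c = 0) :
    a = 0 ∨ c = 0 := by
  obtain ⟨ν, -, hlim⟩ := dixmier h (fun _ hx => hx) hf (mul_mem hc (star_mem hc))
  have h1 := (a.continuous.tendsto _).comp hlim
  have h2 : ∀ n, a (avg (ν n) (fun u : unitary M.toStarSubalgebra =>
      (u.1 : H →L[ℂ] H) * (c * star c) * star (u.1 : H →L[ℂ] H)) Ω) = 0 := by
    intro n
    rw [← mul_apply_eq_comp]
    have := map_avg (LinearMap.mulLeft ℂ a) (ν n) (fun u : unitary M.toStarSubalgebra =>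
      (u.1 : H →L[ℂ] H) * (c * star c) * star (u.1 : H →L[ℂ] H))
    simp only [LinearMap.mulLeft_apply, ← mul_assoc, h0 _ (Subtype.mem _), zero_mul] at this
    simp only [← mul_assoc]
    rw [this]
    simp [avg]
  simp only [Function.comp_def, h2] at h1
  have h3 := tendsto_nhds_unique tendsto_const_nhds h1
  rw [map_smul, eq_comm, smul_eq_zero] at h3
  refine h3.symm.imp (h.tv.sep a ha) fun h4 => ?_
  rw [← star_eq_zero]
  exact h.tv.isTrace.faithful _ (star_mem hc) (by rw [star_star]; exact h4)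

theorem norm_defect {x : H →L[ℂ] H} (hx : ‖x‖ ≤ 1) (ξ : H) :
    ‖(1 - star x * x) ξ‖ ^ 2 ≤ ‖ξ‖ ^ 2 - ‖x ξ‖ ^ 2 := by
  have h1 : ‖(star x) (x ξ)‖ ≤ ‖x ξ‖ :=
    ((star x).le_opNorm _).trans (mul_le_of_le_one_left (norm_nonneg _) (by rwa [norm_star]))
  rw [sub_apply, one_apply_eq_self, mul_apply_eq_comp, @norm_sub_sq ℂ, inner_apply_star,
    inner_self_eq_norm_sq]
  nlinarith [norm_nonneg ((star x) (x ξ))]

theorem norm_perturb {x b : H →L[ℂ] H} (hx : ‖x‖ ≤ 1) (hb : ‖b‖ ≤ 1) :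
    ‖x + (1 / 2 : ℂ) • ((1 - x * star x) * b * (1 - star x * x))‖ ≤ 1 := by
  refine ContinuousLinearMap.opNorm_le_of_unit_norm zero_le_one fun ξ hξ => ?_
  set η := (x + (1 / 2 : ℂ) • ((1 - x * star x) * b * (1 - star x * x))) ξ with hη
  have h1 := norm_defect hx ξ
  have h2 := norm_defect (x := star x) (by rwa [norm_star]) η
  rw [star_star] at h2
  have h3 : ‖⟪η, x ξ⟫_ℂ‖ ≤ ‖η‖ * ‖x ξ‖ := norm_inner_le_norm _ _
  have h4 : ‖⟪η, x ξ⟫_ℂ‖ ≤ ‖(star x) η‖ := by
    rw [← inner_star_apply]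
    simpa [hξ] using norm_inner_le_norm (𝕜 := ℂ) ((star x) η) ξ
  have h5 : ‖⟪η, ((1 - x * star x) * b * (1 - star x * x)) ξ⟫_ℂ‖ ≤
      ‖(1 - x * star x) η‖ * ‖(1 - star x * x) ξ‖ := by
    rw [mul_apply_eq_comp, mul_apply_eq_comp, ← inner_star_apply, star_sub, star_one, star_mul,
      star_star]
    refine (norm_inner_le_norm _ _).trans (mul_le_mul_of_nonneg_left ?_ (norm_nonneg _))
    exact (b.le_opNorm _).trans (mul_le_of_le_one_left (norm_nonneg _) hb)
  have h6 : ‖η‖ ^ 2 ≤ ‖⟪η, x ξ⟫_ℂ‖ +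
      1 / 2 * ‖⟪η, ((1 - x * star x) * b * (1 - star x * x)) ξ⟫_ℂ‖ := by
    have : ‖η‖ ^ 2 = ‖⟪η, η⟫_ℂ‖ := by rw [inner_self_eq_norm_sq_to_K]; simp
    rw [this]
    conv_lhs => enter [1, 3]; rw [hη, add_apply, smul_apply]
    rw [inner_add_right, inner_smul_right]
    refine (norm_add_le _ _).trans (le_of_eq ?_)
    rw [norm_mul, show ‖(1 / 2 : ℂ)‖ = 1 / 2 by norm_num]
  have h7 : ‖(star x) η‖ ≤ ‖η‖ :=
    ((star x).le_opNorm _).trans (mul_le_of_le_one_left (norm_nonneg _) (by rwa [norm_star]))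
  have h8 : ‖x ξ‖ ≤ 1 := (x.le_opNorm _).trans (by rw [hξ, mul_one]; exact hx)
  rw [hξ] at h1
  by_contra hA
  push Not at hA
  generalize ‖η‖ = A at *
  generalize ‖(star x) η‖ = s at *
  generalize ‖⟪η, x ξ⟫_ℂ‖ = m at *
  generalize ‖⟪η, ((1 - x * star x) * b * (1 - star x * x)) ξ⟫_ℂ‖ = w at *
  generalize ‖x ξ‖ = t at *
  generalize ‖(1 - x * star x) η‖ = u at *
  generalize ‖(1 - star x * x) ξ‖ = v at *
  have k1 : A * w ≤ (u ^ 2 + A ^ 2 * v ^ 2) / 2 := by nlinarith [sq_nonneg (u - A * v)]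
  have k2 : u ^ 2 ≤ 2 * A * (A - s) := by nlinarith
  have k3 : A ^ 2 * v ^ 2 ≤ A ^ 2 * (2 * (1 - t)) :=
    mul_le_mul_of_nonneg_left (by nlinarith) (sq_nonneg A)
  have k4 : A * w ≤ A * (2 * A - s - A * t) := by nlinarith
  have k5 : w ≤ 2 * A - s - A * t := le_of_mul_le_mul_left k4 (by linarith)
  nlinarith

theorem exists_extreme {r e : H →L[ℂ] H} (hr : star r = r) : ∃ x ∈ M, ‖x‖ ≤ 1 ∧ r * x * e = x ∧
    ∀ d ∈ M, r * d * e = d → ‖x + d‖ ≤ 1 → ‖x - d‖ ≤ 1 → d = 0 := by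
  let Φ : (H →L[ℂ] H) → (H → H → ℂ) := fun x η ξ => ⟪η, x ξ⟫_ℂ
  let C : Set (H → H → ℂ) := {φ | (∀ η η' ξ, φ (η + η') ξ = φ η ξ + φ η' ξ) ∧
    (∀ (c : ℂ) η ξ, φ (c • η) ξ = (starRingEnd ℂ) c • φ η ξ) ∧
    (∀ η ξ ξ', φ η (ξ + ξ') = φ η ξ + φ η ξ') ∧
    (∀ (c : ℂ) η ξ, φ η (c • ξ) = (RingHom.id ℂ) c • φ η ξ) ∧
    (∀ η ξ, ‖φ η ξ‖ ≤ 1 * ‖η‖ * ‖ξ‖) ∧
    (∀ y ∈ M.commutant, ∀ η ξ, φ η (y ξ) = φ ((star y) η) ξ) ∧ ∀ η ξ, φ (r η) (e ξ) = φ η ξ}
  have hcl : IsClosed C := by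
    simp only [C, Set.setOf_and, Set.setOf_forall]
    refine IsClosed.inter ?_ (IsClosed.inter ?_ (IsClosed.inter ?_ (IsClosed.inter ?_
      (IsClosed.inter ?_ (IsClosed.inter ?_ ?_))))) <;>
    · repeat refine isClosed_iInter fun _ => ?_
      first
        | exact isClosed_eq (by fun_prop) (by fun_prop)
        | exact isClosed_le (by fun_prop) (by fun_prop)
  have hcomp : IsCompact C := by
    refine (isCompact_univ_pi fun η : H => isCompact_univ_pi fun ξ : H =>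
      isCompact_closedBall (0 : ℂ) (1 * ‖η‖ * ‖ξ‖)).of_isClosed_subset hcl ?_
    intro φ hφ η _ ξ _
    simpa using hφ.2.2.2.2.1 η ξ
  have hΦ : ∀ x ∈ M, ‖x‖ ≤ 1 → r * x * e = x → Φ x ∈ C := by
    intro x hx h1 h2
    refine ⟨fun _ _ _ => inner_add_left _ _ _, fun _ _ _ => inner_smul_left _ _ _,
      fun _ _ _ => by simp [Φ], fun _ _ _ => by simp [Φ], fun η ξ => ?_, fun y hy η ξ => ?_,
      fun η ξ => ?_⟩
    · refine (norm_inner_le_norm _ _).trans ?_
      rw [one_mul]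
      exact mul_le_mul_of_nonneg_left
        ((x.le_opNorm _).trans (mul_le_of_le_one_left (norm_nonneg _) h1)) (norm_nonneg _)
    · simp only [Φ]
      rw [inner_star_apply, ← mul_apply_eq_comp, VonNeumannAlgebra.mem_commutant_iff.1 hy x hx,
        mul_apply_eq_comp]
    · simp only [Φ]
      conv_rhs => rw [← h2, mul_apply_eq_comp, mul_apply_eq_comp, ← inner_star_apply, hr]
  obtain ⟨φ, hφ, hext⟩ := hcomp.extremePoints_nonempty ⟨_, hΦ 0 (zero_mem M) (by simp) (by simp)⟩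
  obtain ⟨c1, c2, c3, c4, c5, c6, c7⟩ := hφ
  let Bf : H →L⋆[ℂ] H →L[ℂ] ℂ :=
    (LinearMap.mk₂'ₛₗ (starRingEnd ℂ) (RingHom.id ℂ) φ c1 c2 c3 c4).mkContinuous₂ 1 c5
  let x := star (InnerProductSpace.continuousLinearMapOfBilin Bf)
  have hx : ∀ η ξ, ⟪η, x ξ⟫_ℂ = φ η ξ := fun η ξ => by
    rw [inner_apply_star, InnerProductSpace.continuousLinearMapOfBilin_apply]
    rfl
  have hxM : x ∈ M := by
    rw [← M.commutant_commutant, VonNeumannAlgebra.mem_commutant_iff]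
    intro y hy
    ext ξ
    refine ext_inner_left ℂ fun η => ?_
    rw [mul_apply_eq_comp, mul_apply_eq_comp, hx, c6 y hy, ← hx, inner_star_apply]
  have hx2 : r * x * e = x := by
    ext ξ
    refine ext_inner_left ℂ fun η => ?_
    rw [mul_apply_eq_comp, mul_apply_eq_comp, ← inner_star_apply, hr, hx, c7, hx]
  refine ⟨x, hxM, ?_, hx2, fun d hd h1 h2 h3 => ?_⟩
  · refine ContinuousLinearMap.opNorm_le_bound _ zero_le_one fun ξ => ?_
    have := c5 (x ξ) ξ
    rw [← hx, inner_self_eq_norm_sq_to_K] at this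
    simp only [Complex.coe_algebraMap, norm_pow, Complex.norm_real, norm_norm] at this
    rcases (norm_nonneg (x ξ)).eq_or_lt with h | h
    · rw [← h]; positivity
    · nlinarith
  · have h4 := hext (hΦ _ (add_mem hxM hd) h2 (by rw [mul_add, add_mul, hx2, h1]))
      (hΦ _ (sub_mem hxM hd) h3 (by rw [mul_sub, sub_mul, hx2, h1]))
      ⟨1 / 2, 1 / 2, by norm_num, by norm_num, by norm_num, by
        funext η ξ
        simp only [Φ, Pi.add_apply, Pi.smul_apply, add_apply, sub_apply, inner_add_right,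
          inner_sub_right, hx, Complex.real_smul]
        push_cast
        ring⟩
    ext ξ
    refine ext_inner_left ℂ fun η => ?_
    have h5 := congrFun (congrFun h4 η) ξ
    simp only [Φ, add_apply, inner_add_right, hx] at h5
    simpa using h5

theorem compare (h : IsSF M Ω)
    (hf : ∀ z ∈ M, (∀ x ∈ M, z * x = x * z) → ∃ c : ℂ, z = c • (1 : H →L[ℂ] H))
    {r e : H →L[ℂ] H} (hr : r ∈ M) (he : e ∈ M) (r1 : star r = r) (r2 : r * r = r)
    (e1 : star e = e) (e2 : e * e = e) :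
    ∃ x ∈ M, r * x = x ∧ x * e = x ∧ (r = x * star x ∨ e = star x * x) := by
  obtain ⟨x, hx, h1, h2, h3⟩ := exists_extreme (M := M) (e := e) r1
  have x1 : r * x = x := by rw [← h2, ← mul_assoc, ← mul_assoc, r2]
  have x2 : x * e = x := by rw [← h2, mul_assoc, e2]
  have x3 : star x * r = star x := by rw [← r1, ← star_mul, x1]
  have x4 : e * star x = star x := by rw [← e1, ← star_mul, x2]
  have np : ∀ p : H →L[ℂ] H, star p = p → p * p = p → ‖p‖ ≤ 1 := fun p p1 p2 => by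
    have := CStarRing.norm_star_mul_self (x := p)
    rw [p1, p2] at this
    nlinarith [norm_nonneg p]
  refine ⟨x, hx, x1, x2, (prime h hf (sub_mem hr (mul_mem hx (star_mem hx)))
    (sub_mem he (mul_mem (star_mem hx) hx)) fun b hb => ?_).imp sub_eq_zero.1 sub_eq_zero.1⟩
  have key : ∀ b ∈ M, ‖b‖ ≤ 1 → (r - x * star x) * b * (e - star x * x) = 0 := by
    intro b hb hb1
    have a1 : (1 - x * star x) * r = r - x * star x := by rw [sub_mul, one_mul, mul_assoc, x3]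
    have a2 : e * (1 - star x * x) = e - star x * x := by rw [mul_sub, mul_one, ← mul_assoc, x4]
    have a3 : ‖r * b * e‖ ≤ 1 := (norm_mul_le _ _).trans (mul_le_one₀ ((norm_mul_le _ _).trans
      (mul_le_one₀ (np r r1 r2) (norm_nonneg _) hb1)) (norm_nonneg _) (np e e1 e2))
    have a4 : (1 - x * star x) * (r * b * e) * (1 - star x * x) =
        (r - x * star x) * b * (e - star x * x) := by
      rw [← a1, ← a2]; simp only [mul_assoc]
    have a5 := norm_perturb h1 a3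
    have a6 := norm_perturb h1 (b := -(r * b * e)) (by rwa [norm_neg])
    rw [mul_neg, neg_mul, smul_neg, ← sub_eq_add_neg] at a6
    rw [a4] at a5 a6
    have a7 := h3 _ (smul_mem_vN _ (mul_mem (mul_mem (sub_mem hr (mul_mem hx (star_mem hx))) hb)
      (sub_mem he (mul_mem (star_mem hx) hx)))) (by
        rw [mul_smul_comm, smul_mul_assoc, ← mul_assoc, ← mul_assoc, mul_assoc _ _ e, mul_sub r,
          r2, ← mul_assoc r, x1, sub_mul e, e2, mul_assoc (star x), x2]) a5 a6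
    simpa using a7
  have hpos : 0 < ‖b‖ + 1 := by positivity
  have := key _ (smul_mem_vN (((‖b‖ + 1)⁻¹ : ℝ) : ℂ) hb) (by
    rw [norm_smul, Complex.norm_real, Real.norm_of_nonneg (by positivity), inv_mul_le_iff₀ hpos]
    linarith)
  rw [mul_smul_comm, smul_mul_assoc, smul_eq_zero] at this
  exact this.resolve_left (Complex.ofReal_ne_zero.2 (inv_ne_zero hpos.ne'))

theorem full (h : IsSF M Ω)
    (hf : ∀ z ∈ M, (∀ x ∈ M, z * x = x * z) → ∃ c : ℂ, z = c • (1 : H →L[ℂ] H))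
    {e : H →L[ℂ] H} (he : e ∈ M) (e1 : star e = e) (e2 : e * e = e) (e0 : e ≠ 0) :
    ∃ (n : ℕ) (α β : Fin n → H →L[ℂ] H), (∀ i, α i ∈ M) ∧ (∀ i, β i ∈ M) ∧
      ∑ i, α i * e * β i = 1 := by
  have tp : ∀ p : H →L[ℂ] H, star p = p → p * p = p → (vecState Ω p).re = ‖p Ω‖ ^ 2 := by
    intro p p1 p2
    have := vecState_star_mul Ω p p
    rw [p1, p2] at this
    rw [this]
    exact inner_self_eq_norm_sq (𝕜 := ℂ) _
  have hl : 0 < (vecState Ω e).re := by
    rw [tp e e1 e2]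
    exact pow_pos (norm_pos_iff.2 fun h0 => e0 (h.tv.sep e he h0)) 2
  have key : ∀ m : ℕ, ∀ r ∈ M, star r = r → r * r = r →
      (vecState Ω r).re < m * (vecState Ω e).re → ∃ (n : ℕ) (α β : Fin n → H →L[ℂ] H),
      (∀ i, α i ∈ M) ∧ (∀ i, β i ∈ M) ∧ ∑ i, α i * e * β i = r := by
    intro m
    induction m with
    | zero =>
      intro r _ r1 r2 hr
      rw [tp r r1 r2] at hr
      simp only [Nat.cast_zero, zero_mul] at hr
      exact absurd hr (not_lt.2 (sq_nonneg _))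
    | succ m ih =>
      intro r hr r1 r2 ht
      obtain ⟨x, hx, x1, x2, h1 | h1⟩ := compare h hf hr he r1 r2 e1 e2
      · exact ⟨1, fun _ => x, fun _ => star x, fun _ => hx, fun _ => star_mem hx, by simp [x2, ← h1]⟩
      · have x3 : star x * r = star x := by rw [← r1, ← star_mul, x1]
        obtain ⟨n, α, β, h2, h3, h4⟩ := ih (r - x * star x) (sub_mem hr (mul_mem hx (star_mem hx)))
          (by rw [star_sub, r1, star_mul, star_star])
          (by
            rw [sub_mul, mul_sub, mul_sub, r2, ← mul_assoc r, x1, mul_assoc x _ r, x3,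
              mul_assoc x, ← mul_assoc (star x), ← h1, ← mul_assoc, x2, sub_self, sub_zero])
          (by
            rw [map_sub, h.tv.isTrace.tracial x hx _ (star_mem hx), ← h1, Complex.sub_re]
            push_cast at ht
            linarith)
        refine ⟨n + 1, Fin.cons x α, Fin.cons (star x) β, fun i => ?_, fun i => ?_, ?_⟩
        · refine Fin.cases hx h2 i
        · refine Fin.cases (star_mem hx) h3 i
        · simp [Fin.sum_univ_succ, h4, x2]
  obtain ⟨m, hm⟩ := exists_nat_gt ((vecState Ω 1).re / (vecState Ω e).re)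
  exact key m 1 (one_mem M) (star_one _) (one_mul _) ((div_lt_iff₀ hl).1 hm)

end Pool.Agent.MP_f5ca18_al.H67.Q2
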