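import Mathlib

set_option autoImplicit false

open CategoryTheory MonoidalCategory Matrix

namespace Pool.Agent.MP_f5ca18_al.H67.Q2

/-- A bimodule that is finitely generated projective on the right, as a matrix representation. -/
structure Obj (R : Type) [Ring R] [Algebra ℂ R] where
  ι : Type
  [fin : Fintype ι]
  ρ : R →ₗ[ℂ] Matrix ι ι R
  mul : ∀ x y, ρ (x * y) = ρ x * ρ y

attribute [instance] Obj.fin

variable {R : Type} [Ring R] [Algebra ℂ R]

namespace Obj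

/-- intertwiners. -/
def Hom (X Y : Obj R) : Submodule ℂ (Matrix Y.ι X.ι R) where
  carrier := {T | (∀ x, T * X.ρ x = Y.ρ x * T) ∧ T * X.ρ 1 = T}
  add_mem' := by
    rintro S T ⟨h1, h2⟩ ⟨h3, h4⟩
    exact ⟨fun x => by rw [Matrix.add_mul, Matrix.mul_add, h1, h3], by rw [Matrix.add_mul, h2, h4]⟩
  zero_mem' := ⟨fun x => by simp, by simp⟩
  smul_mem' := by
    rintro c T ⟨h1, h2⟩
    exact ⟨fun x => by rw [Matrix.smul_mul, Matrix.mul_smul, h1], by rw [Matrix.smul_mul, h2]⟩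

lemma one_mul_ρ (X : Obj R) (x : R) : X.ρ 1 * X.ρ x = X.ρ x := by rw [← X.mul, one_mul]

lemma ρ_mul_one (X : Obj R) (x : R) : X.ρ x * X.ρ 1 = X.ρ x := by rw [← X.mul, mul_one]

instance : Category.{0} (Obj R) where
  Hom X Y := Hom X Y
  id X := ⟨X.ρ 1, fun x => by rw [one_mul_ρ, ρ_mul_one], X.ρ_mul_one 1⟩
  comp f g := ⟨g.1 * f.1, fun x => by
    rw [Matrix.mul_assoc, f.2.1, ← Matrix.mul_assoc, g.2.1, Matrix.mul_assoc], by
    rw [Matrix.mul_assoc, f.2.2]⟩
  id_comp f := Subtype.ext f.2.2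
  comp_id f := Subtype.ext (by change _ * f.1 = f.1; rw [← f.2.1, f.2.2])
  assoc f g h := Subtype.ext (Matrix.mul_assoc _ _ _).symm

variable {W X Y Z : Obj R}

/-- the matrix of a morphism. -/
def mat (f : X ⟶ Y) : Matrix Y.ι X.ι R := f.1

/-- the morphism given by a matrix. -/
def mk' (T : Matrix Y.ι X.ι R) (h1 : ∀ x, T * X.ρ x = Y.ρ x * T) (h2 : T * X.ρ 1 = T) : X ⟶ Y :=
  ⟨T, h1, h2⟩

lemma mat_mk' (T : Matrix Y.ι X.ι R) (h1 : ∀ x, T * X.ρ x = Y.ρ x * T) (h2 : T * X.ρ 1 = T) :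
    mat (mk' T h1 h2) = T := rfl

lemma hom_ext {f g : X ⟶ Y} (h : mat f = mat g) : f = g := Subtype.ext h

lemma comp_val (f : X ⟶ Y) (g : Y ⟶ Z) : mat (f ≫ g) = mat g * mat f := rfl

lemma id_val (X : Obj R) : mat (𝟙 X) = X.ρ 1 := rfl

lemma comm (f : X ⟶ Y) (x : R) : mat f * X.ρ x = Y.ρ x * mat f := f.2.1 x

lemma mul_one' (f : X ⟶ Y) : mat f * X.ρ 1 = mat f := f.2.2

lemma one_mul' (f : X ⟶ Y) : Y.ρ 1 * mat f = mat f := by rw [← comm, mul_one']

instance : Preadditive (Obj R) where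
  homGroup X Y := inferInstanceAs (AddCommGroup (Hom X Y))
  add_comp _ _ _ _ _ _ := hom_ext (Matrix.mul_add _ _ _)
  comp_add _ _ _ _ _ _ := hom_ext (Matrix.add_mul _ _ _)

instance : Linear ℂ (Obj R) where
  homModule X Y := inferInstanceAs (Module ℂ (Hom X Y))
  smul_comp _ _ _ _ _ _ := hom_ext (Matrix.mul_smul _ _ _)
  comp_smul _ _ _ _ _ _ := hom_ext (Matrix.smul_mul _ _ _)

lemma add_val (f g : X ⟶ Y) : mat (f + g) = mat f + mat g := rfl

lemma smul_val (c : ℂ) (f : X ⟶ Y) : mat (c • f) = c • mat f := rfl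

lemma zero_val : mat (0 : X ⟶ Y) = 0 := rfl

/-- block matrices. -/
def blk {a b c d : Type} (F : a → b → Matrix c d R) : Matrix (a × c) (b × d) R :=
  Matrix.of fun p q => F p.1 q.1 p.2 q.2

omit [Algebra ℂ R] in
lemma blk_mul {a b c d e f : Type} [Fintype b] [Fintype d] (F : a → b → Matrix c d R)
    (G : b → e → Matrix d f R) : blk F * blk G = blk fun i m => ∑ j, F i j * G j m := by
  ext p q
  simp only [blk, Matrix.mul_apply, Matrix.of_apply, Fintype.sum_prod_type, Matrix.sum_apply]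

lemma blk_mul_blk {a b e : Type} [Fintype b] (T : Matrix a b R) (S : Matrix b e R)
    (g : Y ⟶ Z) (g' : X ⟶ Y) :
    (blk fun i j => Z.ρ (T i j) * mat g) * (blk fun i j => Y.ρ (S i j) * mat g') =
      blk fun i j => Z.ρ ((T * S) i j) * (mat g * mat g') := by
  rw [blk_mul]
  congr 1
  funext i m
  rw [Matrix.mul_apply, map_sum, Matrix.sum_mul]
  refine Finset.sum_congr rfl fun j _ => ?_
  rw [Z.mul, Matrix.mul_assoc, ← Matrix.mul_assoc (mat g), comm g, Matrix.mul_assoc,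
    Matrix.mul_assoc]

/-- tensor product of objects. -/
@[reducible] def tens (X Y : Obj R) : Obj R where
  ι := X.ι × Y.ι
  ρ :=
    { toFun := fun x => blk fun i j => Y.ρ (X.ρ x i j)
      map_add' := fun x y => by ext p q; simp [blk]
      map_smul' := fun c x => by ext p q; simp [blk] }
  mul x y := by
    simp only [LinearMap.coe_mk, AddHom.coe_mk, blk_mul, X.mul, Matrix.mul_apply, map_sum, Y.mul]

lemma tens_ρ (X Y : Obj R) (x : R) : (tens X Y).ρ x = blk fun i j => Y.ρ (X.ρ x i j) := rfl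

lemma tens_ρ' (X Y : Obj R) (x : R) :
    (tens X Y).ρ x = blk fun i j => Y.ρ (X.ρ x i j) * mat (𝟙 Y) := by
  simp only [id_val, ρ_mul_one]
  rfl

/-- tensor product of morphisms. -/
def tensH (f : W ⟶ X) (g : Y ⟶ Z) : tens W Y ⟶ tens X Z :=
  mk' (blk fun i j => Z.ρ (mat f i j) * mat g) (fun x => by
    rw [tens_ρ', tens_ρ', blk_mul_blk, blk_mul_blk, comm f, id_val, id_val, mul_one', one_mul']) (by
    rw [tens_ρ', blk_mul_blk, id_val, mul_one', mul_one'])

lemma tensH_val (f : W ⟶ X) (g : Y ⟶ Z) :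
    mat (tensH f g) = blk fun i j => Z.ρ (mat f i j) * mat g := rfl

/-- the unit object. -/
@[reducible] def unit : Obj R where
  ι := Unit
  ρ :=
    { toFun := fun x => Matrix.of fun _ _ => x
      map_add' := fun _ _ => rfl
      map_smul' := fun _ _ => rfl }
  mul x y := by ext; simp [Matrix.mul_apply]

omit [Algebra ℂ R] in
lemma mul_sub_id {a b c d : Type} [Fintype b] (S : Matrix a b R) (T : Matrix b c R) (σ : d → c) :
    S * T.submatrix id σ = (S * T).submatrix id σ := by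
  ext; simp [Matrix.mul_apply]

omit [Algebra ℂ R] in
lemma sub_id_mul {a b c d : Type} [Fintype b] (S : Matrix a b R) (T : Matrix b c R) (σ : d → a) :
    S.submatrix σ id * T = (S * T).submatrix σ id := by
  ext; simp [Matrix.mul_apply]

/-- reindexing morphisms. -/
def eqv (σ : X.ι ≃ Y.ι) (h : ∀ x, X.ρ x = (Y.ρ x).submatrix σ σ) : X ⟶ Y :=
  mk' ((Y.ρ 1).submatrix id σ) (fun x => by
    rw [h, Matrix.submatrix_mul_equiv, one_mul_ρ, mul_sub_id, ρ_mul_one]) (by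
    rw [h, Matrix.submatrix_mul_equiv, one_mul_ρ])

lemma eqv_val (σ : X.ι ≃ Y.ι) (h : ∀ x, X.ρ x = (Y.ρ x).submatrix σ σ) :
    mat (eqv σ h) = (Y.ρ 1).submatrix id σ := rfl

lemma eqv_comp (σ : X.ι ≃ Y.ι) (h : ∀ x, X.ρ x = (Y.ρ x).submatrix σ σ) (g : Y ⟶ Z) :
    mat (eqv σ h ≫ g) = (mat g).submatrix id σ := by
  rw [comp_val, eqv_val, mul_sub_id, mul_one']

lemma comp_eqv (σ : X.ι ≃ Y.ι) (h : ∀ x, X.ρ x = (Y.ρ x).submatrix σ σ) (f : W ⟶ X) :
    mat (f ≫ eqv σ h) = (mat f).submatrix σ.symm id := by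
  have h1 : (Y.ρ 1).submatrix id σ = (X.ρ 1).submatrix σ.symm id := by
    rw [h]; ext; simp
  rw [comp_val, eqv_val, h1, sub_id_mul, one_mul']

/-- reindexing isomorphisms. -/
def eqvIso (σ : X.ι ≃ Y.ι) (h : ∀ x, X.ρ x = (Y.ρ x).submatrix σ σ) : X ≅ Y where
  hom := eqv σ h
  inv := eqv σ.symm fun x => by rw [h]; ext; simp
  hom_inv_id := hom_ext (by rw [eqv_comp]; ext; simp [eqv_val, id_val])
  inv_hom_id := hom_ext (by rw [eqv_comp]; ext; simp [eqv_val, id_val])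

instance : MonoidalCategoryStruct (Obj R) where
  tensorObj := tens
  whiskerLeft X _ _ g := tensH (𝟙 X) g
  whiskerRight f Y := tensH f (𝟙 Y)
  tensorHom := tensH
  tensorUnit := unit
  associator _ _ _ := eqvIso (Equiv.prodAssoc _ _ _) fun _ => rfl
  leftUnitor _ := eqvIso (Equiv.punitProd _) fun _ => rfl
  rightUnitor _ := eqvIso (Equiv.prodPUnit _) fun _ => rfl

lemma α_hom (X Y Z : Obj R) :
    (α_ X Y Z).hom = eqv (Equiv.prodAssoc _ _ _) fun _ => rfl := rfl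

lemma l_hom (X : Obj R) : (λ_ X).hom = eqv (Equiv.punitProd _) fun _ => rfl := rfl

lemma r_hom (X : Obj R) : (ρ_ X).hom = eqv (Equiv.prodPUnit _) fun _ => rfl := rfl

lemma tensH_id_right (f : W ⟶ X) (Y : Obj R) :
    mat (tensH f (𝟙 Y)) = blk fun i j => Y.ρ (mat f i j) := by
  simp only [tensH_val, id_val, ρ_mul_one]

lemma id_tensH_eqv (σ : X.ι ≃ Y.ι) (h : ∀ x, X.ρ x = (Y.ρ x).submatrix σ σ) (W : Obj R) :
    tensH (𝟙 W) (eqv σ h) = eqv (X := tens W X) (Y := tens W Y) ((Equiv.refl _).prodCongr σ)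
      fun x => by simp only [tens_ρ, h]; rfl := by
  apply hom_ext
  simp only [tensH_val, eqv_val, mul_sub_id, ρ_mul_one]
  rfl

lemma eqv_tensH_id (σ : X.ι ≃ Y.ι) (h : ∀ x, X.ρ x = (Y.ρ x).submatrix σ σ) (W : Obj R) :
    tensH (eqv σ h) (𝟙 W) = eqv (X := tens X W) (Y := tens Y W) (σ.prodCongr (Equiv.refl _))
      fun x => by simp only [tens_ρ, h]; rfl := by
  apply hom_ext
  rw [tensH_id_right]
  rfl

instance : MonoidalCategory (Obj R) := MonoidalCategory.ofTensorHom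
  (id_tensorHom_id := fun X Y => hom_ext (tensH_id_right _ _))
  (id_tensorHom := fun _ _ _ _ => rfl)
  (tensorHom_id := fun _ _ => rfl)
  (tensorHom_comp_tensorHom := fun f₁ f₂ g₁ g₂ => hom_ext (blk_mul_blk _ _ _ _))
  (associator_naturality := fun {_ _ _ _ Y₂ Y₃} f₁ f₂ f₃ => hom_ext (by
    refine (comp_eqv _ (fun _ => rfl) _).trans (Eq.trans ?_ (eqv_comp _ (fun _ => rfl) _).symm)
    ext p q
    change (Y₃.ρ ((Y₂.ρ (mat f₁ p.1 q.1.1) * mat f₂) p.2.1 q.1.2) * mat f₃) p.2.2 q.2 =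
      ((tens Y₂ Y₃).ρ (mat f₁ p.1 q.1.1) *
        blk (fun i j => Y₃.ρ (mat f₂ i j) * mat f₃)) p.2 (q.1.2, q.2)
    rw [tens_ρ', blk_mul_blk, id_val, one_mul']
    rfl))
  (leftUnitor_naturality := fun {_ Y} f => hom_ext (by
    refine (comp_eqv _ (fun _ => rfl) _).trans (Eq.trans ?_ (eqv_comp _ (fun _ => rfl) _).symm)
    ext p q
    exact congrFun (congrFun (one_mul' f) p) q.2))
  (rightUnitor_naturality := fun {_ Y} f => hom_ext (by
    refine (comp_eqv _ (fun _ => rfl) _).trans (Eq.trans ?_ (eqv_comp _ (fun _ => rfl) _).symm)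
    exact congrArg (fun T => Matrix.submatrix T _ id) (tensH_id_right f unit)))
  (pentagon := fun W X Y Z => by
    have e1 := eqv_tensH_id (X := tens (tens W X) Y) (Y := tens W (tens X Y))
      (Equiv.prodAssoc _ _ _) (fun _ => rfl) Z
    have e2 := id_tensH_eqv (X := tens (tens X Y) Z) (Y := tens X (tens Y Z))
      (Equiv.prodAssoc _ _ _) (fun _ => rfl) W
    refine (congrArg₂ (fun a b => a ≫ (α_ W (tens X Y) Z).hom ≫ b) e1 e2).trans (hom_ext ?_)
    refine (eqv_comp _ _ _).trans (Eq.trans ?_ (eqv_comp _ (fun _ => rfl) _).symm)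
    exact congrArg (fun T => Matrix.submatrix T id _) (eqv_comp _ (fun _ => rfl) _))
  (triangle := fun X Y => by
    have e1 := eqv_tensH_id (X := tens X unit) (Y := X) (Equiv.prodPUnit _) (fun _ => rfl) Y
    have e2 := id_tensH_eqv (X := tens unit Y) (Y := Y) (Equiv.punitProd _) (fun _ => rfl) X
    refine (congrArg (fun b => (α_ X unit Y).hom ≫ b) e2).trans (Eq.trans (hom_ext ?_) e1.symm)
    exact eqv_comp _ (fun _ => rfl) _)

lemma whiskerLeft_val (X : Obj R) (g : Y ⟶ Z) :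
    mat (X ◁ g) = blk fun i j => Z.ρ (X.ρ 1 i j) * mat g := rfl

lemma whiskerRight_val (f : W ⟶ X) (Y : Obj R) : mat (f ▷ Y) = blk fun i j => Y.ρ (mat f i j) :=
  tensH_id_right f Y

instance : MonoidalPreadditive (Obj R) where
  whiskerLeft_zero := hom_ext (by
    simp only [whiskerLeft_val, zero_val, Matrix.mul_zero]; rfl)
  zero_whiskerRight := hom_ext (by
    simp only [whiskerRight_val, zero_val, Matrix.zero_apply, map_zero]; rfl)
  whiskerLeft_add f g := hom_ext (by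
    simp only [whiskerLeft_val, add_val, Matrix.mul_add]; rfl)
  add_whiskerRight f g := hom_ext (by
    simp only [whiskerRight_val, add_val, Matrix.add_apply, map_add]; rfl)

instance : MonoidalLinear ℂ (Obj R) where
  whiskerLeft_smul X _ _ c f := hom_ext (by
    simp only [whiskerLeft_val, smul_val, Matrix.mul_smul]; rfl)
  smul_whiskerRight c _ _ f X := hom_ext (by
    simp only [whiskerRight_val, smul_val, Matrix.smul_apply, map_smul]; rfl)

/-- splitting of idempotents. -/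
lemma split (q : Y ⟶ Y) (hq : q ≫ q = q) :
    ∃ (W : Obj R) (i : W ⟶ Y) (p : Y ⟶ W), i ≫ p = 𝟙 W ∧ p ≫ i = q := by
  have h : mat q * mat q = mat q := congrArg mat hq
  let W : Obj R :=
    { ι := Y.ι
      ρ := (LinearMap.mulRight ℂ (mat q)) ∘ₗ Y.ρ
      mul := fun x y => by
        simp only [LinearMap.comp_apply, LinearMap.mulRight_apply, Y.mul]
        rw [Matrix.mul_assoc (Y.ρ x) (mat q), ← Matrix.mul_assoc (mat q), comm q,
          Matrix.mul_assoc _ (mat q), h, Matrix.mul_assoc] }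
  refine ⟨W, mk' (X := W) (Y := Y) (mat q : Matrix Y.ι Y.ι R) (fun x => ?_) ?_,
    mk' (X := Y) (Y := W) (mat q : Matrix Y.ι Y.ι R) (fun x => ?_) (mul_one' q), hom_ext ?_,
    hom_ext h⟩
  · change mat q * (Y.ρ x * mat q) = Y.ρ x * mat q
    rw [← Matrix.mul_assoc, comm q, Matrix.mul_assoc, h]
  · change mat q * (Y.ρ 1 * mat q) = mat q
    rw [one_mul', h]
  · change mat q * Y.ρ x = Y.ρ x * mat q * mat q
    rw [comm q, Matrix.mul_assoc, h]
  · change mat q * mat q = Y.ρ 1 * mat q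
    rw [one_mul', h]

/-- the trace on endomorphisms. -/
def trM (τ : R →ₗ[ℂ] ℂ) (Y : Obj R) : (Y ⟶ Y) →ₗ[ℂ] ℂ where
  toFun f := ∑ i, τ (mat f i i)
  map_add' f g := by simp [add_val, Finset.sum_add_distrib]
  map_smul' c f := by simp [smul_val, Finset.mul_sum]

lemma trM_apply (τ : R →ₗ[ℂ] ℂ) (f : Y ⟶ Y) : trM τ Y f = ∑ i, τ (mat f i i) := rfl

lemma tr_mul_comm (τ : R →ₗ[ℂ] ℂ) (hτ : ∀ x y, τ (x * y) = τ (y * x)) {a b : Type} [Fintype a]
    [Fintype b] (S : Matrix a b R) (T : Matrix b a R) :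
    ∑ i, τ ((S * T) i i) = ∑ j, τ ((T * S) j j) := by
  simp only [Matrix.mul_apply, map_sum]
  rw [Finset.sum_comm]
  simp only [hτ (S _ _)]

lemma trM_cyc (τ : R →ₗ[ℂ] ℂ) (hτ : ∀ x y, τ (x * y) = τ (y * x)) (f : X ⟶ Y) (g : Y ⟶ X) :
    trM τ X (f ≫ g) = trM τ Y (g ≫ f) := tr_mul_comm τ hτ _ _

end Obj

end Pool.Agent.MP_f5ca18_al.H67.Q2
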