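import Mathlib

set_option autoImplicit false

open scoped ComplexOrder

namespace Pool.Agent.MP_f5ca18_al.H67.Q2

variable {B : Type} [Ring B] [Algebra ℂ B] [StarRing B] [StarModule ℂ B]

/-- A faithful positive normalised trace. -/
structure PosTr (τ : B →ₗ[ℂ] ℂ) : Prop where
  comm : ∀ x y, τ (x * y) = τ (y * x)
  one : τ 1 = 1
  pos : ∀ x, x ≠ 0 → 0 < τ (star x * x)

variable {τ : B →ₗ[ℂ] ℂ}

namespace PosTr

omit [StarModule ℂ B] in
lemma eq_zero (h : PosTr τ) {x : B} (hx : τ (star x * x) = 0) : x = 0 := by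
  by_contra h0
  exact (h.pos x h0).ne' hx

omit [StarModule ℂ B] in
lemma eq_zero' (h : PosTr τ) {x : B} (hx : star x * x = 0) : x = 0 :=
  h.eq_zero (by rw [hx, map_zero])

omit [StarModule ℂ B] in
lemma nonneg (h : PosTr τ) (x : B) : 0 ≤ τ (star x * x) := by
  by_cases h0 : x = 0
  · simp [h0]
  · exact (h.pos x h0).le

omit [StarModule ℂ B] in
lemma ext (h : PosTr τ) {x y : B} (hx : ∀ z, τ (z * x) = τ (z * y)) : x = y :=
  sub_eq_zero.1 (h.eq_zero (by rw [mul_sub, map_sub, hx, sub_self]))

omit [StarModule ℂ B] in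
lemma exists_sq (h : PosTr τ) [FiniteDimensional ℂ B] {a : B} (ha : star a = a) :
    ∃ c, a * c * a = a ∧ star (a * c) = a * c := by
  have hk : LinearMap.ker (LinearMap.mulLeft ℂ (a * a)) = LinearMap.ker (LinearMap.mulLeft ℂ a) := by
    ext y
    simp only [LinearMap.mem_ker, LinearMap.mulLeft_apply]
    refine ⟨fun hy => h.eq_zero' ?_, fun hy => by rw [mul_assoc, hy, mul_zero]⟩
    rw [star_mul, ha, mul_assoc, ← mul_assoc a, hy, mul_zero]
  have hle : LinearMap.range (LinearMap.mulLeft ℂ (a * a)) ≤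
      LinearMap.range (LinearMap.mulLeft ℂ a) := by
    rintro _ ⟨y, rfl⟩
    exact ⟨a * y, by simp [mul_assoc]⟩
  have h1 := LinearMap.finrank_range_add_finrank_ker (LinearMap.mulLeft ℂ (a * a))
  have h2 := LinearMap.finrank_range_add_finrank_ker (LinearMap.mulLeft ℂ a)
  rw [hk] at h1
  have h3 := Submodule.eq_of_le_of_finrank_eq hle (by omega)
  have : a ∈ LinearMap.range (LinearMap.mulLeft ℂ (a * a)) := by
    rw [h3]; exact ⟨1, by simp⟩
  obtain ⟨c, hc⟩ := this
  replace hc : a * a * c = a := hc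
  have hc' : star c * (a * a) = a := by
    have := congrArg star hc
    rwa [star_mul, star_mul, ha] at this
  have h4 : star c * a = a * c := by
    calc star c * a = star c * (a * a * c) := by rw [hc]
      _ = a * c := by rw [← mul_assoc, hc']
  refine ⟨c, ?_, by rw [star_mul, ha, h4]⟩
  rw [← h4, mul_assoc, hc']

omit [StarModule ℂ B] in
lemma exists_proj (h : PosTr τ) [FiniteDimensional ℂ B] (x : B) :
    ∃ g, x * g * x = x ∧ star (x * g) = x * g := by
  obtain ⟨c, h1, h2⟩ := h.exists_sq (a := x * star x) (by rw [star_mul, star_star])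
  refine ⟨star x * c, ?_, by rwa [← mul_assoc]⟩
  have h3 : (1 - x * star x * c) * x = 0 := by
    rw [← star_eq_zero]
    apply h.eq_zero'
    rw [star_star, star_mul, ← mul_assoc, mul_assoc _ x, sub_mul, h1, one_mul, sub_self, zero_mul]
  rw [sub_mul, one_mul, sub_eq_zero] at h3
  rw [← mul_assoc, ← h3]

omit [StarModule ℂ B] in
lemma pos_idem (h : PosTr τ) [FiniteDimensional ℂ B] {q : B} (hq : q * q = q) (h0 : q ≠ 0) :
    0 < τ q := by
  obtain ⟨g, h1, h2⟩ := h.exists_proj q
  have h3 : τ q = τ (star (q * g) * (q * g)) := by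
    rw [h2, ← mul_assoc, h1]
    conv_lhs => rw [← h1, h.comm, ← mul_assoc, hq]
  rw [h3]
  refine h.pos _ fun h4 => h0 ?_
  rw [← h1, h4, zero_mul]

lemma conj (h : PosTr τ) (x : B) : (starRingEnd ℂ) (τ x) = τ (star x) := by
  have key : ∀ y : B, (τ (star y * y)).im = 0 := fun y =>
    (Complex.nonneg_iff.1 (h.nonneg y)).2.symm
  have h1 := key (1 + x)
  have h2 := key (1 + Complex.I • x)
  have h3 := key x
  simp only [star_add, star_one, add_mul, mul_add, one_mul, mul_one, map_add, h.one, star_smul,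
    smul_mul_smul_comm, map_smul, smul_eq_mul, Complex.add_im, Complex.one_im, Complex.star_def,
    Complex.conj_I, Complex.mul_im, Complex.neg_re, Complex.neg_im, Complex.I_re, Complex.I_im,
    Complex.mul_re, h3] at h1 h2
  apply Complex.ext
  · simp only [Complex.conj_re]; linarith
  · simp only [Complex.conj_im]; linarith

/-- the inner product given by the trace. -/
@[reducible] def core (h : PosTr τ) (W : Submodule ℂ B) : InnerProductSpace.Core ℂ W where
  inner x y := τ (star x.1 * y.1)
  conj_inner_symm x y := by rw [h.conj, star_mul, star_star]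
  re_inner_nonneg x := (Complex.nonneg_iff.1 (h.nonneg x.1)).1
  add_left x y z := by simp [add_mul]
  smul_left x y r := by simp
  definite x hx := Subtype.ext (h.eq_zero hx)

lemma card_le (h : PosTr τ) {q : B} (hq : q * q = q) (h0 : q ≠ 0)
    (hc : ∀ v, ∃ s : ℂ, q * v * q = s • q) : ∃ D : ℝ, ∀ (r : ℕ) (y : Fin r → B),
    (∀ i, y i * q = y i) → (∀ i j, τ (star (y i) * y j) = if i = j then 1 else 0) → r ≤ D := by
  obtain ⟨c, hc1⟩ := hc (star q)
  set a := star q * q with ha
  have ht : 0 < τ a := h.pos q h0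
  have ha0 : a ≠ 0 := fun h1 => by rw [h1, map_zero] at ht; exact lt_irrefl _ ht
  have has : star a = a := by rw [ha, star_mul, star_star]
  have haa : a * a = c • a := by
    rw [ha, mul_assoc, ← mul_assoc q, hc1, mul_smul_comm]
  have hcpos : 0 < c := by
    have h1 := h.pos a ha0
    rw [has, haa, map_smul, smul_eq_mul] at h1
    have h2 := div_pos h1 ht
    rwa [mul_div_cancel_right₀ _ ht.ne'] at h2
  have hcs : star c = c := by
    rw [Complex.star_def, Complex.conj_eq_iff_im]
    exact (Complex.pos_iff.1 hcpos).2.symm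
  have hc2 : star q * q * star q = c • star q := by
    have := congrArg star hc1
    rwa [star_mul, star_mul, star_star, star_smul, hcs, ← mul_assoc] at this
  refine ⟨(c / τ a).re, fun r y hy hor => ?_⟩
  have hy' : ∀ i, star q * star (y i) = star (y i) := fun i => by rw [← star_mul, hy]
  have h1 : ∀ i j, star (y i) * y j = (if i = j then (τ a)⁻¹ else 0) • a := by
    intro i j
    obtain ⟨s, hs⟩ := hc (q * star q * (star (y i) * y j))
    have h2 : c • (star (y i) * y j) = s • a := by
      have h3 := congrArg (fun z => star q * z) hs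
      simp only [mul_smul_comm, ← ha] at h3
      rw [← h3, ← mul_assoc q, ← mul_assoc q, hq]
      simp only [← mul_assoc]
      rw [hc2, smul_mul_assoc, hy', smul_mul_assoc, smul_mul_assoc, mul_assoc _ (y j), hy]
    have h3 : star (y i) * y j = (s / c) • a := by
      rw [div_eq_inv_mul, mul_smul, ← h2, smul_smul, inv_mul_cancel₀ hcpos.ne', one_smul]
    have h4 := hor i j
    rw [h3, map_smul, smul_eq_mul] at h4
    rw [h3]
    congr 1
    rw [eq_div_of_mul_eq ht.ne' h4]
    split_ifs <;> simp
  have h5 : ∀ i j, y i * a * star (y j) = c • (y i * star (y j)) := by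
    intro i j
    calc y i * a * star (y j) = y i * (q * star q * q) * star (y j) := by
          rw [ha, mul_assoc q, ← mul_assoc (y i) q, hy]
      _ = _ := by rw [hc1, mul_smul_comm, hy, smul_mul_assoc]
  set Q := ∑ i, (τ a / c) • (y i * star (y i)) with hQ
  have hk : star (τ a / c) = τ a / c := by
    rw [Complex.star_def, Complex.conj_eq_iff_im]
    exact (Complex.pos_iff.1 (div_pos ht hcpos)).2.symm
  have hQs : star Q = Q := by
    simp only [hQ, star_sum, star_smul, hk, star_mul, star_star]
  have hQQ : Q * Q = Q := by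
    rw [hQ, Finset.sum_mul_sum]
    refine Finset.sum_congr rfl fun i _ => ?_
    rw [Finset.sum_eq_single i]
    · rw [smul_mul_smul_comm, mul_assoc (y i), ← mul_assoc (star (y i)), h1, if_pos rfl,
        smul_mul_assoc, mul_smul_comm, ← mul_assoc, h5, smul_smul, smul_smul]
      congr 1
      have := ht.ne'
      have := hcpos.ne'
      field_simp
    · intro j _ hj
      rw [smul_mul_smul_comm, mul_assoc (y i), ← mul_assoc (star (y i)), h1, if_neg hj.symm]
      simp
    · simp
  have h6 := h.nonneg (1 - Q)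
  rw [star_sub, star_one, hQs, mul_sub, mul_one, sub_mul, one_mul, hQQ, sub_self, sub_zero,
    map_sub, h.one, hQ, map_sum] at h6
  simp only [map_smul, h.comm (y _), hor, if_true, smul_eq_mul, mul_one, Finset.sum_const,
    Finset.card_univ, Fintype.card_fin, nsmul_eq_mul] at h6
  have h7 : (r : ℂ) ≤ c / τ a := by
    rw [le_div_iff₀ ht]
    have h8 := mul_nonneg h6 hcpos.le
    have := hcpos.ne'
    rw [sub_mul, one_mul, mul_assoc, div_mul_cancel₀ _ this, sub_nonneg] at h8
    exact h8
  exact_mod_cast (Complex.le_def.1 h7).1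

lemma fd_corner (h : PosTr τ) {q : B} (hq : q * q = q)
    (hc : ∀ v, ∃ s : ℂ, q * v * q = s • q) (W : Submodule ℂ B) (hW : ∀ y ∈ W, y * q = y) :
    FiniteDimensional ℂ W := by
  by_cases h0 : q = 0
  · have : Subsingleton W := ⟨fun x y => Subtype.ext (by rw [← hW _ x.2, ← hW _ y.2, h0]; simp)⟩
    infer_instance
  obtain ⟨D, hD⟩ := h.card_le hq h0 hc
  by_contra hf
  obtain ⟨r, hr⟩ := exists_nat_gt D
  have h1 : (r : Cardinal) ≤ Module.rank ℂ W := by
    have : ¬ Module.rank ℂ W < Cardinal.aleph0 := fun h2 => hf (Module.rank_lt_aleph0_iff.1 h2)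
    exact Cardinal.natCast_lt_aleph0.le.trans (not_lt.1 this)
  obtain ⟨v, hv⟩ := Module.le_rank_iff.1 h1
  letI := (h.core W).toNormedAddCommGroup
  letI := InnerProductSpace.ofCore (h.core W).toCore
  have ho := InnerProductSpace.gramSchmidtNormed_orthonormal (𝕜 := ℂ) hv
  rw [orthonormal_iff_ite] at ho
  exact absurd (hD r (fun i => (InnerProductSpace.gramSchmidtNormed ℂ v i).1)
    (fun i => hW _ (Subtype.mem _)) ho) (not_le.2 hr)

end PosTr

end Pool.Agent.MP_f5ca18_al.H67.Q2
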