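import Pool.Agent.MP_f5ca18_al.H67.Q2.Star
import Pool.Agent.MP_f5ca18_al.H67.Q2.MatCat

set_option autoImplicit false

open scoped ComplexOrder

namespace Pool.Agent.MP_f5ca18_al.H67.Q2

lemma exists_lift {U V W : Type} [AddCommGroup U] [Module ℂ U] [AddCommGroup V] [Module ℂ V]
    [AddCommGroup W] [Module ℂ W] (L : V →ₗ[ℂ] W) (K : U →ₗ[ℂ] W) (hK : ∀ u, K u = 0 → u = 0)
    (h : ∀ v, ∃ u, L v = K u) : ∃ F : V →ₗ[ℂ] U, ∀ v, L v = K (F v) := by
  have hi : Function.Injective K := (injective_iff_map_eq_zero K).2 hK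
  choose F hF using h
  exact ⟨⟨⟨F, fun x y => hi (by rw [map_add, ← hF, ← hF, ← hF, map_add])⟩,
    fun c x => hi (by simp only [RingHom.id_apply]; rw [map_smul, ← hF, ← hF, map_smul])⟩, hF⟩

/-- The algebraic data of a Jones tower. -/
structure Tw (A : ℕ → Type) [∀ j, Ring (A j)] [∀ j, Algebra ℂ (A j)] [∀ j, StarRing (A j)] where
  ι : ∀ j, A j →⋆ₐ[ℂ] A (j + 1)
  τ : ∀ j, A j →ₗ[ℂ] ℂ
  tr : ∀ j, PosTr (τ j)
  τ_ι : ∀ j x, τ (j + 1) (ι j x) = τ j x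
  e : ∀ j, A (j + 2)
  e_star : ∀ j, star (e j) = e j
  e_mul : ∀ j, e j * e j = e j
  e_comm : ∀ j x, e j * ι (j + 1) (ι j x) = ι (j + 1) (ι j x) * e j
  cond : ∀ j y, ∃ x, e j * ι (j + 1) y * e j = ι (j + 1) (ι j x) * e j
  pull : ∀ j z, ∃ y, z * e j = ι (j + 1) y * e j
  lam : ℕ → ℂ
  lam_pos : ∀ j, 0 < lam j
  markov : ∀ j y, τ (j + 2) (ι (j + 1) y * e j) = lam j * τ (j + 1) y
  full : ∀ j, ∃ (n : ℕ) (α β : Fin n → A (j + 2)), ∑ i, α i * e j * β i = 1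
  centre : ∀ z : A 0, (∀ x, z * x = x * z) → ∃ c : ℂ, z = c • 1

namespace Tw

variable {A : ℕ → Type} [∀ j, Ring (A j)] [∀ j, Algebra ℂ (A j)] [∀ j, StarRing (A j)] (T : Tw A)

lemma ι_inj (j : ℕ) (x : A j) (h : T.ι j x = 0) : x = 0 :=
  (T.tr j).eq_zero (by rw [← T.τ_ι, map_mul, h, mul_zero, map_zero])

lemma inj_e (j : ℕ) (y : A (j + 1)) (h : T.ι (j + 1) y * T.e j = 0) : y = 0 := by
  apply (T.tr _).eq_zero
  have := T.markov j (star y * y)
  rw [map_mul (T.ι _), mul_assoc, h, mul_zero, map_zero] at this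
  exact (mul_eq_zero.1 this.symm).resolve_left (T.lam_pos j).ne'

lemma inj_e' (j : ℕ) (y : A (j + 1)) (h : T.e j * T.ι (j + 1) y = 0) : y = 0 := by
  rw [← star_eq_zero]
  apply T.inj_e
  rw [map_star, ← T.e_star, ← star_mul, h, star_zero]

lemma ext_e (j : ℕ) {x y : A (j + 1)} (h : T.ι (j + 1) x * T.e j = T.ι (j + 1) y * T.e j) :
    x = y := sub_eq_zero.1 (T.inj_e j _ (by rw [map_sub, sub_mul, h, sub_self]))

lemma ext_e2 (j : ℕ) {x y : A j}
    (h : T.ι (j + 1) (T.ι j x) * T.e j = T.ι (j + 1) (T.ι j y) * T.e j) : x = y :=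
  sub_eq_zero.1 (T.ι_inj j _ (by rw [map_sub, T.ext_e j h, sub_self]))

lemma pull' (j : ℕ) (z : A (j + 2)) : ∃ y, T.e j * z = T.e j * T.ι (j + 1) y := by
  obtain ⟨y, hy⟩ := T.pull j (star z)
  refine ⟨star y, ?_⟩
  have := congrArg star hy
  rwa [star_mul, star_mul, star_star, T.e_star, ← map_star] at this

lemma exists_Ec (j : ℕ) : ∃ F : A (j + 2) →ₗ[ℂ] A j,
    ∀ z, T.e j * z * T.e j = T.ι (j + 1) (T.ι j (F z)) * T.e j :=
  exists_lift (LinearMap.mulRight ℂ (T.e j) ∘ₗ LinearMap.mulLeft ℂ (T.e j))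
    (LinearMap.mulRight ℂ (T.e j) ∘ₗ (T.ι (j + 1)).toAlgHom.toLinearMap ∘ₗ
      (T.ι j).toAlgHom.toLinearMap)
    (fun u hu => T.ι_inj j u (T.inj_e j _ hu)) fun z => by
      obtain ⟨y, hy⟩ := T.pull j z
      obtain ⟨x, hx⟩ := T.cond j y
      refine ⟨x, ?_⟩
      change T.e j * z * T.e j = T.ι (j + 1) (T.ι j x) * T.e j
      rw [mul_assoc, hy, ← mul_assoc, hx]

/-- compression by the Jones projection. -/
noncomputable def Ec (j : ℕ) : A (j + 2) →ₗ[ℂ] A j := (T.exists_Ec j).choose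

lemma Ec_spec (j : ℕ) (z : A (j + 2)) :
    T.e j * z * T.e j = T.ι (j + 1) (T.ι j (T.Ec j z)) * T.e j := (T.exists_Ec j).choose_spec z

/-- the conditional expectation. -/
noncomputable def E (j : ℕ) : A (j + 1) →ₗ[ℂ] A j := T.Ec j ∘ₗ (T.ι (j + 1)).toAlgHom.toLinearMap

lemma E_spec (j : ℕ) (y : A (j + 1)) :
    T.e j * T.ι (j + 1) y * T.e j = T.ι (j + 1) (T.ι j (T.E j y)) * T.e j := T.Ec_spec j _

lemma E_left (j : ℕ) (x : A j) (y : A (j + 1)) : T.E j (T.ι j x * y) = x * T.E j y := by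
  apply T.ext_e2
  rw [← E_spec, map_mul, ← mul_assoc, T.e_comm, map_mul, map_mul, mul_assoc, mul_assoc,
    mul_assoc, ← E_spec, mul_assoc]

lemma E_right (j : ℕ) (x : A j) (y : A (j + 1)) : T.E j (y * T.ι j x) = T.E j y * x := by
  apply T.ext_e2
  rw [← E_spec, map_mul, mul_assoc, mul_assoc, ← T.e_comm, ← mul_assoc, ← mul_assoc, E_spec,
    map_mul, map_mul, mul_assoc, T.e_comm, mul_assoc]

lemma E_one (j : ℕ) : T.E j 1 = 1 := by
  apply T.ext_e2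
  rw [← E_spec, map_one, map_one, map_one, mul_one, one_mul, T.e_mul]

lemma τ_E (j : ℕ) (y : A (j + 1)) : T.τ j (T.E j y) = T.τ (j + 1) y := by
  apply mul_left_cancel₀ (T.lam_pos j).ne'
  rw [← T.τ_ι, ← T.markov, ← T.markov, ← E_spec, mul_assoc, (T.tr _).comm, mul_assoc, T.e_mul]

lemma E_e (j : ℕ) : T.E (j + 1) (T.e j) = T.lam j • 1 := by
  apply (T.tr _).ext
  intro z
  rw [← E_left, τ_E, T.markov, mul_smul_comm, mul_one, map_smul, smul_eq_mul]

lemma fef (j : ℕ) : T.e (j + 1) * T.ι (j + 2) (T.e j) * T.e (j + 1) = T.lam j • T.e (j + 1) := by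
  rw [E_spec, E_e, map_smul, map_smul, map_one, map_one, smul_mul_assoc, one_mul]

lemma efe (j : ℕ) : T.ι (j + 2) (T.e j) * T.e (j + 1) * T.ι (j + 2) (T.e j) =
    T.lam j • T.ι (j + 2) (T.e j) := by
  obtain ⟨n, α, β, h⟩ := T.full (j + 1)
  rw [← mul_one (_ * _), ← mul_one (_ • _), ← h, Finset.mul_sum, Finset.mul_sum]
  refine Finset.sum_congr rfl fun i _ => ?_
  obtain ⟨a, ha⟩ := T.pull (j + 1) (α i)
  obtain ⟨m, hm⟩ := T.pull' j a
  rw [ha, ← mul_assoc, ← mul_assoc (_ • _)]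
  congr 1
  have h1 : T.e (j + 1) * T.ι (j + 2) (T.e j * a) * T.e (j + 1) =
      T.lam j • (T.ι (j + 2) (T.ι (j + 1) m) * T.e (j + 1)) := by
    rw [hm, E_spec, E_right, E_e, smul_mul_assoc, one_mul, map_smul, map_smul, smul_mul_assoc]
  calc _ = T.ι (j + 2) (T.e j) * (T.e (j + 1) * T.ι (j + 2) (T.e j * a) * T.e (j + 1)) := by
        simp only [map_mul, mul_assoc]
    _ = _ := by
        rw [h1, mul_smul_comm, smul_mul_assoc, ← mul_assoc, ← mul_assoc, ← map_mul, ← map_mul, hm]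

lemma exists_basis : ∃ (n : ℕ) (a b : Fin n → A 1),
    ∑ i, T.ι 1 (a i) * T.e 0 * T.ι 1 (b i) = 1 := by
  obtain ⟨n, α, β, h⟩ := T.full 0
  choose a ha using fun i => T.pull 0 (α i)
  choose b hb using fun i => T.pull' 0 (β i)
  refine ⟨n, a, b, ?_⟩
  rw [← h]
  refine Finset.sum_congr rfl fun i _ => ?_
  rw [mul_assoc, ← hb, ← mul_assoc, ← ha]

/-- size of the basis. -/
noncomputable def n : ℕ := T.exists_basis.choose

/-- the basis. -/
noncomputable def a : Fin T.n → A 1 := T.exists_basis.choose_spec.choose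

/-- the dual basis. -/
noncomputable def b : Fin T.n → A 1 := T.exists_basis.choose_spec.choose_spec.choose

lemma basis : ∑ i, T.ι 1 (T.a i) * T.e 0 * T.ι 1 (T.b i) = 1 :=
  T.exists_basis.choose_spec.choose_spec.choose_spec

lemma sum_a (y : A 1) : ∑ i, T.a i * T.ι 0 (T.E 0 (T.b i * y)) = y := by
  apply T.ext_e 0
  conv_rhs => rw [← one_mul (_ * _), ← T.basis, Finset.sum_mul]
  rw [map_sum, Finset.sum_mul]
  refine Finset.sum_congr rfl fun i _ => ?_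
  rw [map_mul, mul_assoc, ← E_spec]
  simp only [map_mul, mul_assoc]

lemma sum_b (y : A 1) : ∑ i, T.ι 0 (T.E 0 (y * T.a i)) * T.b i = y := by
  rw [← sub_eq_zero]
  apply T.inj_e' 0
  rw [map_sub, mul_sub, sub_eq_zero]
  conv_rhs => rw [← mul_one (_ * _), ← T.basis, Finset.mul_sum]
  rw [map_sum, Finset.mul_sum]
  refine Finset.sum_congr rfl fun i _ => ?_
  rw [map_mul, ← mul_assoc, T.e_comm, ← E_spec]
  simp only [map_mul, mul_assoc]

/-- the shifted basis. -/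
noncomputable def α : ∀ j, Fin T.n → A (j + 2)
  | 0 => fun i => T.ι 1 (T.a i) * T.e 0
  | j + 1 => fun i => T.ι (j + 2) (α j i) * T.e (j + 1)

/-- the shifted dual basis. -/
noncomputable def β : ∀ j, Fin T.n → A (j + 2)
  | 0 => fun i => T.e 0 * T.ι 1 (T.b i)
  | j + 1 => fun i => (T.lam j)⁻¹ • (T.e (j + 1) * T.ι (j + 2) (β j i))

lemma α_e (j : ℕ) (i : Fin T.n) : T.α j i * T.e j = T.α j i := by
  cases j <;> simp only [α, mul_assoc, T.e_mul]

lemma e_β (j : ℕ) (i : Fin T.n) : T.e j * T.β j i = T.β j i := by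
  cases j <;> simp only [β, mul_smul_comm, ← mul_assoc, T.e_mul]

lemma sum_αβ (j : ℕ) : ∑ i, T.α j i * T.β j i = 1 := by
  induction j with
  | zero =>
    rw [← T.basis]
    refine Finset.sum_congr rfl fun i _ => ?_
    simp only [α, β]
    rw [mul_assoc, ← mul_assoc (T.e 0), T.e_mul, mul_assoc]
  | succ j ih =>
    rw [← map_one (T.ι (j + 2)), ← ih, map_sum]
    refine Finset.sum_congr rfl fun i _ => ?_
    simp only [α, β]
    conv_lhs => rw [← T.α_e j, ← T.e_β j]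
    calc _ = (T.lam j)⁻¹ • (T.ι (j + 2) (T.α j i) * (T.ι (j + 2) (T.e j) *
          (T.e (j + 1) * T.e (j + 1)) * T.ι (j + 2) (T.e j)) * T.ι (j + 2) (T.β j i)) := by
          simp only [map_mul, mul_assoc, mul_smul_comm]
      _ = _ := by
          rw [T.e_mul, efe, mul_smul_comm, smul_mul_assoc, smul_smul,
            inv_mul_cancel₀ (T.lam_pos j).ne', one_smul, ← map_mul, ← map_mul, α_e]

/-- the matrix picture of the basic construction. -/
noncomputable def Ψ (j : ℕ) : A (j + 2) →ₗ[ℂ] Matrix (Fin T.n) (Fin T.n) (A j) where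
  toFun y := Matrix.of fun i l => T.Ec j (T.β j i * y * T.α j l)
  map_add' x y := by ext; simp [mul_add, add_mul]
  map_smul' c x := by ext; simp

lemma Ψ_spec (j : ℕ) (y : A (j + 2)) (i l : Fin T.n) :
    T.β j i * y * T.α j l = T.ι (j + 1) (T.ι j (T.Ψ j y i l)) * T.e j := by
  rw [← T.e_β, ← T.α_e]
  refine Eq.trans ?_ (T.Ec_spec j (T.β j i * y * T.α j l))
  simp only [mul_assoc]

lemma mul_spec (j : ℕ) (x y : A j) : T.ι (j + 1) (T.ι j x) * T.e j * (T.ι (j + 1) (T.ι j y) * T.e j)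
    = T.ι (j + 1) (T.ι j (x * y)) * T.e j := by
  rw [mul_assoc, ← mul_assoc (T.e j), T.e_comm, mul_assoc, T.e_mul, map_mul, map_mul, mul_assoc]

lemma Ψ_mul (j : ℕ) (y z : A (j + 2)) : T.Ψ j (y * z) = T.Ψ j y * T.Ψ j z := by
  ext i l
  apply T.ext_e2
  rw [← Ψ_spec, Matrix.mul_apply, map_sum, map_sum, Finset.sum_mul]
  simp only [← mul_spec, ← Ψ_spec]
  conv_lhs => rw [← mul_one y, ← T.sum_αβ j]
  simp only [Finset.mul_sum, Finset.sum_mul, mul_assoc]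

lemma Ψ_inj (j : ℕ) (y : A (j + 2)) (h : T.Ψ j y = 0) : y = 0 := by
  rw [← one_mul y, ← mul_one y, ← T.sum_αβ j, Finset.mul_sum, Finset.sum_mul_sum]
  refine Finset.sum_eq_zero fun i _ => Finset.sum_eq_zero fun l _ => ?_
  have := T.Ψ_spec j y i l
  rw [h, Matrix.zero_apply, map_zero, map_zero, zero_mul] at this
  calc _ = T.α j i * (T.β j i * y * T.α j l) * T.β j l := by simp only [mul_assoc]
    _ = 0 := by rw [this, mul_zero, zero_mul]

lemma Ψ_surj (j : ℕ) (S : Matrix (Fin T.n) (Fin T.n) (A j)) :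
    ∃ y, T.Ψ j y = T.Ψ j 1 * S * T.Ψ j 1 := by
  refine ⟨∑ i, ∑ l, T.α j i * T.ι (j + 1) (T.ι j (S i l)) * T.β j l, ?_⟩
  ext m r
  apply T.ext_e2
  rw [← Ψ_spec]
  simp only [Matrix.mul_apply, map_sum, Finset.sum_mul, Finset.mul_sum]
  rw [Finset.sum_comm]
  refine Finset.sum_congr rfl fun l _ => Finset.sum_congr rfl fun i _ => ?_
  rw [← mul_spec, ← mul_spec, ← Ψ_spec, ← Ψ_spec]
  simp only [mul_assoc, mul_one]
  rw [← mul_assoc (T.e j), e_β]

lemma Ψ_tr (j : ℕ) (y : A (j + 2)) :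
    ∑ i, T.τ j (T.Ψ j y i i) = (T.lam j)⁻¹ * T.τ (j + 2) y := by
  rw [eq_inv_mul_iff_mul_eq₀ (T.lam_pos j).ne', Finset.mul_sum]
  conv_rhs => rw [← mul_one y, ← T.sum_αβ j, Finset.mul_sum, map_sum]
  refine Finset.sum_congr rfl fun i _ => ?_
  rw [← T.τ_ι, ← T.markov, ← Ψ_spec, mul_assoc, (T.tr _).comm, mul_assoc]

lemma Ψ_ι (j : ℕ) (y : A (j + 2)) (i l : Fin T.n) :
    T.Ψ (j + 1) (T.ι (j + 2) y) i l = T.ι j (T.Ψ j y i l) := by
  apply T.ext_e2
  rw [← Ψ_spec]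
  simp only [α, β]
  calc _ = (T.lam j)⁻¹ • (T.e (j + 1) * T.ι (j + 2) (T.β j i * y * T.α j l) * T.e (j + 1)) := by
        simp only [map_mul, mul_assoc, smul_mul_assoc]
    _ = _ := by
        rw [Ψ_spec, map_mul, ← mul_assoc, T.e_comm, mul_assoc, mul_assoc, ← mul_assoc (T.e _), fef,
          mul_smul_comm, smul_smul, inv_mul_cancel₀ (T.lam_pos j).ne', one_smul]

lemma Ψ_zero (y : A 1) (i l : Fin T.n) :
    T.Ψ 0 (T.ι 1 y) i l = T.E 0 (T.b i * y * T.a l) := by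
  apply T.ext_e2
  rw [← Ψ_spec, ← E_spec]
  simp only [α, β, map_mul, mul_assoc]

/-- the embedding of the bottom algebra. -/
noncomputable def up : ∀ j, A 0 →⋆ₐ[ℂ] A j
  | 0 => StarAlgHom.id ℂ _
  | j + 1 => (T.ι j).comp (up j)

lemma up_succ (j : ℕ) (x : A 0) : T.up (j + 1) x = T.ι j (T.up j x) := rfl

lemma Ψ_up (j : ℕ) (x : A 0) (i l : Fin T.n) :
    T.Ψ j (T.up (j + 2) x) i l = T.up j (T.E 0 (T.b i * T.ι 0 x * T.a l)) := by
  induction j with
  | zero => exact T.Ψ_zero _ i l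
  | succ j ih => rw [up_succ, Ψ_ι, ih, up_succ]

lemma τ_up (j : ℕ) (y : A j) : ∃ z, ∀ x, T.τ j (T.up j x * y) = T.τ 0 (x * z) := by
  induction j with
  | zero => exact ⟨y, fun _ => rfl⟩
  | succ j ih =>
    obtain ⟨z, hz⟩ := ih (T.E j y)
    exact ⟨z, fun x => by rw [← hz, ← E_left, τ_E, up_succ]⟩

lemma τ_up_mul (j : ℕ) (y : A j) (hy : ∀ x, T.up j x * y = y * T.up j x) (x : A 0) :
    T.τ j (T.up j x * y) = T.τ 0 x * T.τ j y := by
  obtain ⟨z, hz⟩ := T.τ_up j y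
  obtain ⟨c, rfl⟩ := T.centre z fun w => (T.tr 0).ext fun v => by
    rw [← mul_assoc, (T.tr 0).comm, ← mul_assoc, ← mul_assoc, ← hz, ← hz, map_mul (T.up j),
      map_mul (T.up j), mul_assoc, (T.tr j).comm, mul_assoc, mul_assoc, hy]
  have h1 := hz 1
  rw [map_one, one_mul, one_mul, map_smul, (T.tr 0).one] at h1
  rw [hz, h1, mul_smul_comm, mul_one, map_smul]
  simp [mul_comm]

end Tw

end Pool.Agent.MP_f5ca18_al.H67.Q2
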