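import Pool.Agent.MP_f5ca18_al.H67.Main

set_option autoImplicit false

open CategoryTheory CategoryTheory.Limits MonoidalCategory Module
open scoped ComplexOrder

namespace Pool.Agent.MP_f5ca18_al.H67.Q2

universe u

/-- morphisms factoring through one of the given objects. -/
def fac {C : Type u} [Category.{0} C] {J : Type*} (S : J → C) (Y : C) : Set (Y ⟶ Y) :=
  {f | ∃ (i : J) (p : Y ⟶ S i) (q : S i ⟶ Y), f = p ≫ q}

/-- A semisimple linear monoidal category with finitely many simple objects and a positive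
multiplicative trace. -/
structure Fus (C : Type u) [Category.{0} C] [Preadditive C] [Linear ℂ C] [MonoidalCategory C] where
  n : ℕ
  S : Fin n → C
  i0 : Fin n
  fd : ∀ X Y : C, FiniteDimensional ℂ (X ⟶ Y)
  schur : ∀ i (f : S i ⟶ S i), ∃ c : ℂ, f = c • 𝟙 _
  orth : ∀ i j, i ≠ j → ∀ f : S i ⟶ S j, f = 0
  id_mem_span : ∀ Y, 𝟙 Y ∈ Submodule.span ℂ (fac S Y)
  tr : ∀ Y : C, (Y ⟶ Y) →ₗ[ℂ] ℂ
  tr_cyc : ∀ (Y Y' : C) (f : Y ⟶ Y') (g : Y' ⟶ Y), tr Y (f ≫ g) = tr Y' (g ≫ f)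
  mul : ∀ Y Z : C, tr (Y ⊗ Z) (𝟙 _) = tr Y (𝟙 _) * tr Z (𝟙 _)
  pos : ∀ i, 0 < tr (S i) (𝟙 _)

variable {C : Type u} [Category.{0} C] [Preadditive C] [Linear ℂ C] [MonoidalCategory C]

namespace Fus

variable (F : Fus C)

/-- A functional killing everything of the form `p ≫ w` with `p` into a simple object vanishes. -/
lemma vanish {Y Z : C} (φ : (Y ⟶ Z) →ₗ[ℂ] ℂ)
    (h : ∀ (i : Fin F.n) (p : Y ⟶ F.S i) (w : F.S i ⟶ Z), φ (p ≫ w) = 0) : φ = 0 := by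
  ext u
  have key : ∀ v ∈ Submodule.span ℂ (fac F.S Y), φ (v ≫ u) = 0 := by
    intro v hv
    induction hv using Submodule.span_induction with
    | mem x hx =>
      obtain ⟨i, p, q, rfl⟩ := hx
      rw [Category.assoc]
      exact h i p _
    | zero => simp
    | add x y _ _ hx hy => rw [Preadditive.add_comp, map_add, hx, hy, add_zero]
    | smul c x _ hx => rw [Linear.smul_comp, map_smul, hx, smul_zero]
  simpa using key _ (F.id_mem_span Y)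

/-- Uniqueness of cyclic functionals. -/
lemma cyc_zero (φ : ∀ Y : C, (Y ⟶ Y) →ₗ[ℂ] ℂ)
    (hc : ∀ (Y Y' : C) (f : Y ⟶ Y') (g : Y' ⟶ Y), φ Y (f ≫ g) = φ Y' (g ≫ f))
    (h0 : ∀ i, φ (F.S i) (𝟙 _) = 0) (Y : C) : φ Y = 0 := by
  apply F.vanish
  intro i p w
  rw [hc]
  obtain ⟨c, hc'⟩ := F.schur i (w ≫ p)
  rw [hc', map_smul, h0, smul_zero]

/-- the dimension of an object. -/
noncomputable def dim (Y : C) : ℂ := F.tr Y (𝟙 Y)

lemma tr_id (Y : C) : F.tr Y (𝟙 Y) = F.dim Y := rfl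

/-- the weighted trace. -/
noncomputable def wtr (Y : C) : (Y ⟶ Y) →ₗ[ℂ] ℂ where
  toFun u := ∑ i, F.dim (F.S i) * LinearMap.trace ℂ _ (Linear.rightComp ℂ (F.S i) u)
  map_add' u v := by
    rw [← Finset.sum_add_distrib]
    refine Finset.sum_congr rfl fun i _ => ?_
    rw [← mul_add, ← map_add]
    congr 2
    ext x
    simp [Preadditive.comp_add]
  map_smul' c u := by
    rw [RingHom.id_apply, smul_eq_mul, Finset.mul_sum]
    refine Finset.sum_congr rfl fun i _ => ?_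
    have : Linear.rightComp ℂ (F.S i) (c • u) = c • Linear.rightComp ℂ (F.S i) u := by
      ext x
      simp
    rw [this, map_smul, smul_eq_mul]
    ring

lemma wtr_apply (Y : C) (u : Y ⟶ Y) : F.wtr Y u =
    ∑ i, F.dim (F.S i) * LinearMap.trace ℂ _ (Linear.rightComp ℂ (F.S i) u) := rfl

lemma wtr_cyc (Y Y' : C) (f : Y ⟶ Y') (g : Y' ⟶ Y) : F.wtr Y (f ≫ g) = F.wtr Y' (g ≫ f) := by
  have := F.fd
  rw [wtr_apply, wtr_apply]
  refine Finset.sum_congr rfl fun i _ => ?_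
  have h1 : Linear.rightComp ℂ (F.S i) (f ≫ g) =
      (Linear.rightComp ℂ (F.S i) g) ∘ₗ (Linear.rightComp ℂ (F.S i) f) := by
    ext x; simp
  have h2 : Linear.rightComp ℂ (F.S i) (g ≫ f) =
      (Linear.rightComp ℂ (F.S i) f) ∘ₗ (Linear.rightComp ℂ (F.S i) g) := by
    ext x; simp
  rw [h1, h2, LinearMap.trace_comp_comm']

lemma wtr_id (Y : C) : F.wtr Y (𝟙 Y) = ∑ i, (finrank ℂ (F.S i ⟶ Y) : ℂ) * F.dim (F.S i) := by
  have := F.fd
  rw [wtr_apply]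
  refine Finset.sum_congr rfl fun i _ => ?_
  have : Linear.rightComp ℂ (F.S i) (𝟙 Y) = LinearMap.id := by
    ext x; simp
  rw [this, LinearMap.trace_id, mul_comm]

lemma dim_eq (Y : C) : F.dim Y = ∑ i, (finrank ℂ (F.S i ⟶ Y) : ℂ) * F.dim (F.S i) := by
  have h := F.cyc_zero (fun Y => F.tr Y - F.wtr Y)
    (fun Y Y' f g => by simp only [LinearMap.sub_apply]; rw [F.tr_cyc, F.wtr_cyc])
    (fun j => by
      rw [LinearMap.sub_apply, wtr_id, Finset.sum_eq_single j, tr_id]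
      · have h0 : 𝟙 (F.S j) ≠ 0 := fun h => by
          have := F.pos j
          rw [h, map_zero] at this
          exact lt_irrefl _ this
        rw [(finrank_eq_one_iff_of_nonzero' _ h0).2 fun f => (F.schur j f).imp fun c hc => hc.symm]
        simp
      · intro i _ hij
        have : Subsingleton (F.S i ⟶ F.S j) :=
          ⟨fun f g => by rw [F.orth i j hij f, F.orth i j hij g]⟩
        rw [finrank_zero_of_subsingleton]
        simp
      · simp) Y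
  have h2 := LinearMap.congr_fun h (𝟙 Y)
  rw [LinearMap.sub_apply, wtr_id, LinearMap.zero_apply, sub_eq_zero] at h2
  exact h2

variable [MonoidalPreadditive C] [MonoidalLinear ℂ C]

/-- right whiskering as a linear map. -/
def wR (Y Y' Z : C) : (Y ⟶ Y') →ₗ[ℂ] (Y ⊗ Z ⟶ Y' ⊗ Z) where
  toFun u := u ▷ Z
  map_add' u v := by simp
  map_smul' c u := by simp

/-- left whiskering as a linear map. -/
def wL (Z Y Y' : C) : (Y ⟶ Y') →ₗ[ℂ] (Z ⊗ Y ⟶ Z ⊗ Y') where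
  toFun u := Z ◁ u
  map_add' u v := by simp
  map_smul' c u := by simp

lemma tr_whiskerRight (Y Z : C) (u : Y ⟶ Y) :
    F.tr (Y ⊗ Z) (u ▷ Z) = F.tr Y u * F.dim Z := by
  have h := F.cyc_zero (fun Y => F.tr (Y ⊗ Z) ∘ₗ wR Y Y Z - F.dim Z • F.tr Y)
    (by
      intro Y Y' f g
      simp only [LinearMap.sub_apply, LinearMap.comp_apply, LinearMap.smul_apply, wR,
        LinearMap.coe_mk, AddHom.coe_mk, comp_whiskerRight]
      rw [F.tr_cyc, F.tr_cyc Y])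
    (by
      intro i
      simp only [LinearMap.sub_apply, LinearMap.comp_apply, LinearMap.smul_apply, wR,
        LinearMap.coe_mk, AddHom.coe_mk, id_whiskerRight, smul_eq_mul]
      rw [F.mul, tr_id, tr_id]
      ring) Y
  have h2 := LinearMap.congr_fun h u
  simp only [LinearMap.sub_apply, LinearMap.comp_apply, LinearMap.smul_apply, wR,
    LinearMap.coe_mk, AddHom.coe_mk, LinearMap.zero_apply, smul_eq_mul] at h2
  rw [sub_eq_zero.1 h2, mul_comm]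

lemma tr_whiskerLeft (Y Z : C) (v : Z ⟶ Z) :
    F.tr (Y ⊗ Z) (Y ◁ v) = F.dim Y * F.tr Z v := by
  have h := F.cyc_zero (fun Z => F.tr (Y ⊗ Z) ∘ₗ wL Y Z Z - F.dim Y • F.tr Z)
    (by
      intro Z Z' f g
      simp only [LinearMap.sub_apply, LinearMap.comp_apply, LinearMap.smul_apply, wL,
        LinearMap.coe_mk, AddHom.coe_mk, whiskerLeft_comp]
      rw [F.tr_cyc, F.tr_cyc Z])
    (by
      intro i
      simp only [LinearMap.sub_apply, LinearMap.comp_apply, LinearMap.smul_apply, wL,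
        LinearMap.coe_mk, AddHom.coe_mk, whiskerLeft_id, smul_eq_mul]
      rw [F.mul, tr_id, tr_id]
      ring) Z
  have h2 := LinearMap.congr_fun h v
  simp only [LinearMap.sub_apply, LinearMap.comp_apply, LinearMap.smul_apply, wL,
    LinearMap.coe_mk, AddHom.coe_mk, LinearMap.zero_apply, smul_eq_mul] at h2
  exact sub_eq_zero.1 h2

end Fus

variable [MonoidalPreadditive C] [MonoidalLinear ℂ C]

namespace Fus

variable (F : Fus C)

/-- cyclic functionals on `Hom(Y, B ⊗ Y)` on which right tensoring acts by the dimension. -/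
def E (B : C) : Submodule ℂ (∀ Y : C, (Y ⟶ B ⊗ Y) →ₗ[ℂ] ℂ) where
  carrier := {φ | (∀ (Y Y' : C) (h : Y ⟶ Y') (w : Y' ⟶ B ⊗ Y), φ Y (h ≫ w) = φ Y' (w ≫ B ◁ h)) ∧
    ∀ (Y Z : C) (u : Y ⟶ B ⊗ Y), φ (Y ⊗ Z) (u ▷ Z ≫ (α_ B Y Z).hom) = φ Y u * F.dim Z}
  add_mem' := by
    rintro φ ψ ⟨h1, h2⟩ ⟨h3, h4⟩
    refine ⟨fun Y Y' h w => ?_, fun Y Z u => ?_⟩
    · simp only [Pi.add_apply, LinearMap.add_apply, h1 Y Y' h w, h3 Y Y' h w]
    · simp only [Pi.add_apply, LinearMap.add_apply, h2, h4, add_mul]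
  zero_mem' := ⟨fun _ _ _ _ => rfl, fun _ _ _ => by simp⟩
  smul_mem' := by
    rintro c φ ⟨h1, h2⟩
    refine ⟨fun Y Y' h w => ?_, fun Y Z u => ?_⟩
    · simp only [Pi.smul_apply, LinearMap.smul_apply, h1 Y Y' h w]
    · simp only [Pi.smul_apply, LinearMap.smul_apply, h2, smul_eq_mul, mul_assoc]

variable {F}

omit [MonoidalPreadditive C] [MonoidalLinear ℂ C] in
lemma E_iso {B : C} (φ : F.E B) {Y Y' : C} (e : Y ≅ Y') (u : Y' ⟶ B ⊗ Y') :
    φ.1 Y' u = φ.1 Y (e.hom ≫ u ≫ B ◁ e.inv) := by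
  rw [φ.2.1]
  simp [← whiskerLeft_comp]

variable (F)

omit [MonoidalPreadditive C] [MonoidalLinear ℂ C] in
lemma E_fd (B : C) : FiniteDimensional ℂ (F.E B) := by
  have := F.fd
  let r : F.E B →ₗ[ℂ] (∀ i : Fin F.n, (F.S i ⟶ B ⊗ F.S i) →ₗ[ℂ] ℂ) :=
    { toFun := fun φ i => φ.1 (F.S i)
      map_add' := fun _ _ => rfl
      map_smul' := fun _ _ => rfl }
  refine FiniteDimensional.of_injective r ?_
  rw [← LinearMap.ker_eq_bot, LinearMap.ker_eq_bot']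
  intro φ hφ
  apply Subtype.ext
  funext Y
  apply F.vanish
  intro i p w
  rw [φ.2.1]
  have : φ.1 (F.S i) = 0 := congrFun hφ i
  rw [this]
  rfl

/-- one step of the annular action on morphisms. -/
def step {X A A' : C} (f : X ⊗ A ⟶ A' ⊗ X) (Y : C) :
    (Y ⟶ A ⊗ Y) →ₗ[ℂ] (X ⊗ Y ⟶ A' ⊗ (X ⊗ Y)) where
  toFun u := X ◁ u ≫ (α_ X A Y).inv ≫ f ▷ Y ≫ (α_ A' X Y).hom
  map_add' u v := by simp [Preadditive.add_comp]
  map_smul' c u := by simp

lemma step_apply {X A A' : C} (f : X ⊗ A ⟶ A' ⊗ X) (Y : C) (u : Y ⟶ A ⊗ Y) :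
    step f Y u = X ◁ u ≫ (α_ X A Y).inv ≫ f ▷ Y ≫ (α_ A' X Y).hom := rfl

/-- the annular action. -/
def act {X A A' : C} (f : X ⊗ A ⟶ A' ⊗ X) : F.E A' →ₗ[ℂ] F.E A where
  toFun φ := ⟨fun Y => φ.1 (X ⊗ Y) ∘ₗ step f Y, by
    refine ⟨fun Y Y' h w => ?_, fun Y Z u => ?_⟩
    · simp only [LinearMap.comp_apply, step_apply]
      rw [whiskerLeft_comp, Category.assoc, φ.2.1]
      congr 1
      simp only [whiskerLeft_comp, Category.assoc]
      rw [← associator_naturality_right, ← whisker_exchange_assoc]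
      monoidal
    · simp only [LinearMap.comp_apply, step_apply]
      rw [← φ.2.2, E_iso φ (α_ X Y Z)]
      congr 1
      monoidal⟩
  map_add' _ _ := rfl
  map_smul' _ _ := rfl

lemma act_apply {X A A' : C} (f : X ⊗ A ⟶ A' ⊗ X) (φ : F.E A') (Y : C) (u : Y ⟶ A ⊗ Y) :
    (F.act f φ).1 Y u =
      φ.1 (X ⊗ Y) (X ◁ u ≫ (α_ X A Y).inv ≫ f ▷ Y ≫ (α_ A' X Y).hom) := rfl

/-- functoriality in the outer object. -/
def mapE {A A' : C} (k : A ⟶ A') : F.E A' →ₗ[ℂ] F.E A where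
  toFun φ := ⟨fun Y => φ.1 Y ∘ₗ Linear.rightComp ℂ Y (k ▷ Y), by
    refine ⟨fun Y Y' h w => ?_, fun Y Z u => ?_⟩
    · simp only [LinearMap.comp_apply, Linear.rightComp_apply]
      rw [Category.assoc, φ.2.1, Category.assoc, Category.assoc, whisker_exchange]
    · simp only [LinearMap.comp_apply, Linear.rightComp_apply]
      rw [← φ.2.2]
      congr 1
      monoidal⟩
  map_add' _ _ := rfl
  map_smul' _ _ := rfl

omit [MonoidalPreadditive C] [MonoidalLinear ℂ C] in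
lemma mapE_apply {A A' : C} (k : A ⟶ A') (φ : F.E A') (Y : C) (u : Y ⟶ A ⊗ Y) :
    (F.mapE k φ).1 Y u = φ.1 Y (u ≫ k ▷ Y) := rfl

lemma act_left {X A A' A'' : C} (k : A ⟶ A') (g : X ⊗ A' ⟶ A'' ⊗ X) :
    F.act (X ◁ k ≫ g) = F.mapE k ∘ₗ F.act g := by
  ext φ Y u
  simp only [LinearMap.comp_apply, act_apply, mapE_apply]
  congr 1
  monoidal

lemma act_right {X A A' A'' : C} (g : X ⊗ A ⟶ A' ⊗ X) (k : A' ⟶ A'') :
    F.act (g ≫ k ▷ X) = F.act g ∘ₗ F.mapE k := by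
  ext φ Y u
  simp only [LinearMap.comp_apply, act_apply, mapE_apply]
  congr 1
  monoidal

lemma act_comp {X Y A A' A'' : C} (f : X ⊗ A ⟶ A' ⊗ X) (g : Y ⊗ A' ⟶ A'' ⊗ Y) :
    F.act f ∘ₗ F.act g = F.act ((α_ Y X A).hom ≫ Y ◁ f ≫ (α_ Y A' X).inv ≫ g ▷ X ≫
      (α_ A'' Y X).hom) := by
  ext φ Z u
  simp only [LinearMap.comp_apply, act_apply]
  rw [E_iso φ (α_ Y X Z)]
  congr 1
  monoidal

lemma act_unit (B : C) : F.act ((λ_ B).hom ≫ (ρ_ B).inv) = LinearMap.id := by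
  ext φ Z u
  simp only [act_apply, LinearMap.id_apply]
  rw [E_iso φ (λ_ Z) u]
  congr 1
  monoidal

lemma act_id (B : C) : F.act (𝟙 (B ⊗ B)) = LinearMap.id := by
  ext φ Z u
  simp only [act_apply, LinearMap.id_apply]
  have := φ.2.1 Z (B ⊗ Z) u (𝟙 _)
  simp only [Category.comp_id, Category.id_comp] at this
  simp [this]

/-- the trace of the annular action. -/
noncomputable def lam (X A : C) : (X ⊗ A ⟶ A ⊗ X) →ₗ[ℂ] ℂ where
  toFun f := LinearMap.trace ℂ _ (F.act f)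
  map_add' f g := by
    rw [← map_add]
    congr 1
    ext φ Z u
    simp [act_apply, Preadditive.add_comp, Preadditive.comp_add]
  map_smul' c f := by
    rw [RingHom.id_apply, ← map_smul]
    congr 1
    ext φ Z u
    simp [act_apply]

end Fus

/-- cyclic functionals on `Hom(X ⊗ A, A ⊗ X)`. -/
def V (X : C) : Submodule ℂ (∀ A : C, (X ⊗ A ⟶ A ⊗ X) →ₗ[ℂ] ℂ) where
  carrier := {φ | ∀ (A A' : C) (k : A ⟶ A') (g : X ⊗ A' ⟶ A ⊗ X),
    φ A (X ◁ k ≫ g) = φ A' (g ≫ k ▷ X)}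
  add_mem' := by
    intro φ ψ h1 h2 A A' k g
    simp only [Pi.add_apply, LinearMap.add_apply, h1 A A' k g, h2 A A' k g]
  zero_mem' := fun _ _ _ _ => rfl
  smul_mem' := by
    intro c φ h1 A A' k g
    simp only [Pi.smul_apply, LinearMap.smul_apply, h1 A A' k g]

lemma Fus.lam_mem (F : Fus C) (X : C) : (fun A => F.lam X A) ∈ V X := by
  intro A A' k g
  have := F.E_fd A
  have := F.E_fd A'
  change LinearMap.trace ℂ _ (F.act _) = LinearMap.trace ℂ _ (F.act _)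
  rw [F.act_left, F.act_right, LinearMap.trace_comp_comm']

lemma Fus.V_fd (F : Fus C) (X : C) : FiniteDimensional ℂ (V X) := by
  have := F.fd
  let r : V X →ₗ[ℂ] (∀ i : Fin F.n, (X ⊗ F.S i ⟶ F.S i ⊗ X) →ₗ[ℂ] ℂ) :=
    { toFun := fun φ i => φ.1 (F.S i)
      map_add' := fun _ _ => rfl
      map_smul' := fun _ _ => rfl }
  refine FiniteDimensional.of_injective r ?_
  rw [← LinearMap.ker_eq_bot, LinearMap.ker_eq_bot']
  intro φ hφ
  apply Subtype.ext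
  funext A
  ext f
  have h := F.vanish (φ.1 A ∘ₗ Linear.rightComp ℂ (X ⊗ A) f ∘ₗ Fus.wL X A A) (by
    intro i p w
    simp only [LinearMap.comp_apply, Fus.wL, LinearMap.coe_mk, AddHom.coe_mk, whiskerLeft_comp,
      Linear.rightComp_apply, Category.assoc]
    rw [φ.2]
    have : φ.1 (F.S i) = 0 := congrFun hφ i
    rw [this]
    rfl)
  simpa [Fus.wL] using LinearMap.congr_fun h (𝟙 A)

/-- the twist. -/
def tw (X : C) : V X →ₗ[ℂ] V X where
  toFun φ := ⟨fun A => φ.1 (A ⊗ X) ∘ₗ Linear.leftComp ℂ _ (α_ X A X).inv ∘ₗ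
      Fus.wR (X ⊗ A) (A ⊗ X) X, by
    intro A A' k g
    simp only [LinearMap.comp_apply, Fus.wR, LinearMap.coe_mk, AddHom.coe_mk,
      Linear.leftComp_apply, comp_whiskerRight]
    rw [← Category.assoc (α_ X A' X).inv, ← φ.2]
    congr 1
    monoidal⟩
  map_add' _ _ := rfl
  map_smul' _ _ := rfl

lemma tw_apply (X : C) (φ : V X) (A : C) (f : X ⊗ A ⟶ A ⊗ X) :
    (tw X φ).1 A f = φ.1 (A ⊗ X) ((α_ X A X).inv ≫ f ▷ X) := rfl

lemma tw_injective (X Y : C) (η : 𝟙_ C ⟶ Y ⊗ X) (ε : X ⊗ Y ⟶ 𝟙_ C)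
    (hz : X ◁ η ≫ (α_ X Y X).inv ≫ ε ▷ X = (ρ_ X).hom ≫ (λ_ X).inv) :
    Function.Injective (tw X) := by
  have hz' : X ◁ η ⊗≫ ε ▷ X = ⊗𝟙.hom := by
    calc X ◁ η ⊗≫ ε ▷ X = X ◁ η ≫ (α_ X Y X).inv ≫ ε ▷ X := by monoidal
      _ = _ := by rw [hz]; monoidal
  rw [← LinearMap.ker_eq_bot, LinearMap.ker_eq_bot']
  intro φ hφ
  apply Subtype.ext
  funext B
  ext g
  let k : X ⊗ (Y ⊗ B) ⟶ B := (α_ X Y B).inv ≫ ε ▷ B ≫ (λ_ B).hom
  let m : B ⟶ (Y ⊗ B) ⊗ X :=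
    (λ_ B).inv ≫ η ▷ B ≫ (α_ Y X B).hom ≫ Y ◁ g ≫ (α_ Y B X).inv
  have h0 : (tw X φ).1 (Y ⊗ B) (k ≫ m) = 0 := by rw [hφ]; rfl
  rw [tw_apply, ← φ.2, whiskerLeft_comp, Category.assoc, φ.2] at h0
  have e : (X ◁ m ≫ (α_ X (Y ⊗ B) X).inv) ≫ k ▷ X = g := by
    calc (X ◁ m ≫ (α_ X (Y ⊗ B) X).inv) ≫ k ▷ X
        = 𝟙 _ ⊗≫ (X ◁ η) ▷ B ⊗≫ ((X ⊗ Y) ◁ g ≫ ε ▷ (B ⊗ X)) ⊗≫ 𝟙 _ := by
          simp only [k, m]
          monoidal
      _ = 𝟙 _ ⊗≫ (X ◁ η ⊗≫ ε ▷ X) ▷ B ⊗≫ g := by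
          rw [whisker_exchange]
          monoidal
      _ = g := by
          rw [hz']
          monoidal
  rw [e] at h0
  exact h0

end Pool.Agent.MP_f5ca18_al.H67.Q2
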